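import Mathlib

set_option autoImplicit false

open Polynomial

namespace Pool.Agent.Helper356.Amalg

/-- the algebraic relation v^e = g(u^e), where g is the Moebius map with coefficients a and b. -/
def Rel {L : Type*} [CommRing L] [Algebra ℂ L] (e : ℕ) (a b : ℂ) (u v : L) : Prop :=
  (algebraMap ℂ L (starRingEnd ℂ b) * u ^ e + algebraMap ℂ L (starRingEnd ℂ a)) * v ^ e
    = algebraMap ℂ L a * u ^ e + algebraMap ℂ L b

section basic

variable {L : Type*} [Field L] [Algebra ℂ L]

lemma det_ne {a b : ℂ} (h : Complex.normSq a - Complex.normSq b = 1) : a * starRingEnd ℂ a - b * starRingEnd ℂ b = 1 := by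
  rw [Complex.mul_conj, Complex.mul_conj]
  exact_mod_cast h

lemma isAlg_const (c : ℂ) : IsAlgebraic ℂ (algebraMap ℂ L c) := isAlgebraic_algebraMap c

lemma rel_inv {e : ℕ} {a b : ℂ} {u v : L} (h : Rel e a b u v) :
    (algebraMap ℂ L a - algebraMap ℂ L (starRingEnd ℂ b) * v ^ e) * u ^ e
      = algebraMap ℂ L (starRingEnd ℂ a) * v ^ e - algebraMap ℂ L b := by
  unfold Rel at h
  linear_combination -h

lemma isAlgebraic_right {e : ℕ} (he : 0 < e) {a b : ℂ} (hab : Complex.normSq a - Complex.normSq b = 1)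
    {u v : L} (h : Rel e a b u v) (hu : IsAlgebraic ℂ u) : IsAlgebraic ℂ v := by
  have hue : IsAlgebraic ℂ (u ^ e) := hu.pow e
  have hdet := det_ne hab
  have hdetL : algebraMap ℂ L a * algebraMap ℂ L (starRingEnd ℂ a) - algebraMap ℂ L b * algebraMap ℂ L (starRingEnd ℂ b) = 1 := by
    rw [← map_mul, ← map_mul, ← map_sub, hdet, map_one]
  have hD : (algebraMap ℂ L (starRingEnd ℂ b) * u ^ e + algebraMap ℂ L (starRingEnd ℂ a)) ≠ 0 := by
    intro h0
    unfold Rel at h
    rw [h0, zero_mul] at h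
    have : (1 : L) = 0 := by
      rw [← hdetL]
      linear_combination (algebraMap ℂ L a) * h0 + (algebraMap ℂ L (starRingEnd ℂ b)) * h
    exact one_ne_zero this
  have hv : v ^ e = (algebraMap ℂ L a * u ^ e + algebraMap ℂ L b) / (algebraMap ℂ L (starRingEnd ℂ b) * u ^ e + algebraMap ℂ L (starRingEnd ℂ a)) := by
    rw [eq_div_iff hD, mul_comm]
    exact h
  have hv' : IsAlgebraic ℂ (v ^ e) := by
    rw [hv, div_eq_mul_inv]
    exact (((isAlg_const a).mul hue).add (isAlg_const b)).mul
      (((isAlg_const _).mul hue).add (isAlg_const _)).inv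
  exact IsAlgebraic.of_pow he hv'

lemma isAlgebraic_left {e : ℕ} (he : 0 < e) {a b : ℂ} (hab : Complex.normSq a - Complex.normSq b = 1)
    {u v : L} (h : Rel e a b u v) (hv : IsAlgebraic ℂ v) : IsAlgebraic ℂ u := by
  have hinv := rel_inv h
  have hab' : Complex.normSq (starRingEnd ℂ a) - Complex.normSq (-b) = 1 := by
    rw [Complex.normSq_conj, Complex.normSq_neg]; exact hab
  refine isAlgebraic_right he hab' (u := v) (v := u) ?_ hv
  unfold Rel
  simp only [map_neg, Complex.conj_conj]
  linear_combination hinv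

lemma den_ne {e : ℕ} (he : 0 < e) {a b : ℂ} (hb : b ≠ 0) {u : L} (hu : Transcendental ℂ u) :
    (algebraMap ℂ L (starRingEnd ℂ b) * u ^ e + algebraMap ℂ L (starRingEnd ℂ a)) ≠ 0 := by
  intro h0
  apply hu
  have hb' : algebraMap ℂ L (starRingEnd ℂ b) ≠ 0 := by
    simpa using hb
  have : u ^ e = - (algebraMap ℂ L (starRingEnd ℂ a)) * (algebraMap ℂ L (starRingEnd ℂ b))⁻¹ := by
    field_simp
    linear_combination h0
  apply IsAlgebraic.of_pow he
  rw [this]
  exact ((isAlg_const _).neg).mul (isAlg_const _).inv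

end basic


section irr

/-- in Laurent series, z^e = X^d forces that e divides d. -/
lemma laurent_pow {z : LaurentSeries ℂ} {e d : ℕ} (h : z ^ e = (HahnSeries.single (1:ℤ) (1:ℂ)) ^ d) : (e : ℤ) ∣ (d : ℤ) := by
  rw [HahnSeries.single_pow] at h
  have h2 := congrArg HahnSeries.order h
  rw [HahnSeries.order_pow, HahnSeries.order_single (by simp)] at h2
  exact ⟨z.order, by simpa using h2.symm⟩

lemma irr {K : Type} [Field K] [Algebra ℂ K] (σ : K →ₐ[ℂ] LaurentSeries ℂ) (φ : K)
    (hφ : σ φ = HahnSeries.single (1:ℤ) (1:ℂ)) {e : ℕ} (he : 0 < e) :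
    Irreducible (X ^ e - C φ : K[X]) := by
  set p : K[X] := X ^ e - C φ with hp
  have hdeg : p.natDegree = e := natDegree_X_pow_sub_C
  have hmon : p.Monic := monic_X_pow_sub_C φ he.ne'
  obtain ⟨q, hq, hqp⟩ := exists_irreducible_of_natDegree_ne_zero (f := p) (by omega)
  have : Fact (Irreducible q) := ⟨hq⟩
  have hv : (AdjoinRoot.root q) ^ e = algebraMap K (AdjoinRoot q) φ := by
    have h0 : AdjoinRoot.mk q p = 0 := AdjoinRoot.mk_eq_zero.2 hqp
    rw [hp, map_sub, map_pow, AdjoinRoot.mk_X, AdjoinRoot.mk_C] at h0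
    exact sub_eq_zero.1 h0
  have hfin : Module.finrank K (AdjoinRoot q) = q.natDegree := by
    rw [(AdjoinRoot.powerBasis hq.ne_zero).finrank, AdjoinRoot.powerBasis_dim]
  have hN : (Algebra.norm K (AdjoinRoot.root q)) ^ e = φ ^ q.natDegree := by
    rw [← map_pow, hv, Algebra.norm_algebraMap, hfin]
  have hN2 := congrArg σ hN
  rw [map_pow, map_pow, hφ] at hN2
  have hdvd := laurent_pow hN2
  have hd0 : 0 < q.natDegree := hq.natDegree_pos
  have hle : e ≤ q.natDegree := Nat.le_of_dvd hd0 (by exact_mod_cast hdvd)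
  obtain ⟨r, hr⟩ := hqp
  have hr0 : r ≠ 0 := by
    rintro rfl
    rw [mul_zero] at hr
    exact hmon.ne_zero hr
  have hsum : p.natDegree = q.natDegree + r.natDegree := by
    rw [hr]; exact natDegree_mul hq.ne_zero hr0
  have hrdeg : r.natDegree = 0 := by omega
  have hru : IsUnit r := by
    rw [Polynomial.isUnit_iff_degree_eq_zero]
    rw [degree_eq_natDegree hr0, hrdeg]; rfl
  have : Associated q p := by
    rw [hr]
    exact (associated_mul_unit_right q r hru)
  exact this.irreducible hq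

end irr


section universal

/-- Existence of a special trajectory: relations before index m, and the relation number m
holds with v^e replaced by the variable of the Laurent series field. -/
def Special (e : ℕ → ℕ) (a b : ℕ → ℂ) (m : ℕ) : Prop :=
  ∃ u : ℕ → LaurentSeries ℂ, Transcendental ℂ (u 0) ∧
    (∀ i < m, Rel (e i) (a i) (b i) (u i) (u (i + 1))) ∧
    (algebraMap ℂ (LaurentSeries ℂ) (starRingEnd ℂ (b m)) * (u m) ^ (e m)
      + algebraMap ℂ (LaurentSeries ℂ) (starRingEnd ℂ (a m))) * HahnSeries.single (1:ℤ) (1:ℂ)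
    = algebraMap ℂ (LaurentSeries ℂ) (a m) * (u m) ^ (e m) + algebraMap ℂ (LaurentSeries ℂ) (b m)

lemma Rel.map {K L : Type*} [CommRing K] [Algebra ℂ K] [CommRing L] [Algebra ℂ L] (σ : K →ₐ[ℂ] L)
    {e : ℕ} {a b : ℂ} {u v : K} (h : Rel e a b u v) : Rel e a b (σ u) (σ v) := by
  unfold Rel at *
  have := congrArg σ h
  simpa only [map_mul, map_add, map_pow, AlgHom.commutes] using this

lemma transc_map {K L : Type*} [Field K] [Algebra ℂ K] [Field L] [Algebra ℂ L] (σ : K →ₐ[ℂ] L)
    {x : K} (h : Transcendental ℂ x) : Transcendental ℂ (σ x) := by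
  intro h2
  exact h ((isAlgebraic_algHom_iff σ σ.injective).1 h2)

lemma transc_all {L : Type*} [Field L] [Algebra ℂ L] {e : ℕ → ℕ} {a b : ℕ → ℂ} {u : ℕ → L} {n : ℕ}
    (hpos : ∀ i < n, 0 < e i)
    (hdet : ∀ i < n, Complex.normSq (a i) - Complex.normSq (b i) = 1)
    (h0 : Transcendental ℂ (u 0)) (hrel : ∀ i < n, Rel (e i) (a i) (b i) (u i) (u (i + 1))) :
    ∀ i ≤ n, Transcendental ℂ (u i) := by
  intro i
  induction i with
  | zero => intro _; exact h0
  | succ i ih =>
    intro hi h
    exact ih (by omega) (isAlgebraic_left (hpos i (by omega)) (hdet i (by omega)) (hrel i (by omega)) h)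

theorem exists_universal (e : ℕ → ℕ) (a b : ℕ → ℂ) (n : ℕ)
    (hpos : ∀ i < n, 0 < e i) (hb : ∀ i < n, b i ≠ 0)
    (hdet : ∀ i < n, Complex.normSq (a i) - Complex.normSq (b i) = 1)
    (hs : ∀ m < n, e m = 1 ∨ Special e a b m) :
    ∃ (K : Type) (_ : Field K) (_ : Algebra ℂ K) (κ : ℕ → K), Transcendental ℂ (κ 0) ∧
      (∀ i < n, Rel (e i) (a i) (b i) (κ i) (κ (i + 1))) ∧
      ∀ (L : Type) [Field L] [Algebra ℂ L] (u : ℕ → L), Transcendental ℂ (u 0) →
        (∀ i < n, Rel (e i) (a i) (b i) (u i) (u (i + 1))) →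
        ∃ σ : K →ₐ[ℂ] L, ∀ i ≤ n, σ (κ i) = u i := by
  induction n with
  | zero =>
    refine ⟨RatFunc ℂ, inferInstance, inferInstance, fun _ => RatFunc.X, ?_, ?_, ?_⟩
    · exact RatFunc.transcendental_X
    · intro i hi; omega
    · intro L _ _ u hu _
      have hinj : Function.Injective (aeval (u 0) : ℂ[X] →ₐ[ℂ] L) :=
        transcendental_iff_injective.1 hu
      refine ⟨RatFunc.liftAlgHom (aeval (u 0))
        (nonZeroDivisors_le_comap_nonZeroDivisors_of_injective _ hinj), ?_⟩
      intro i hi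
      have : i = 0 := by omega
      subst this
      rw [RatFunc.liftAlgHom_apply]
      simp
  | succ n ih =>
    obtain ⟨K, hK1, hK2, κ, hκ0, hκrel, hκuniv⟩ := ih (fun i hi => hpos i (by omega))
      (fun i hi => hb i (by omega)) (fun i hi => hdet i (by omega)) (fun m hm => hs m (by omega))
    have htr := transc_all (fun i hi => hpos i (by omega)) (fun i hi => hdet i (by omega)) hκ0 hκrel
    have hD := den_ne (L := K) (a := a n) (hpos n (by omega)) (hb n (by omega)) (htr n le_rfl)
    set φ : K := (algebraMap ℂ K (a n) * (κ n) ^ (e n) + algebraMap ℂ K (b n)) /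
      (algebraMap ℂ K (starRingEnd ℂ (b n)) * (κ n) ^ (e n) + algebraMap ℂ K (starRingEnd ℂ (a n))) with hφ
    have hirr : Irreducible (X ^ (e n) - C φ : K[X]) := by
      rcases hs n (by omega) with h1 | ⟨u, hu0, hurel, hulast⟩
      · rw [h1, pow_one]; exact irreducible_X_sub_C φ
      · obtain ⟨σ, hσ⟩ := hκuniv _ u hu0 hurel
        refine irr σ φ ?_ (hpos n (by omega))
        have hun : Transcendental ℂ (u n) := transc_all (fun i hi => hpos i (by omega))
          (fun i hi => hdet i (by omega)) hu0 hurel n le_rfl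
        have hD' := den_ne (a := a n) (hpos n (by omega)) (hb n (by omega)) hun
        rw [hφ, map_div₀]
        simp only [map_mul, map_add, map_pow, AlgHom.commutes, hσ n le_rfl]
        rw [div_eq_iff hD', ← hulast, mul_comm]
    have : Fact (Irreducible (X ^ (e n) - C φ : K[X])) := ⟨hirr⟩
    refine ⟨AdjoinRoot (X ^ (e n) - C φ : K[X]), inferInstance, inferInstance,
      fun i => if i ≤ n then AdjoinRoot.of _ (κ i) else AdjoinRoot.root _, ?_, ?_, ?_⟩
    · simp only [Nat.zero_le, if_true]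
      exact transc_map (AdjoinRoot.ofAlgHom ℂ (X ^ (e n) - C φ : K[X])) hκ0
    · intro i hi
      rcases Nat.lt_succ_iff_lt_or_eq.1 hi with hi' | rfl
      · have h1 : i ≤ n := by omega
        have h2 : i + 1 ≤ n := by omega
        simp only [h1, h2, if_true]
        exact (hκrel i hi').map (AdjoinRoot.ofAlgHom ℂ (X ^ (e n) - C φ : K[X]))
      · simp only [le_refl, if_true, show ¬ (i + 1 ≤ i) by omega, if_false]
        have hroot : (AdjoinRoot.root (X ^ (e i) - C φ : K[X])) ^ (e i) = AdjoinRoot.of _ φ := by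
          have h0 : AdjoinRoot.mk (X ^ (e i) - C φ : K[X]) (X ^ (e i) - C φ : K[X]) = 0 :=
            AdjoinRoot.mk_self
          rw [map_sub, map_pow, AdjoinRoot.mk_X, AdjoinRoot.mk_C] at h0
          exact sub_eq_zero.1 h0
        unfold Rel
        rw [hroot]
        have h3 : (algebraMap ℂ K (starRingEnd ℂ (b i)) * (κ i) ^ (e i) + algebraMap ℂ K (starRingEnd ℂ (a i))) * φ =
            algebraMap ℂ K (a i) * (κ i) ^ (e i) + algebraMap ℂ K (b i) := by
          rw [hφ, mul_div_cancel₀ _ hD]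
        have h4 := congrArg (AdjoinRoot.ofAlgHom ℂ (X ^ (e i) - C φ : K[X])) h3
        simp only [map_mul, map_add, map_pow, AlgHom.commutes] at h4
        exact h4
    · intro L _ _ u hu0 hurel
      obtain ⟨σ, hσ⟩ := hκuniv L u hu0 (fun i hi => hurel i (by omega))
      have hun : Transcendental ℂ (u n) := transc_all (fun i hi => hpos i (by omega))
          (fun i hi => hdet i (by omega)) hu0 (fun i hi => hurel i (by omega)) n le_rfl
      have hD' := den_ne (a := a n) (hpos n (by omega)) (hb n (by omega)) hun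
      have hlast := hurel n (by omega)
      have hev : Polynomial.eval₂ (σ : K →+* L) (u (n + 1)) (X ^ (e n) - C φ : K[X]) = 0 := by
        rw [eval₂_sub, eval₂_pow, eval₂_X, eval₂_C]
        have : (σ : K →+* L) φ = (u (n + 1)) ^ (e n) := by
          show σ φ = _
          rw [hφ, map_div₀]
          simp only [map_mul, map_add, map_pow, AlgHom.commutes, hσ n le_rfl]
          rw [div_eq_iff hD']
          unfold Rel at hlast
          rw [← hlast, mul_comm]
        rw [this, sub_self]
      refine ⟨AdjoinRoot.liftAlgHom _ σ (u (n + 1)) hev, ?_⟩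
      intro i hi
      by_cases h : i ≤ n
      · simp only [h, if_true]
        rw [← hσ i h]
        exact AdjoinRoot.lift_of hev
      · have : i = n + 1 := by omega
        subst this
        simp only [show ¬ (n + 1 ≤ n) by omega, if_false]
        exact AdjoinRoot.lift_root hev

end universal

section special

lemma normSq_lt {a b : ℂ} (h : Complex.normSq a - Complex.normSq b = 1) : ‖b‖ < ‖a‖ := by
  rw [Complex.normSq_eq_norm_sq, Complex.normSq_eq_norm_sq] at h
  nlinarith [norm_nonneg a, norm_nonneg b]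

lemma den_ne' {a b y : ℂ} (h : Complex.normSq a - Complex.normSq b = 1) (hy : ‖y‖ < 1) :
    a - starRingEnd ℂ b * y ≠ 0 := by
  intro h0
  have h1 : a = starRingEnd ℂ b * y := by linear_combination h0
  have h2 := normSq_lt h
  have h3 : ‖a‖ = ‖b‖ * ‖y‖ := by rw [h1, norm_mul, Complex.norm_conj]
  nlinarith [norm_nonneg b, norm_nonneg y]

lemma moeb_norm {a b y : ℂ} (h : Complex.normSq a - Complex.normSq b = 1) (hy : ‖y‖ < 1) :
    ‖(starRingEnd ℂ a * y - b) / (a - starRingEnd ℂ b * y)‖ < 1 := by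
  have hD := den_ne' h hy
  rw [norm_div, div_lt_one (norm_pos_iff.2 hD)]
  have h1 : Complex.normSq (a - starRingEnd ℂ b * y) - Complex.normSq (starRingEnd ℂ a * y - b) =
      (Complex.normSq a - Complex.normSq b) * (1 - Complex.normSq y) := by
    simp only [Complex.normSq_apply, Complex.sub_re, Complex.sub_im, Complex.mul_re, Complex.mul_im,
      Complex.conj_re, Complex.conj_im]
    ring
  rw [h, one_mul] at h1
  simp only [Complex.normSq_eq_norm_sq] at h1
  have h2 : ‖y‖ ^ 2 < 1 := by nlinarith [norm_nonneg y]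
  have h3 : ‖starRingEnd ℂ a * y - b‖ ^ 2 < ‖a - starRingEnd ℂ b * y‖ ^ 2 := by linarith
  exact lt_of_pow_lt_pow_left₀ 2 (norm_nonneg _) h3

lemma backstep {a b : ℂ} (h : Complex.normSq a - Complex.normSq b = 1) (y : PowerSeries ℂ)
    (hy : ‖PowerSeries.constantCoeff y‖ < 1) :
    ∃ x : PowerSeries ℂ, (PowerSeries.C a - PowerSeries.C (starRingEnd ℂ b) * y) * x =
        PowerSeries.C (starRingEnd ℂ a) * y - PowerSeries.C b ∧
      PowerSeries.constantCoeff x = (starRingEnd ℂ a * PowerSeries.constantCoeff y - b) /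
        (a - starRingEnd ℂ b * PowerSeries.constantCoeff y) := by
  set D : PowerSeries ℂ := PowerSeries.C a - PowerSeries.C (starRingEnd ℂ b) * y with hDdef
  have hD0 : PowerSeries.constantCoeff D = a - starRingEnd ℂ b * PowerSeries.constantCoeff y := by
    simp [hDdef]
  have hDne : PowerSeries.constantCoeff D ≠ 0 := by rw [hD0]; exact den_ne' h hy
  refine ⟨(PowerSeries.C (starRingEnd ℂ a) * y - PowerSeries.C b) * D⁻¹, ?_, ?_⟩
  · rw [mul_comm, mul_assoc, PowerSeries.inv_mul_cancel D hDne, mul_one]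
  · rw [map_mul, PowerSeries.constantCoeff_inv, hD0, div_eq_mul_inv]
    simp

lemma root_ps {e : ℕ} (he : 0 < e) (x : PowerSeries ℂ) (β : ℂ) (hβ : β ^ e = PowerSeries.constantCoeff x)
    (hx : PowerSeries.constantCoeff x ≠ 0) :
    ∃ u : PowerSeries ℂ, u ^ e = x ∧ PowerSeries.constantCoeff u = β := by
  have hβ0 : β ≠ 0 := by
    rintro rfl
    rw [zero_pow he.ne'] at hβ
    exact hx hβ.symm
  have hH : HenselianRing (PowerSeries ℂ) (Ideal.span {PowerSeries.X}) := inferInstance
  obtain ⟨u, hu1, hu2⟩ := hH.is_henselian (X ^ e - C x : (PowerSeries ℂ)[X])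
    (monic_X_pow_sub_C x he.ne') (PowerSeries.C β) (by
      rw [Ideal.mem_span_singleton, PowerSeries.X_dvd_iff]
      simp [hβ]) (by
      apply IsUnit.map
      rw [PowerSeries.isUnit_iff_constantCoeff]
      rw [derivative_sub, derivative_X_pow, derivative_C, sub_zero, eval_mul, eval_C, eval_pow, eval_X]
      simp [he.ne', hβ0])
  refine ⟨u, ?_, ?_⟩
  · rw [Polynomial.IsRoot, eval_sub, eval_pow, eval_X, eval_C] at hu1
    exact sub_eq_zero.1 hu1
  · rw [Ideal.mem_span_singleton, PowerSeries.X_dvd_iff] at hu2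
    simpa [sub_eq_zero] using hu2

lemma rel_of_backstep {e : ℕ} {a b : ℂ} {u v x : PowerSeries ℂ} (hx : (PowerSeries.C a - PowerSeries.C (starRingEnd ℂ b) * v ^ e) * x =
        PowerSeries.C (starRingEnd ℂ a) * v ^ e - PowerSeries.C b) (hu : u ^ e = x) :
    Rel e a b u v := by
  subst hu
  unfold Rel
  simp only [PowerSeries.algebraMap_apply, Algebra.algebraMap_self, RingHom.id_apply]
  linear_combination -hx

end special

end Pool.Agent.Helper356.Amalg
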