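import Mathlib
import Pool.Agent.Helper356.Amalg1

set_option autoImplicit false

open Polynomial

namespace Pool.Agent.Helper356.Amalg

lemma roots1 {E e' : ℕ} (hE : 2 ≤ E) (hcop : Nat.Coprime E e') {c : ℂ} (hc : c ≠ 0) (d : ℂ) :
    ∃ β : ℂ, β ^ E = c ∧ β ^ e' ≠ d := by
  obtain ⟨β, hβ⟩ := IsAlgClosed.exists_pow_nat_eq c (n := E) (by omega)
  by_cases h : β ^ e' = d
  · have hβ0 : β ≠ 0 := by
      rintro rfl
      rw [zero_pow (by omega)] at hβ
      exact hc hβ.symm
    have hζ := Complex.isPrimitiveRoot_exp E (by omega)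
    set ζ := Complex.exp (2 * Real.pi * Complex.I / E) with hζdef
    refine ⟨β * ζ, ?_, ?_⟩
    · rw [mul_pow, hζ.pow_eq_one, mul_one, hβ]
    · intro h2
      rw [mul_pow, h] at h2
      have hd0 : d ≠ 0 := by rw [← h]; exact pow_ne_zero _ hβ0
      have h3 : ζ ^ e' = 1 := by
        have : d * (ζ ^ e' - 1) = 0 := by linear_combination h2
        rcases mul_eq_zero.1 this with h4 | h4
        · exact absurd h4 hd0
        · linear_combination h4
      have h4 := hζ.dvd_of_pow_eq_one e' h3
      have h5 : E ∣ Nat.gcd E e' := Nat.dvd_gcd dvd_rfl h4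
      rw [hcop] at h5
      have := Nat.le_of_dvd one_pos h5
      omega
  · exact ⟨β, hβ, h⟩

lemma coeff_lin_pow {p q : ℂ} (hp : p ≠ 0) {E : ℕ} (hE : 1 ≤ E) :
    ((C p * X + C q : ℂ[X]) ^ E).coeff (E - 1) = E * p ^ E * (q / p) := by
  have h1 : (C p * X + C q : ℂ[X]) = C p * (X + C (q / p)) := by
    rw [mul_add, ← C_mul, mul_div_cancel₀ _ hp]
  rw [h1, mul_pow, ← C_pow, coeff_C_mul, coeff_X_add_C_pow]
  have h2 : E - (E - 1) = 1 := by omega
  have h3 : Nat.choose E (E - 1) = E := by
    rw [← Nat.choose_symm (by omega), h2, Nat.choose_one_right]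
  rw [h2, h3, pow_one]
  ring

lemma natDegree_lin_pow {p q : ℂ} {E : ℕ} : ((C p * X + C q : ℂ[X]) ^ E).natDegree ≤ E := by
  refine le_trans natDegree_pow_le ?_
  calc E * (C p * X + C q : ℂ[X]).natDegree ≤ E * 1 := Nat.mul_le_mul_left _ natDegree_linear_le
    _ = E := mul_one _

lemma roots2 {E : ℕ} (hE : 2 ≤ E) {a b c d : ℂ} (hc : c ≠ 0) (hc1 : ‖c‖ < 1) (hb : b ≠ 0)
    (hab : Complex.normSq a - Complex.normSq b = 1) (hd : ‖d‖ < 1) :
    ∃ β : ℂ, β ^ E = c ∧ ((starRingEnd ℂ a * β - b) / (a - starRingEnd ℂ b * β)) ^ E ≠ d := by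
  by_contra hcon
  push Not at hcon
  have hlt := normSq_lt hab
  have ha0 : a ≠ 0 := by
    rintro rfl
    rw [norm_zero] at hlt
    exact absurd hlt (not_lt.2 (norm_nonneg _))
  obtain ⟨β0, hβ0⟩ := IsAlgClosed.exists_pow_nat_eq c (n := E) (by omega)
  have hβ00 : β0 ≠ 0 := by
    rintro rfl
    rw [zero_pow (by omega)] at hβ0
    exact hc hβ0.symm
  have hζ := Complex.isPrimitiveRoot_exp E (by omega)
  set ζ := Complex.exp (2 * Real.pi * Complex.I / E) with hζdef
  set P : ℂ[X] := (C (starRingEnd ℂ a) * X + C (-b)) ^ E - C d * (C (-(starRingEnd ℂ b)) * X + C a) ^ E with hP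
  have hPdeg : P.natDegree ≤ E := by
    refine le_trans (natDegree_sub_le _ _) (max_le natDegree_lin_pow ?_)
    exact le_trans (natDegree_C_mul_le _ _) natDegree_lin_pow
  have hPev : ∀ β : ℂ, β ^ E = c → P.eval β = 0 := by
    intro β hβ
    have h1 := hcon β hβ
    have hβn : ‖β‖ < 1 := by
      have : ‖β‖ ^ E < 1 := by rw [← norm_pow, hβ]; exact hc1
      by_contra h2
      exact absurd this (not_lt.2 (one_le_pow₀ (not_lt.1 h2)))
    have hD := den_ne' hab hβn
    rw [div_pow, div_eq_iff (pow_ne_zero _ hD)] at h1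
    simp only [hP, eval_sub, eval_pow, eval_add, eval_mul, eval_C, eval_X]
    rw [show (starRingEnd ℂ) a * β + -b = (starRingEnd ℂ) a * β - b by ring, h1]
    ring
  set R : ℂ[X] := P - C (P.coeff E) * (X ^ E - C c) with hR
  have hR0 : R = 0 := by
    apply Polynomial.eq_zero_of_natDegree_lt_card_of_eval_eq_zero R
      (f := fun j : Fin E => β0 * ζ ^ (j : ℕ))
    · intro i j hij
      have h1 : ζ ^ (i : ℕ) = ζ ^ (j : ℕ) := mul_left_cancel₀ hβ00 hij
      exact Fin.ext (hζ.pow_inj i.2 j.2 h1)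
    · intro j
      have h1 : (β0 * ζ ^ (j : ℕ)) ^ E = c := by
        rw [mul_pow, ← pow_mul, mul_comm (j : ℕ) E, pow_mul, hζ.pow_eq_one, one_pow, mul_one, hβ0]
      simp only [hR, eval_sub, eval_mul, eval_C, eval_pow, eval_X]
      rw [hPev _ h1, h1]
      ring
    · rw [Fintype.card_fin]
      have hle : R.natDegree ≤ E := by
        refine le_trans (natDegree_sub_le _ _) (max_le hPdeg ?_)
        refine le_trans (natDegree_C_mul_le _ _) ?_
        rw [natDegree_X_pow_sub_C]
      have hcE : R.coeff E = 0 := by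
        simp only [hR, coeff_sub, coeff_C_mul, coeff_X_pow, coeff_C]
        simp [show E ≠ 0 by omega]
      rcases Nat.lt_or_ge R.natDegree E with h | h
      · exact h
      · exfalso
        have h1 : R.natDegree = E := le_antisymm hle h
        have h2 : R.leadingCoeff = 0 := by rw [leadingCoeff, h1, hcE]
        have h3 : R = 0 := leadingCoeff_eq_zero.1 h2
        rw [h3, natDegree_zero] at h1
        omega
  have hcoeff : P.coeff (E - 1) = 0 := by
    have h1 : R.coeff (E - 1) = 0 := by rw [hR0, coeff_zero]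
    simp only [hR, coeff_sub, coeff_C_mul, coeff_X_pow, coeff_C] at h1
    simpa [show E - 1 ≠ E by omega, show E - 1 ≠ 0 by omega] using h1
  have hconj0 : starRingEnd ℂ a ≠ 0 := by simpa using ha0
  have hconjb0 : -(starRingEnd ℂ b) ≠ 0 := by simpa using hb
  rw [hP, coeff_sub, coeff_C_mul, coeff_lin_pow hconj0 (by omega), coeff_lin_pow hconjb0 (by omega)] at hcoeff
  have hEC : (E : ℂ) ≠ 0 := by exact_mod_cast (show E ≠ 0 by omega)
  have h5 : (starRingEnd ℂ) a ^ E * (-b / (starRingEnd ℂ) a) = d * ((-(starRingEnd ℂ) b) ^ E * (a / -(starRingEnd ℂ) b)) := by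
    have : (E : ℂ) * ((starRingEnd ℂ) a ^ E * (-b / (starRingEnd ℂ) a) - d * ((-(starRingEnd ℂ) b) ^ E * (a / -(starRingEnd ℂ) b))) = 0 := by
      linear_combination hcoeff
    rcases mul_eq_zero.1 this with h6 | h6
    · exact absurd h6 hEC
    · linear_combination h6
  have h6 := congrArg norm h5
  simp only [norm_mul, norm_pow, norm_div, norm_neg, Complex.norm_conj] at h6
  obtain ⟨E', rfl⟩ : ∃ E', E = E' + 2 := ⟨E - 2, by omega⟩
  have hbp : 0 < ‖b‖ := norm_pos_iff.2 hb
  have hap : 0 < ‖a‖ := norm_pos_iff.2 ha0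
  have h7 : ‖a‖ ^ (E' + 2) * (‖b‖ / ‖a‖) = ‖a‖ ^ (E' + 1) * ‖b‖ := by
    field_simp
    ring
  have h8 : ‖b‖ ^ (E' + 2) * (‖a‖ / ‖b‖) = ‖b‖ ^ E' * (‖a‖ * ‖b‖) := by
    field_simp
    ring
  rw [h7, h8] at h6
  have h9 : ‖b‖ ^ E' ≤ ‖a‖ ^ E' := pow_le_pow_left₀ hbp.le hlt.le _
  have h10 : ‖a‖ ^ (E' + 1) * ‖b‖ = ‖a‖ ^ E' * (‖a‖ * ‖b‖) := by ring
  rw [h10] at h6
  have h11 : 0 < ‖a‖ * ‖b‖ := mul_pos hap hbp
  have h12 : ‖b‖ ^ E' * (‖a‖ * ‖b‖) ≤ ‖a‖ ^ E' * (‖a‖ * ‖b‖) := mul_le_mul_of_nonneg_right h9 h11.le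
  have h13 : 0 < ‖b‖ ^ E' * (‖a‖ * ‖b‖) := mul_pos (pow_pos hbp _) h11
  nlinarith


/-- hypotheses on the letters with index less than n. -/
structure Hyp (e : ℕ → ℕ) (a b : ℕ → ℂ) (n : ℕ) : Prop where
  pos : ∀ i < n, 0 < e i
  det : ∀ i < n, Complex.normSq (a i) - Complex.normSq (b i) = 1
  bne : ∀ i < n, b i ≠ 0
  cop : ∀ i, i + 1 < n → Nat.Coprime (e i) (e (i + 1))
  per : ∀ i, i + 2 < n → e (i + 2) = e i
  one : ∀ i, i + 1 < n → e i ≠ 1 ∨ e (i + 1) ≠ 1

lemma Hyp.mono {e : ℕ → ℕ} {a b : ℕ → ℂ} {n m : ℕ} (h : Hyp e a b n) (hm : m ≤ n) : Hyp e a b m where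
  pos i hi := h.pos i (by omega)
  det i hi := h.det i (by omega)
  bne i hi := h.bne i (by omega)
  cop i hi := h.cop i (by omega)
  per i hi := h.per i (by omega)
  one i hi := h.one i (by omega)

lemma norm_lt_one_of_pow {β c : ℂ} {E : ℕ} (h : β ^ E = c) (hc : ‖c‖ < 1) : ‖β‖ < 1 := by
  have : ‖β‖ ^ E < 1 := by rw [← norm_pow, h]; exact hc
  by_contra h2
  exact absurd this (not_lt.2 (one_le_pow₀ (not_lt.1 h2)))

lemma norm_ratio_lt {a b : ℂ} (h : Complex.normSq a - Complex.normSq b = 1) : ‖b / starRingEnd ℂ a‖ < 1 := by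
  have hlt := normSq_lt h
  rw [norm_div, Complex.norm_conj, div_lt_one (lt_of_le_of_lt (norm_nonneg _) hlt)]
  exact hlt

lemma num_ne {a b y : ℂ} (h : Complex.normSq a - Complex.normSq b = 1) (hy : ‖y‖ < 1)
    (hne : y ≠ b / starRingEnd ℂ a) : (starRingEnd ℂ a * y - b) / (a - starRingEnd ℂ b * y) ≠ 0 := by
  have hD := den_ne' h hy
  have hlt := normSq_lt h
  have ha : starRingEnd ℂ a ≠ 0 := by
    intro h0
    have : a = 0 := by simpa using h0
    rw [this, norm_zero] at hlt
    exact absurd hlt (not_lt.2 (norm_nonneg _))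
  apply div_ne_zero _ hD
  intro h0
  apply hne
  rw [eq_div_iff ha]
  linear_combination h0

theorem chain (e : ℕ → ℕ) (a b : ℕ → ℂ) : ∀ i : ℕ, Hyp e a b (i + 1) → 2 ≤ e i →
    ∀ x : PowerSeries ℂ, PowerSeries.constantCoeff x ≠ 0 → ‖PowerSeries.constantCoeff x‖ < 1 →
    ∃ u : ℕ → PowerSeries ℂ, (u i) ^ (e i) = x ∧
      ∀ j < i, Rel (e j) (a j) (b j) (u j) (u (j + 1)) := by
  intro i
  induction i using Nat.strong_induction_on with
  | _ i ih =>
    intro H hE x hx0 hx1
    rcases Nat.eq_zero_or_pos i with rfl | hi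
    · obtain ⟨β, hβ⟩ := IsAlgClosed.exists_pow_nat_eq (PowerSeries.constantCoeff x) (n := e 0) (by omega)
      obtain ⟨u, hu, -⟩ := root_ps (by omega) x β hβ hx0
      exact ⟨fun _ => u, hu, fun j hj => absurd hj (Nat.not_lt_zero _)⟩
    · obtain ⟨i, rfl⟩ : ∃ k, i = k + 1 := ⟨i - 1, by omega⟩
      have hcop := H.cop i (by omega)
      have hdet := H.det i (by omega)
      by_cases h1 : e i = 1
      · -- the previous letter is a Moebius map
        rcases Nat.eq_zero_or_pos i with rfl | hi'
        · obtain ⟨β, hβ⟩ := IsAlgClosed.exists_pow_nat_eq (PowerSeries.constantCoeff x) (n := e (0 + 1)) (by omega)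
          obtain ⟨v, hv, hvβ⟩ := root_ps (by omega) x β hβ hx0
          have hβ1 : ‖β‖ < 1 := norm_lt_one_of_pow hβ hx1
          obtain ⟨w, hw, -⟩ := backstep hdet (v ^ e 0) (by rw [h1, pow_one, hvβ]; exact hβ1)
          refine ⟨fun j => if j = 0 then w else v, by simpa using hv, ?_⟩
          intro j hj
          have : j = 0 := by omega
          subst this
          simp only [if_true, zero_add, one_ne_zero, if_false]
          exact rel_of_backstep hw (by rw [h1, pow_one])
        · obtain ⟨i, rfl⟩ : ∃ k, i = k + 1 := ⟨i - 1, by omega⟩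
          have hper : e (i + 2) = e i := H.per i (by omega)
          have hper' : e (i + 1 + 1) = e i := hper
          have hdet2 := H.det i (by omega)
          obtain ⟨β, hβ, hβ2⟩ := roots2 (E := e (i + 1 + 1)) hE (a := a (i + 1)) (b := b (i + 1))
            (c := PowerSeries.constantCoeff x) (d := b i / starRingEnd ℂ (a i)) hx0 hx1
            (H.bne _ (by omega)) hdet (norm_ratio_lt hdet2)
          have hβ1 : ‖β‖ < 1 := norm_lt_one_of_pow hβ hx1
          obtain ⟨v, hv, hvβ⟩ := root_ps (by omega) x β hβ hx0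
          obtain ⟨w, hw, hw0⟩ := backstep hdet (v ^ e (i + 1)) (by rw [h1, pow_one, hvβ]; exact hβ1)
          have hw0' : PowerSeries.constantCoeff w = (starRingEnd ℂ (a (i + 1)) * β - b (i + 1)) /
              (a (i + 1) - starRingEnd ℂ (b (i + 1)) * β) := by
            rw [hw0, h1, pow_one, hvβ]
          have hw1 : ‖PowerSeries.constantCoeff w‖ < 1 := by rw [hw0']; exact moeb_norm hdet hβ1
          have hwE : ‖PowerSeries.constantCoeff (w ^ e i)‖ < 1 := by
            rw [map_pow, norm_pow]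
            exact pow_lt_one₀ (norm_nonneg _) hw1 (by omega)
          obtain ⟨x', hx', hx'0⟩ := backstep hdet2 (w ^ e i) hwE
          have hx'ne : PowerSeries.constantCoeff x' ≠ 0 := by
            rw [hx'0]
            apply num_ne hdet2 hwE
            rw [map_pow, hw0', ← hper']
            exact hβ2
          have hx'1 : ‖PowerSeries.constantCoeff x'‖ < 1 := by
            rw [hx'0]; exact moeb_norm hdet2 hwE
          obtain ⟨u, hu, hurel⟩ := ih i (by omega) (H.mono (by omega)) (by omega) x' hx'ne hx'1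
          refine ⟨fun j => if j ≤ i then u j else if j = i + 1 then w else v, ?_, ?_⟩
          · simpa using hv
          · intro j hj
            rcases Nat.lt_or_ge j i with hj1 | hj1
            · simp only [show j ≤ i by omega, show j + 1 ≤ i by omega, if_true]
              exact hurel j hj1
            · rcases Nat.eq_or_lt_of_le hj1 with rfl | hj2
              · simp only [le_refl, if_true, show ¬ (i + 1 ≤ i) by omega, if_false]
                exact rel_of_backstep hx' hu
              · have : j = i + 1 := by omega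
                subst this
                simp only [show ¬ (i + 1 ≤ i) by omega, if_false, if_true,
                  show ¬ (i + 1 + 1 ≤ i) by omega, show ¬ (i + 1 + 1 = i + 1) by omega]
                exact rel_of_backstep hw (by rw [h1, pow_one])
      · have hpos := H.pos i (by omega)
        have h2 : 2 ≤ e i := by omega
        obtain ⟨β, hβ, hβ2⟩ := roots1 (E := e (i + 1)) (e' := e i) hE hcop.symm hx0
          (b i / starRingEnd ℂ (a i))
        have hβ1 : ‖β‖ < 1 := norm_lt_one_of_pow hβ hx1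
        obtain ⟨v, hv, hvβ⟩ := root_ps (by omega) x β hβ hx0
        have hvE : ‖PowerSeries.constantCoeff (v ^ e i)‖ < 1 := by
          rw [map_pow, norm_pow, hvβ]
          exact pow_lt_one₀ (norm_nonneg _) hβ1 (by omega)
        obtain ⟨x', hx', hx'0⟩ := backstep hdet (v ^ e i) hvE
        have hx'ne : PowerSeries.constantCoeff x' ≠ 0 := by
          rw [hx'0]
          apply num_ne hdet hvE
          rw [map_pow, hvβ]
          exact hβ2
        have hx'1 : ‖PowerSeries.constantCoeff x'‖ < 1 := by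
          rw [hx'0]; exact moeb_norm hdet hvE
        obtain ⟨u, hu, hurel⟩ := ih i (by omega) (H.mono (by omega)) h2 x' hx'ne hx'1
        refine ⟨fun j => if j ≤ i then u j else v, ?_, ?_⟩
        · simpa using hv
        · intro j hj
          rcases Nat.lt_or_ge j i with hj1 | hj1
          · simp only [show j ≤ i by omega, show j + 1 ≤ i by omega, if_true]
            exact hurel j hj1
          · have : j = i := by omega
            subst this
            simp only [le_refl, if_true, show ¬ (j + 1 ≤ j) by omega, if_false]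
            exact rel_of_backstep hx' hu

/-- power series as Laurent series. -/
noncomputable def iota : PowerSeries ℂ →ₐ[ℂ] LaurentSeries ℂ :=
  { HahnSeries.ofPowerSeries ℤ ℂ with commutes' := fun _ => rfl }

lemma iota_apply (x : PowerSeries ℂ) : iota x = HahnSeries.ofPowerSeries ℤ ℂ x := rfl

lemma iota_X : iota (PowerSeries.X : PowerSeries ℂ) = HahnSeries.single (1:ℤ) (1:ℂ) := by
  rw [iota_apply, HahnSeries.ofPowerSeries_X]

lemma transc_single : Transcendental ℂ (HahnSeries.single (1:ℤ) (1:ℂ) : LaurentSeries ℂ) := by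
  rw [transcendental_iff]
  intro p hp
  rw [← iota_X, Polynomial.aeval_algHom_apply] at hp
  have h2 : (Polynomial.aeval (PowerSeries.X : PowerSeries ℂ)) p = (p : PowerSeries ℂ) := by
    have h3 : (Polynomial.aeval (PowerSeries.X : PowerSeries ℂ)) = (Polynomial.coeToPowerSeries.algHom ℂ : ℂ[X] →ₐ[ℂ] PowerSeries ℂ) := by
      apply Polynomial.algHom_ext
      simp
    rw [h3]
    simp [Polynomial.coeToPowerSeries.algHom_apply]
  rw [h2] at hp
  have h4 : (p : PowerSeries ℂ) = 0 := by
    apply HahnSeries.ofPowerSeries_injective (Γ := ℤ)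
    rw [map_zero]
    exact hp
  exact_mod_cast h4

theorem special_of_hyp {e : ℕ → ℕ} {a b : ℕ → ℂ} {m : ℕ} (H : Hyp e a b (m + 1)) (hE : 2 ≤ e m) :
    Special e a b m := by
  have hdet := H.det m (by omega)
  obtain ⟨x, hx, hx0⟩ := backstep hdet (PowerSeries.X : PowerSeries ℂ) (by simp)
  rw [PowerSeries.constantCoeff_X] at hx0
  have h0 : ‖(0:ℂ)‖ < 1 := by simp
  have hne : PowerSeries.constantCoeff x ≠ 0 := by
    rw [hx0]
    apply num_ne hdet h0
    intro h
    have h1 : starRingEnd ℂ (a m) ≠ 0 := by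
      intro h2
      have h3 : a m = 0 := by simpa using h2
      have hlt := normSq_lt hdet
      rw [h3, norm_zero] at hlt
      exact absurd hlt (not_lt.2 (norm_nonneg _))
    exact div_ne_zero (H.bne m (by omega)) h1 h.symm
  have hn1 : ‖PowerSeries.constantCoeff x‖ < 1 := by rw [hx0]; exact moeb_norm hdet h0
  obtain ⟨u, hu, hurel⟩ := chain e a b m H hE x hne hn1
  have hlast : (algebraMap ℂ (LaurentSeries ℂ) (starRingEnd ℂ (b m)) * (iota (u m)) ^ (e m)
      + algebraMap ℂ (LaurentSeries ℂ) (starRingEnd ℂ (a m))) * HahnSeries.single (1:ℤ) (1:ℂ)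
    = algebraMap ℂ (LaurentSeries ℂ) (a m) * (iota (u m)) ^ (e m) + algebraMap ℂ (LaurentSeries ℂ) (b m) := by
    rw [← iota_X]
    simp only [← AlgHom.commutes iota, ← map_pow, ← map_mul, ← map_add]
    congr 1
    rw [hu]
    simp only [PowerSeries.algebraMap_apply, Algebra.algebraMap_self, RingHom.id_apply]
    linear_combination -hx
  have hrel : ∀ i < m, Rel (e i) (a i) (b i) (iota (u i)) (iota (u (i + 1))) := fun i hi => (hurel i hi).map iota
  refine ⟨fun i => iota (u i), ?_, hrel, hlast⟩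
  intro h
  have hall : ∀ i ≤ m, IsAlgebraic ℂ (iota (u i)) := by
    intro i
    induction i with
    | zero => intro _; exact h
    | succ i ih =>
      intro hi
      exact isAlgebraic_right (H.pos i (by omega)) (H.det i (by omega)) (hrel i (by omega)) (ih (by omega))
  have hm := (hall m le_rfl).pow (e m)
  have : Rel 1 (a m) (b m) ((iota (u m)) ^ (e m)) (HahnSeries.single (1:ℤ) (1:ℂ) : LaurentSeries ℂ) := by
    unfold Rel
    rw [pow_one, pow_one]
    exact hlast
  exact transc_single (isAlgebraic_right one_pos hdet this hm)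


lemma not_image {e : ℕ → ℕ} {a b : ℕ → ℂ} {N : ℕ} (H : Hyp e a b (N + 1)) (hE : 2 ≤ e N)
    {K : Type} [Field K] [Algebra ℂ K] (κ : ℕ → K)
    (huniv : ∀ (L : Type) [Field L] [Algebra ℂ L] (u : ℕ → L), Transcendental ℂ (u 0) →
        (∀ i < N, Rel (e i) (a i) (b i) (u i) (u (i + 1))) →
        ∃ σ : K →ₐ[ℂ] L, ∀ i ≤ N, σ (κ i) = u i) (y : K) :
    ¬ Rel (e N) (a N) (b N) (κ N) y := by
  intro h
  obtain ⟨u, hu0, hurel, hulast⟩ := special_of_hyp H hE
  obtain ⟨τ, hτ⟩ := huniv _ u hu0 hurel
  have h2 := h.map τ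
  rw [hτ N le_rfl] at h2
  unfold Rel at h2
  have hun : Transcendental ℂ (u N) := transc_all (fun i hi => H.pos i (by omega))
          (fun i hi => H.det i (by omega)) hu0 hurel N le_rfl
  have hD := den_ne (a := a N) (H.pos N (by omega)) (H.bne N (by omega)) hun
  have h3 : (τ y) ^ (e N) = (HahnSeries.single (1:ℤ) (1:ℂ)) ^ 1 := by
    rw [pow_one]
    apply mul_left_cancel₀ hD
    rw [h2, hulast]
  have h4 := laurent_pow h3
  have h5 : (e N) ∣ 1 := by exact_mod_cast h4
  have := Nat.le_of_dvd one_pos h5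
  omega

theorem no_return {e : ℕ → ℕ} {a b : ℕ → ℂ} {n : ℕ} (H : Hyp e a b n) (hn : 0 < n)
    {L : Type} [Field L] [Algebra ℂ L] (u : ℕ → L) (hu0 : Transcendental ℂ (u 0))
    (hrel : ∀ i < n, Rel (e i) (a i) (b i) (u i) (u (i + 1))) (c : ℂ) :
    u n ≠ algebraMap ℂ L c * u 0 := by
  intro hret
  have hs : ∀ m < n, e m = 1 ∨ Special e a b m := by
    intro m hm
    by_cases h1 : e m = 1
    · exact Or.inl h1
    · right
      have := H.pos m hm
      exact special_of_hyp (H.mono (by omega)) (by omega)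
  obtain ⟨N, rfl⟩ : ∃ k, n = k + 1 := ⟨n - 1, by omega⟩
  have hpos := H.pos N (by omega)
  by_cases h1 : e N = 1
  · have hlast := hrel N (by omega)
    unfold Rel at hlast
    rw [h1, pow_one, pow_one, hret] at hlast
    have hdet := det_ne (H.det N (by omega))
    have hdetL : algebraMap ℂ L (a N) * algebraMap ℂ L (starRingEnd ℂ (a N)) - algebraMap ℂ L (b N) * algebraMap ℂ L (starRingEnd ℂ (b N)) = 1 := by
      rw [← map_mul, ← map_mul, ← map_sub, hdet, map_one]
    rcases Nat.eq_zero_or_pos N with rfl | hN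
    · apply hu0
      refine ⟨C (starRingEnd ℂ (b 0) * c) * X ^ 2 + C (starRingEnd ℂ (a 0) * c - a 0) * X - C (b 0), ?_, ?_⟩
      · intro h0
        have := congrArg (fun p => Polynomial.coeff p 0) h0
        simp at this
        exact H.bne 0 (by omega) this
      · simp only [map_sub, map_add, map_mul, aeval_X, map_pow, aeval_C]
        linear_combination hlast
    · obtain ⟨M, rfl⟩ : ∃ k, N = k + 1 := ⟨N - 1, by omega⟩
      have hne : e M ≠ 1 := by
        rcases H.one M (by omega) with h | h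
        · exact h
        · exact absurd h1 h
      have hposM := H.pos M (by omega)
      have hEM : 2 ≤ e M := by omega
      obtain ⟨K, hK1, hK2, κ, hκ0, hκrel, hκuniv⟩ := exists_universal e a b M
        (fun i hi => H.pos i (by omega)) (fun i hi => H.bne i (by omega))
        (fun i hi => H.det i (by omega)) (fun m hm => hs m (by omega))
      obtain ⟨σ, hσ⟩ := hκuniv L u hu0 (fun i hi => hrel i (by omega))
      set cu : L := algebraMap ℂ L c * u 0 with hcu
      have hden : algebraMap ℂ L (starRingEnd ℂ (b (M + 1))) * cu - algebraMap ℂ L (a (M + 1)) ≠ 0 := by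
        intro h0
        have h2 : algebraMap ℂ L (b (M + 1)) - algebraMap ℂ L (starRingEnd ℂ (a (M + 1))) * cu = 0 := by
          linear_combination (u (M + 1)) * h0 - hlast
        have : (1 : L) = 0 := by
          rw [← hdetL]
          linear_combination (-(algebraMap ℂ L (starRingEnd ℂ (a (M + 1))))) * h0 - (algebraMap ℂ L (starRingEnd ℂ (b (M + 1)))) * h2
        exact one_ne_zero this
      set y : K := (algebraMap ℂ K (b (M + 1)) - algebraMap ℂ K (starRingEnd ℂ (a (M + 1))) * (algebraMap ℂ K c * κ 0)) /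
        (algebraMap ℂ K (starRingEnd ℂ (b (M + 1))) * (algebraMap ℂ K c * κ 0) - algebraMap ℂ K (a (M + 1))) with hy
      have hσy : σ y = u (M + 1) := by
        rw [hy, map_div₀]
        simp only [map_sub, map_mul, AlgHom.commutes, hσ 0 (Nat.zero_le _)]
        rw [← hcu, div_eq_iff hden]
        linear_combination -hlast
      have hrelM := hrel M (by omega)
      apply not_image (H.mono (by omega)) hEM κ hκuniv y
      unfold Rel at hrelM ⊢
      have hinj : ∀ x y : K, σ x = σ y → x = y := fun x y h => σ.injective h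
      apply hinj
      simp only [map_mul, map_add, map_pow, AlgHom.commutes, hσ M le_rfl, hσy]
      exact hrelM
  · have hE : 2 ≤ e N := by omega
    obtain ⟨K, hK1, hK2, κ, hκ0, hκrel, hκuniv⟩ := exists_universal e a b N
        (fun i hi => H.pos i (by omega)) (fun i hi => H.bne i (by omega))
        (fun i hi => H.det i (by omega)) (fun m hm => hs m (by omega))
    obtain ⟨σ, hσ⟩ := hκuniv L u hu0 (fun i hi => hrel i (by omega))
    have hrelN := hrel N (by omega)
    apply not_image H hE κ hκuniv (algebraMap ℂ K c * κ 0)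
    unfold Rel at hrelN ⊢
    have hinj : ∀ x y : K, σ x = σ y → x = y := fun x y h => σ.injective h
    apply hinj
    simp only [map_mul, map_add, map_pow, AlgHom.commutes, hσ N le_rfl, hσ 0 (Nat.zero_le _)]
    rw [← hret]
    simpa only [mul_pow] using hrelN


end Pool.Agent.Helper356.Amalg
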