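import Mathlib
import Pool.Agent.Helper356.Amalg2

set_option autoImplicit false

open Polynomial

namespace Pool.Agent.Helper356.Amalg

/-- multiplicative form of the defining relation of a lift of a Moebius map -/
def IsLift (n : ℕ) (a b : ℂ) (F : Circle → Circle) : Prop :=
  ∀ z : Circle, (starRingEnd ℂ b * (z : ℂ) ^ n + starRingEnd ℂ a) * ((F z : Circle) : ℂ) ^ n = a * (z : ℂ) ^ n + b

lemma circ_den_ne {a b : ℂ} (h : Complex.normSq a - Complex.normSq b = 1) (n : ℕ) (z : Circle) :
    starRingEnd ℂ b * (z : ℂ) ^ n + starRingEnd ℂ a ≠ 0 := by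
  intro h0
  have h1 : starRingEnd ℂ a = - (starRingEnd ℂ b * (z : ℂ) ^ n) := by linear_combination h0
  have h2 := congrArg norm h1
  rw [norm_neg, norm_mul, norm_pow, Circle.norm_coe, one_pow, mul_one, Complex.norm_conj, Complex.norm_conj] at h2
  have := normSq_lt h
  linarith

lemma isLift_iff {n : ℕ} {a b : ℂ} (h : Complex.normSq a - Complex.normSq b = 1) (F : Circle → Circle) :
    IsLift n a b F ↔ ∀ z : Circle, ((F z : Circle) : ℂ) ^ n =
            (a * (z : ℂ) ^ n + b) / ((starRingEnd ℂ) b * (z : ℂ) ^ n + (starRingEnd ℂ) a) := by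
  unfold IsLift
  refine forall_congr' fun z => ?_
  rw [eq_div_iff (circ_den_ne h n z), mul_comm]

/-- The set of lifts, as a predicate. -/
def InS (n : ℕ) (F : Equiv.Perm Circle) : Prop :=
  Continuous F ∧ ∃ a b : ℂ, Complex.normSq a - Complex.normSq b = 1 ∧ IsLift n a b F

def InR (F : Equiv.Perm Circle) : Prop := ∃ c : Circle, ∀ z : Circle, F z = c * z

lemma InR.inS {n : ℕ} {F : Equiv.Perm Circle} (h : InR F) : InS n F := by
  obtain ⟨c, hc⟩ := h
  have hF : (F : Circle → Circle) = fun z => c * z := funext hc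
  refine ⟨by rw [hF]; exact continuous_const.mul continuous_id, ?_⟩
  obtain ⟨t, ht⟩ := Circle.exp_surjective (c ^ n)
  refine ⟨(Circle.exp (t / 2) : Circle), 0, ?_, ?_⟩
  · rw [Circle.normSq_coe]; simp
  · intro z
    rw [hc z]
    have h1 : (c : ℂ) ^ n = (Circle.exp (t / 2) : ℂ) * (Circle.exp (t / 2) : ℂ) := by
      have : c ^ n = Circle.exp (t / 2) * Circle.exp (t / 2) := by
        rw [← Circle.exp_add, add_halves, ht]
      have := congrArg (fun w : Circle => (w : ℂ)) this
      simpa using this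
    have h2 : starRingEnd ℂ (Circle.exp (t / 2) : ℂ) * (Circle.exp (t / 2) : ℂ) = 1 := by
      rw [mul_comm, Complex.mul_conj, Circle.normSq_coe]
      simp
    rw [Circle.coe_mul, mul_pow, h1]
    simp only [map_zero, zero_mul, zero_add, add_zero]
    linear_combination ((Circle.exp (t / 2) : ℂ) * (z : ℂ) ^ n) * h2

lemma InS.one {n : ℕ} : InS n 1 := by
  refine ⟨continuous_id, 1, 0, by simp, ?_⟩
  intro z
  simp

lemma InS.mul {n : ℕ} {F G : Equiv.Perm Circle} (hF : InS n F) (hG : InS n G) : InS n (F * G) := by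
  obtain ⟨hFc, a, b, hab, hl⟩ := hF
  obtain ⟨hGc, a', b', hab', hl'⟩ := hG
  refine ⟨hFc.comp hGc, a * a' + b * starRingEnd ℂ b', a * b' + b * starRingEnd ℂ a', ?_, ?_⟩
  · have : Complex.normSq (a * a' + b * starRingEnd ℂ b') - Complex.normSq (a * b' + b * starRingEnd ℂ a')
        = (Complex.normSq a - Complex.normSq b) * (Complex.normSq a' - Complex.normSq b') := by
      simp only [Complex.normSq_apply, Complex.add_re, Complex.add_im, Complex.mul_re, Complex.mul_im,
        Complex.conj_re, Complex.conj_im]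
      ring
    rw [this, hab, hab', one_mul]
  · intro z
    have h1 := hl (G z)
    have h2 := hl' z
    have hD := circ_den_ne hab' n z
    have hFG : (F * G) z = F (G z) := rfl
    rw [hFG]
    apply mul_left_cancel₀ hD
    simp only [map_add, map_mul, Complex.conj_conj]
    set x := (z : ℂ) ^ n
    set w := ((G z : Circle) : ℂ) ^ n
    set y := ((F (G z) : Circle) : ℂ) ^ n
    have h3 : (starRingEnd ℂ b' * x + starRingEnd ℂ a') * ((starRingEnd ℂ b * w + starRingEnd ℂ a) * y) =
        (starRingEnd ℂ b' * x + starRingEnd ℂ a') * (a * w + b) := by rw [h1]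
    linear_combination (starRingEnd ℂ b' * x + starRingEnd ℂ a') * h3 - ((starRingEnd ℂ b' * x + starRingEnd ℂ a') * (starRingEnd ℂ b * y - a)) * h2

lemma InS.inv {n : ℕ} {F : Equiv.Perm Circle} (hF : InS n F) : InS n F⁻¹ := by
  obtain ⟨hFc, a, b, hab, hl⟩ := hF
  refine ⟨(Continuous.homeoOfEquivCompactToT2 (f := F) hFc).symm.continuous,
    starRingEnd ℂ a, -b, ?_, ?_⟩
  · rw [Complex.normSq_conj, Complex.normSq_neg]; exact hab
  · intro z
    have h1 := hl (F⁻¹ z)
    have h2 : F (F⁻¹ z) = z := Equiv.apply_symm_apply F z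
    rw [h2] at h1
    simp only [map_neg, Complex.conj_conj]
    linear_combination -h1

lemma closure_inS {n : ℕ} {T : Set (Equiv.Perm Circle)} (hT : ∀ F ∈ T, InS n F)
    {F : Equiv.Perm Circle} (hF : F ∈ Subgroup.closure T) : InS n F := by
  induction hF using Subgroup.closure_induction with
  | mem x hx => exact hT x hx
  | one => exact InS.one
  | mul x y _ _ hx hy => exact hx.mul hy
  | inv x _ hx => exact hx.inv

lemma closure_inR {T : Set (Equiv.Perm Circle)} (hT : ∀ F ∈ T, InR F)
    {F : Equiv.Perm Circle} (hF : F ∈ Subgroup.closure T) : InR F := by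
  induction hF using Subgroup.closure_induction with
  | mem x hx => exact hT x hx
  | one => exact ⟨1, fun z => by simp⟩
  | mul x y _ _ hx hy =>
    obtain ⟨c, hc⟩ := hx
    obtain ⟨d, hd⟩ := hy
    refine ⟨c * d, fun z => ?_⟩
    show x (y z) = _
    rw [hd, hc, mul_assoc]
  | inv x _ hx =>
    obtain ⟨c, hc⟩ := hx
    refine ⟨c⁻¹, fun z => ?_⟩
    have h1 := hc (x⁻¹ z)
    have h2 : x (x⁻¹ z) = z := Equiv.apply_symm_apply x z
    rw [h2] at h1
    rw [eq_inv_mul_iff_mul_eq]
    exact h1.symm

lemma preconnected_circle : IsPreconnected (Set.univ : Set Circle) := by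
  have h := isPreconnected_range (f := fun t : ℝ => Circle.exp t) Circle.exp.continuous
  rwa [Circle.exp_surjective.range_eq] at h

lemma inR_of_b_zero {n : ℕ} (hn : 0 < n) {F : Equiv.Perm Circle} (hF : Continuous F) {a : ℂ}
    (h : IsLift n a 0 F) (ha : a ≠ 0) : InR F := by
  have hconst : ∀ z : Circle, ((F z * z⁻¹ : Circle) : ℂ) ^ n = a / starRingEnd ℂ a := by
    intro z
    have h1 := h z
    have ha' : starRingEnd ℂ a ≠ 0 := by simpa using ha
    have hz : (z : ℂ) ≠ 0 := Circle.coe_ne_zero z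
    simp only [map_zero, zero_mul, zero_add, add_zero] at h1
    have hzn : (z : ℂ) ^ n ≠ 0 := pow_ne_zero _ hz
    rw [Circle.coe_mul, Circle.coe_inv, mul_pow, inv_pow, ← div_eq_mul_inv, div_eq_div_iff hzn ha']
    linear_combination h1
  set T : Set Circle := {w : Circle | (w : ℂ) ^ n = a / starRingEnd ℂ a} with hT
  have hTfin : T.Finite := by
    have hfin : {w : ℂ | w ^ n = a / starRingEnd ℂ a}.Finite := by
      have h2 : (X ^ n - C (a / starRingEnd ℂ a) : ℂ[X]) ≠ 0 := (monic_X_pow_sub_C _ hn.ne').ne_zero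
      refine (Polynomial.finite_setOfPred_isRoot h2).subset ?_
      intro w hw
      simp only [Set.mem_ofPred_eq, IsRoot, eval_sub, eval_pow, eval_X, eval_C] at hw ⊢
      rw [hw, sub_self]
    exact Set.Finite.preimage (Set.injOn_of_injective Circle.coe_injective) hfin
  have hcont : Continuous (fun z : Circle => F z * z⁻¹) := hF.mul continuous_inv
  have hq : ∀ z : Circle, F z * z⁻¹ = F 1 * 1⁻¹ := by
    intro z
    exact preconnected_circle.constant_of_mapsTo hTfin.isDiscrete hcont.continuousOn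
      (fun w _ => hconst w) (Set.mem_univ z) (Set.mem_univ 1)
  refine ⟨F 1 * 1⁻¹, fun z => ?_⟩
  rw [← hq z]
  rw [inv_mul_cancel_right]


section field

/-- functions on the circle with finite support -/
def finIdeal : Ideal (Circle → ℂ) where
  carrier := {f | {z | f z ≠ 0}.Finite}
  add_mem' := by
    intro f g hf hg
    refine (hf.union hg).subset ?_
    intro z hz
    by_contra h
    simp only [Set.mem_union, Set.mem_ofPred_eq, not_or, not_not] at h
    exact hz (by rw [Pi.add_apply, h.1, h.2, add_zero])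
  zero_mem' := by
    have : {z : Circle | (0 : Circle → ℂ) z ≠ 0} = ∅ := by
      ext z; simp
    show {z : Circle | (0 : Circle → ℂ) z ≠ 0}.Finite
    rw [this]; exact Set.finite_empty
  smul_mem' := by
    intro c f hf
    refine hf.subset ?_
    intro z hz h
    apply hz
    rw [smul_eq_mul, Pi.mul_apply]
    rw [h, mul_zero]

instance infinite_circle : Infinite Circle := by
  apply Set.infinite_univ_iff.1
  intro hfin
  have h1 : (Set.univ : Set Circle).Subsingleton := by
    intro x hx y hy
    exact preconnected_circle.constant_of_mapsTo hfin.isDiscrete continuousOn_id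
      (fun w _ => Set.mem_univ w) hx hy
  have h2 : (1 : Circle) = Circle.exp Real.pi := h1 (Set.mem_univ _) (Set.mem_univ _)
  have h3 := congrArg (fun w : Circle => (w : ℂ)) h2
  simp at h3
  norm_num at h3

lemma finIdeal_ne_top : finIdeal ≠ ⊤ := by
  intro h
  have h1 : (1 : Circle → ℂ) ∈ finIdeal := by rw [h]; trivial
  have h2 : {z : Circle | (1 : Circle → ℂ) z ≠ 0}.Finite := h1
  have h3 : {z : Circle | (1 : Circle → ℂ) z ≠ 0} = Set.univ := by
    ext z; simp
  rw [h3] at h2
  exact Set.infinite_univ h2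

lemma transc_mk {𝔪 : Ideal (Circle → ℂ)} (hm : 𝔪 ≠ ⊤) (hle : finIdeal ≤ 𝔪) {d : ℕ} (hd : 0 < d) :
    Transcendental ℂ (Ideal.Quotient.mk 𝔪 (fun z : Circle => (z : ℂ) ^ d)) := by
  rw [transcendental_iff]
  intro p hp
  by_contra hp0
  have h1 : aeval (Ideal.Quotient.mk 𝔪 (fun z : Circle => (z : ℂ) ^ d)) p =
      Ideal.Quotient.mk 𝔪 (aeval (fun z : Circle => (z : ℂ) ^ d) p) := by
    exact Polynomial.aeval_algHom_apply (Ideal.Quotient.mkₐ ℂ 𝔪) (fun z : Circle => (z : ℂ) ^ d) p
  rw [h1, Ideal.Quotient.eq_zero_iff_mem] at hp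
  set h : Circle → ℂ := aeval (fun z : Circle => (z : ℂ) ^ d) p with hh
  have hval : ∀ z : Circle, h z = p.eval ((z : ℂ) ^ d) := by
    intro z
    have h2 : h z = (Pi.evalAlgHom ℂ (fun _ : Circle => ℂ) z) h := rfl
    rw [h2, hh, ← Polynomial.aeval_algHom_apply]
    simp [Polynomial.aeval_def, Polynomial.eval₂_eq_eval_map]
  have hfin : {z : Circle | h z = 0}.Finite := by
    have h2 : (p.comp (X ^ d)) ≠ 0 := by
      intro h0
      rw [Polynomial.comp_eq_zero_iff] at h0
      rcases h0 with h0 | ⟨-, h0⟩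
      · exact hp0 h0
      · have := congrArg natDegree h0
        rw [natDegree_X_pow, natDegree_C] at this
        omega
    have h3 : {w : ℂ | (p.comp (X ^ d)).IsRoot w}.Finite := Polynomial.finite_setOfPred_isRoot h2
    refine (Set.Finite.preimage (Set.injOn_of_injective Circle.coe_injective) h3).subset ?_
    intro z hz
    have hz' : h z = 0 := hz
    show (p.comp (X ^ d)).IsRoot (z : ℂ)
    rw [IsRoot, eval_comp, eval_pow, eval_X, ← hval z, hz']
  classical
  let χ : Circle → ℂ := fun z => if h z = 0 then 1 else 0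
  have hχ : χ ∈ finIdeal := by
    show {z : Circle | χ z ≠ 0}.Finite
    refine hfin.subset ?_
    intro z hz
    by_contra h4
    apply hz
    have h5 : ¬ h z = 0 := h4
    simp [χ, h5]
  have hsum : h + χ ∈ 𝔪 := 𝔪.add_mem hp (hle hχ)
  have hunit : IsUnit (h + χ) := by
    rw [Pi.isUnit_iff]
    intro z
    rw [isUnit_iff_ne_zero, Pi.add_apply]
    by_cases h4 : h z = 0
    · simp [χ, h4]
    · simp [χ, h4]
  exact hm (Ideal.eq_top_of_isUnit_mem _ hsum hunit)

end field

section final

theorem no_relation {k l : ℕ} (hk : 0 < k) (hl : 0 < l) (hkl : k ≠ l) {n : ℕ} (hn : 0 < n)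
    (β : ℕ → Bool) (F : ℕ → Equiv.Perm Circle)
    (hF : ∀ i < n, InS (cond (β i) k l) (F i)) (hR : ∀ i < n, ¬ InR (F i))
    (halt : ∀ i, i + 1 < n → β i ≠ β (i + 1)) (z : ℕ → Circle → Circle)
    (hz0 : ∀ x, z 0 x = x) (hz : ∀ i < n, ∀ x, z (i + 1) x = F i (z i x)) (c : Circle)
    (hret : ∀ x, c * z n x = x) : False := by
  set d := Nat.gcd k l with hd
  have hdpos : 0 < d := Nat.gcd_pos_of_pos_left _ hk
  have hkd : d ∣ k := Nat.gcd_dvd_left _ _
  have hld : d ∣ l := Nat.gcd_dvd_right _ _
  have hchoose : ∀ i, ∃ ab : ℂ × ℂ, i < n → (Complex.normSq ab.1 - Complex.normSq ab.2 = 1 ∧ ab.2 ≠ 0 ∧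
      IsLift (cond (β i) k l) ab.1 ab.2 (F i)) := by
    intro i
    by_cases hi : i < n
    · obtain ⟨hc, a, b, hab, hlift⟩ := hF i hi
      refine ⟨(a, b), fun _ => ⟨hab, ?_, hlift⟩⟩
      intro hb0
      have hb0' : b = 0 := hb0
      subst hb0'
      have hpos : 0 < cond (β i) k l := by
        cases β i
        · exact hl
        · exact hk
      apply hR i hi
      refine inR_of_b_zero hpos hc hlift ?_
      rintro rfl
      simp at hab
    · exact ⟨(0, 0), fun h => absurd h hi⟩
  choose ab hab using hchoose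
  let e : ℕ → ℕ := fun i => (cond (β i) k l) / d
  have he : ∀ i, d * e i = cond (β i) k l := by
    intro i
    show d * ((cond (β i) k l) / d) = cond (β i) k l
    apply Nat.mul_div_cancel'
    cases β i
    · exact hld
    · exact hkd
  have hcop : Nat.Coprime (k / d) (l / d) := Nat.coprime_div_gcd_div_gcd hdpos
  have H : Hyp e (fun i => (ab i).1) (fun i => (ab i).2) n := by
    refine ⟨?_, fun i hi => (hab i hi).1, fun i hi => (hab i hi).2.1, ?_, ?_, ?_⟩
    · intro i _
      apply Nat.div_pos _ hdpos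
      cases β i
      · exact Nat.le_of_dvd hl hld
      · exact Nat.le_of_dvd hk hkd
    · intro i hi
      have := halt i hi
      show Nat.Coprime ((cond (β i) k l) / d) ((cond (β (i + 1)) k l) / d)
      cases h1 : β i with
      | false =>
        cases h2 : β (i + 1) with
        | false => exact absurd (h1.trans h2.symm) this
        | true => exact hcop.symm
      | true =>
        cases h2 : β (i + 1) with
        | false => exact hcop
        | true => exact absurd (h1.trans h2.symm) this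
    · intro i hi
      have h1 := halt i (by omega)
      have h2 := halt (i + 1) (by omega)
      show (cond (β (i + 2)) k l) / d = (cond (β i) k l) / d
      have : β (i + 2) = β i := by
        have h3 : β (i + 1) ≠ β (i + 2) := h2
        revert h1 h3
        cases β i <;> cases β (i + 1) <;> cases β (i + 2) <;> simp
      rw [this]
    · intro i hi
      have h1 := halt i (by omega)
      by_contra hcon
      push Not at hcon
      have h3 := he i
      have h4 := he (i + 1)
      rw [hcon.1] at h3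
      rw [hcon.2] at h4
      apply hkl
      revert h1 h3 h4
      cases β i <;> cases β (i + 1) <;> simp <;> intro h5 h6 <;> omega
  obtain ⟨𝔪, hmax, hle⟩ := Ideal.exists_le_maximal finIdeal finIdeal_ne_top
  let _ : Field ((Circle → ℂ) ⧸ 𝔪) := Ideal.Quotient.field 𝔪
  let u : ℕ → (Circle → ℂ) ⧸ 𝔪 := fun i => Ideal.Quotient.mk 𝔪 (fun x : Circle => ((z i x : Circle) : ℂ) ^ d)
  have hu0 : Transcendental ℂ (u 0) := by
    have h1 : u 0 = Ideal.Quotient.mk 𝔪 (fun x : Circle => (x : ℂ) ^ d) := by
      show Ideal.Quotient.mk 𝔪 (fun x : Circle => ((z 0 x : Circle) : ℂ) ^ d) = _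
      congr 1
      funext x
      rw [hz0]
    rw [h1]
    exact transc_mk hmax.ne_top hle hdpos
  have hrel : ∀ i < n, Rel (e i) ((ab i).1) ((ab i).2) (u i) (u (i + 1)) := by
    intro i hi
    have h1 := (hab i hi).2.2
    let 𝔮 : (Circle → ℂ) →ₐ[ℂ] (Circle → ℂ) ⧸ 𝔪 := Ideal.Quotient.mkₐ ℂ 𝔪
    have h2 : Rel (L := Circle → ℂ) (e i) ((ab i).1) ((ab i).2) (fun x : Circle => ((z i x : Circle) : ℂ) ^ d)
        (fun x : Circle => ((z (i + 1) x : Circle) : ℂ) ^ d) := by
      unfold Rel
      funext x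
      have h3 := h1 (z i x)
      rw [← hz i hi x, ← he i] at h3
      simp only [pow_mul] at h3
      exact h3
    exact h2.map 𝔮
  refine no_return H hn u hu0 hrel (((c⁻¹ : Circle) : ℂ) ^ d) ?_
  have h1 : (fun x : Circle => ((z n x : Circle) : ℂ) ^ d) =
      (((c⁻¹ : Circle) : ℂ) ^ d) • (fun x : Circle => ((z 0 x : Circle) : ℂ) ^ d) := by
    funext x
    have h2 : z n x = c⁻¹ * x := by
      rw [eq_inv_mul_iff_mul_eq]
      exact hret x
    rw [Pi.smul_apply, smul_eq_mul, hz0, h2, Circle.coe_mul, mul_pow]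
  have h2 := congrArg (Ideal.Quotient.mkₐ ℂ 𝔪) h1
  rw [map_smul, Algebra.smul_def] at h2
  exact h2

theorem main_injective :
    ∀ (k l : ℕ), 0 < k → 0 < l → k ≠ l →
    ∀ (S : ℕ → Set (Equiv.Perm Circle)),
      (∀ (n : ℕ) (F : Equiv.Perm Circle), F ∈ S n ↔
        (Continuous (⇑F) ∧ ∃ a b : ℂ, Complex.normSq a - Complex.normSq b = 1 ∧
          ∀ z : Circle, ((F z : Circle) : ℂ) ^ n =
            (a * (z : ℂ) ^ n + b) / ((starRingEnd ℂ) b * (z : ℂ) ^ n + (starRingEnd ℂ) a))) →
    ∀ (R : Set (Equiv.Perm Circle)),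
      (∀ F : Equiv.Perm Circle, F ∈ R ↔ ∃ c : Circle, ∀ z : Circle, F z = c * z) →
    Function.Injective
      (Monoid.PushoutI.lift
        (φ := fun i : Bool => Subgroup.inclusion
          (Subgroup.closure_mono (Set.subset_union_right : R ⊆ S (cond i k l) ∪ R)))
        (fun i : Bool => (Subgroup.closure (S (cond i k l) ∪ R)).subtype)
        (Subgroup.closure R).subtype
        (fun i => MonoidHom.ext fun x => rfl)) := by
  intro k l hk hl hkl S hS R hR
  have hSS : ∀ (n : ℕ) (F : Equiv.Perm Circle), F ∈ S n → InS n F := by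
    intro n F hF
    rw [hS] at hF
    obtain ⟨hc, a, b, hab, h⟩ := hF
    exact ⟨hc, a, b, hab, (isLift_iff hab F).2 h⟩
  have hRR : ∀ F : Equiv.Perm Circle, F ∈ R → InR F := fun F hF => (hR F).1 hF
  have hcl : ∀ (i : Bool) (F : Equiv.Perm Circle), F ∈ Subgroup.closure (S (cond i k l) ∪ R) →
      InS (cond i k l) F := by
    intro i F hF
    refine closure_inS ?_ hF
    rintro G (hG | hG)
    · exact hSS _ _ hG
    · exact (hRR _ hG).inS
  have hclR : ∀ F : Equiv.Perm Circle, F ∈ Subgroup.closure R → InR F := fun F hF => closure_inR hRR hF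
  set φ : ∀ i : Bool, Subgroup.closure R →* Subgroup.closure (S (cond i k l) ∪ R) :=
    fun i : Bool => Subgroup.inclusion
          (Subgroup.closure_mono (Set.subset_union_right : R ⊆ S (cond i k l) ∪ R)) with hφ
  have hφinj : ∀ i, Function.Injective (φ i) := fun i => Subgroup.inclusion_injective _
  rw [injective_iff_map_eq_one]
  intro x hx
  classical
  obtain ⟨d⟩ := Monoid.PushoutI.NormalWord.transversal_nonempty φ hφinj
  obtain ⟨w, rfl⟩ : ∃ w : Monoid.PushoutI.NormalWord d, w.prod = x :=
    ⟨Monoid.PushoutI.NormalWord.equiv x, Monoid.PushoutI.NormalWord.equiv.symm_apply_apply x⟩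
  set L := w.toWord.toList with hL
  have hprod : ((w.head : Subgroup.closure R) : Equiv.Perm Circle) *
      (L.map (fun g => ((g.2 : Subgroup.closure (S (cond g.1 k l) ∪ R)) : Equiv.Perm Circle))).prod = 1 := by
    rw [← hx, Monoid.PushoutI.NormalWord.prod, map_mul, Monoid.PushoutI.lift_base]
    congr 1
    rw [Monoid.CoprodI.Word.prod, map_list_prod, map_list_prod, List.map_map, List.map_map]
    congr 1
  have hnotR : ∀ g ∈ L, ¬ InR ((g.2 : Subgroup.closure (S (cond g.1 k l) ∪ R)) : Equiv.Perm Circle) := by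
    intro g hg hin
    have h1 : g.2 ∈ d.set g.1 := w.normalized g.1 g.2 hg
    have h2 : g.2 ≠ 1 := w.toWord.ne_one g hg
    have h3 : ((g.2 : Subgroup.closure (S (cond g.1 k l) ∪ R)) : Equiv.Perm Circle) ∈ Subgroup.closure R :=
      Subgroup.subset_closure ((hR _).2 hin)
    have h4 : g.2 ∈ (φ g.1).range := ⟨⟨_, h3⟩, rfl⟩
    have h5 := (d.compl g.1).1
    have h6 := @h5 (⟨g.2, h4⟩, ⟨1, d.one_mem g.1⟩) (⟨1, one_mem _⟩, ⟨g.2, h1⟩) (by simp)
    have h7 := congrArg (fun p => (p.2 : Subgroup.closure (S (cond g.1 k l) ∪ R))) h6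
    exact h2 h7.symm
  by_cases hLnil : L = []
  · rw [hLnil, List.map_nil, List.prod_nil, mul_one] at hprod
    have h1 : w.head = 1 := Subtype.ext hprod
    rw [Monoid.PushoutI.NormalWord.prod, h1, map_one, one_mul, Monoid.CoprodI.Word.prod, ← hL, hLnil]
    rfl
  · exfalso
    obtain ⟨c, hc⟩ := hclR _ w.head.2
    have hlen : 0 < L.length := List.length_pos_iff.2 hLnil
    have hidx : ∀ i, L.length - (i + 1) < L.length := fun i => by omega
    refine no_relation hk hl hkl hlen (fun i => (L[L.length - (i + 1)]'(hidx i)).1)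
      (fun i => ((L[L.length - (i + 1)]'(hidx i)).2 : Equiv.Perm Circle)) ?_ ?_ ?_
      (fun i x => ((L.drop (L.length - i)).map (fun g => ((g.2 : Subgroup.closure (S (cond g.1 k l) ∪ R)) : Equiv.Perm Circle))).prod x)
      ?_ ?_ c ?_
    · intro i _
      exact hcl _ _ (L[L.length - (i + 1)]'(hidx i)).2.2
    · intro i _
      exact hnotR _ (List.getElem_mem _)
    · intro i hi
      have h1 := List.isChain_iff_getElem.1 w.toWord.chain_ne (L.length - (i + 1 + 1)) (by
        rw [← hL]; omega)
      have h2 : L.length - (i + 1 + 1) + 1 = L.length - (i + 1) := by omega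
      intro h3
      apply h1
      simp only [← hL, h2]
      exact h3.symm
    · intro x
      simp
    · intro i hi x
      have h1 : L.drop (L.length - (i + 1)) = (L[L.length - (i + 1)]'(hidx i)) :: L.drop (L.length - i) := by
        rw [List.drop_eq_getElem_cons (hidx i)]
        congr 2
        omega
      simp only [h1, List.map_cons, List.prod_cons]
      rfl
    · intro x
      have h1 := congrArg (fun f : Equiv.Perm Circle => f x) hprod
      simp only [Equiv.Perm.mul_apply, hc, Equiv.Perm.one_apply] at h1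
      simpa using h1

end final

end Pool.Agent.Helper356.Amalg
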