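import Mathlib

set_option autoImplicit false

open Set Filter Topology

namespace Pool.Agent.Helper356.Circ

/-- zero set of a non zero analytic function is countable -/
lemma countable_zeros {f : ℝ → ℝ} (hf : ∀ x, AnalyticAt ℝ f x) (h0 : ∃ x, f x ≠ 0) :
    {x | f x = 0}.Countable := by
  have hf' : AnalyticOnNhd ℝ f univ := fun x _ => hf x
  rcases hf'.eqOn_zero_or_eventually_ne_zero_of_preconnected isPreconnected_univ with h | h
  · obtain ⟨x, hx⟩ := h0
    exact absurd (h (mem_univ x)) hx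
  · have h2 : ({x | f x = 0} ∩ univ).Countable := by
      apply (HereditarilyLindelofSpace.isLindelof _).countable_of_isDiscrete
        (isDiscrete_of_codiscreteWithin (U := univ) ?_)
      filter_upwards [h] with x hx
      exact hx
    simpa using h2

/-- A jointly analytic family of increasing functions has a jointly analytic inverse. -/
theorem family_inverse (G : ℝ → ℝ → ℝ) (hG : ∀ p : ℝ × ℝ, AnalyticAt ℝ (fun p : ℝ × ℝ => G p.1 p.2) p)
    (c : ℝ) (hc : 0 < c) (hder : ∀ s z, c ≤ deriv (G s) z) :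
    ∃ g : ℝ → Equiv.Perm ℝ, (∀ s z, g s z = G s z) ∧ (∀ s, StrictMono (g s)) ∧
      (∀ p : ℝ × ℝ, AnalyticAt ℝ (fun p : ℝ × ℝ => (g p.1).symm p.2) p) := by
  have han : ∀ s z, AnalyticAt ℝ (G s) z := by
    intro s z
    have h1 : AnalyticAt ℝ (fun z : ℝ => ((s, z) : ℝ × ℝ)) z := analyticAt_const.prod analyticAt_id
    exact (hG (s, z)).comp h1
  have hdiff : ∀ s, Differentiable ℝ (G s) := fun s z => (han s z).differentiableAt
  have hmono : ∀ s, StrictMono (G s) := fun s => strictMono_of_deriv_pos fun z => lt_of_lt_of_le hc (hder s z)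
  have hsurj : ∀ s, Function.Surjective (G s) := by
    intro s
    apply Continuous.surjective (hdiff s).continuous
    · refine tendsto_atTop_mono' atTop (f₁ := fun z => c * z + G s 0) ?_ ?_
      · filter_upwards [eventually_ge_atTop 0] with z hz
        have := mul_sub_le_image_sub_of_le_deriv (hdiff s) (hder s) hz
        simp only [sub_zero] at this
        linarith
      · exact tendsto_atTop_add_const_right _ _ (tendsto_id.const_mul_atTop hc)
    · refine tendsto_atBot_mono' atBot (f₁ := fun z => c * z + G s 0) ?_ ?_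
      · filter_upwards [eventually_le_atBot 0] with z hz
        have := mul_sub_le_image_sub_of_le_deriv (hdiff s) (hder s) hz
        simp only [zero_sub] at this
        linarith
      · exact tendsto_atBot_add_const_right _ _ (tendsto_id.const_mul_atBot hc)
  refine ⟨fun s => Equiv.ofBijective (G s) ⟨(hmono s).injective, hsurj s⟩, fun s z => rfl, fun s => hmono s, ?_⟩
  intro p
  set g : ℝ → Equiv.Perm ℝ := fun s => Equiv.ofBijective (G s) ⟨(hmono s).injective, hsurj s⟩ with hg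
  have hgapp : ∀ s z, g s z = G s z := fun s z => rfl
  set Φ : ℝ × ℝ → ℝ × ℝ := fun p => (p.1, G p.1 p.2) with hΦ
  set Ψ : ℝ × ℝ → ℝ × ℝ := fun p => (p.1, (g p.1).symm p.2) with hΨ
  have hΨΦ : ∀ q, Ψ (Φ q) = q := by
    intro q
    simp only [hΨ, hΦ]
    rw [← hgapp, Equiv.symm_apply_apply]
  have hΦΨ : ∀ q, Φ (Ψ q) = q := by
    intro q
    simp only [hΨ, hΦ]
    rw [← hgapp, Equiv.apply_symm_apply]
  set a := Ψ p with ha
  have hΦa : AnalyticAt ℝ Φ a := analyticAt_fst.prod (hG a)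
  have hstrict : HasStrictFDerivAt Φ (fderiv ℝ Φ a) a := hΦa.hasStrictFDerivAt
  set D := fderiv ℝ Φ a with hD
  have hfst : ∀ v, (D v).1 = v.1 := by
    intro v
    have h1 : HasFDerivAt (fun q => (Φ q).1) ((ContinuousLinearMap.fst ℝ ℝ ℝ).comp D) a :=
      hstrict.hasFDerivAt.fst
    have h2 : HasFDerivAt (fun q : ℝ × ℝ => q.1) (ContinuousLinearMap.fst ℝ ℝ ℝ) a :=
      (ContinuousLinearMap.fst ℝ ℝ ℝ).hasFDerivAt
    have h3 := h1.unique h2
    have h4 := congrArg (fun L => L v) h3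
    simpa using h4
  have hsnd : ∀ t : ℝ, (D (0, t)).2 = deriv (G a.1) a.2 * t := by
    intro t
    have h1 : HasFDerivAt (fun q => (Φ q).2) ((ContinuousLinearMap.snd ℝ ℝ ℝ).comp D) a :=
      hstrict.hasFDerivAt.snd
    have h2 : HasDerivAt (fun z : ℝ => ((a.1, z) : ℝ × ℝ)) ((0, 1) : ℝ × ℝ) a.2 :=
      (hasDerivAt_const a.2 a.1).prodMk (hasDerivAt_id a.2)
    have h3 : HasDerivAt (fun z : ℝ => (Φ (a.1, z)).2) (((ContinuousLinearMap.snd ℝ ℝ ℝ).comp D) (0, 1)) a.2 :=
      HasFDerivAt.comp_hasDerivAt (x := a.2) (l := fun q => (Φ q).2) (f := fun z : ℝ => ((a.1, z) : ℝ × ℝ)) h1 h2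
    have h4 : deriv (G a.1) a.2 = (D (0, 1)).2 := h3.deriv
    have h5 : ((0, t) : ℝ × ℝ) = t • ((0, 1) : ℝ × ℝ) := by simp
    rw [h5, map_smul, Prod.smul_snd, ← h4, smul_eq_mul, mul_comm]
  have hinj : Function.Injective D := by
    rw [injective_iff_map_eq_zero]
    rintro ⟨v1, v2⟩ hv
    have h1 := hfst (v1, v2)
    rw [hv] at h1
    have hv1 : v1 = 0 := h1.symm
    subst hv1
    have h2 := hsnd v2
    rw [hv] at h2
    have h3 : deriv (G a.1) a.2 * v2 = 0 := h2.symm
    rcases mul_eq_zero.1 h3 with h4 | h4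
    · exact absurd h4 (lt_of_lt_of_le hc (hder _ _)).ne'
    · rw [h4]; rfl
  let e : (ℝ × ℝ) ≃ₗ[ℝ] (ℝ × ℝ) := LinearEquiv.ofInjectiveEndo (D : (ℝ × ℝ) →ₗ[ℝ] (ℝ × ℝ)) hinj
  let i : (ℝ × ℝ) ≃L[ℝ] (ℝ × ℝ) := e.toContinuousLinearEquiv
  have hi : (i : (ℝ × ℝ) →L[ℝ] (ℝ × ℝ)) = D := by
    ext <;> rfl
  have hstrict' : HasStrictFDerivAt Φ (i : (ℝ × ℝ) →L[ℝ] (ℝ × ℝ)) a := by rw [hi]; exact hstrict
  let Rr := hstrict'.toOpenPartialHomeomorph Φ
  have haR : a ∈ Rr.source := HasStrictFDerivAt.mem_toOpenPartialHomeomorph_source _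
  have hRan : AnalyticAt ℝ Rr.symm (Rr a) :=
    Rr.analyticAt_symm' (i := i) haR hΦa (by rw [hi]; rfl)
  have hRa : Rr a = p := hΦΨ p
  rw [hRa] at hRan
  have heq : Rr.symm =ᶠ[𝓝 p] Ψ := by
    have htar : Rr.target ∈ 𝓝 p := by
      apply Rr.open_target.mem_nhds
      rw [← hRa]
      exact Rr.map_source haR
    filter_upwards [htar] with q hq
    have h1 : Φ (Rr.symm q) = q := Rr.right_inv hq
    rw [← h1, hΨΦ, h1]
  have hΨan : AnalyticAt ℝ Ψ p := hRan.congr heq
  exact (analyticAt_snd (p := Ψ p)).comp hΨan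


/-- lifts to the line of orientation preserving analytic diffeomorphisms of the circle -/
structure IsA (f : Equiv.Perm ℝ) : Prop where
  an : ∀ x, AnalyticAt ℝ f x
  an' : ∀ x, AnalyticAt ℝ f.symm x
  per : ∀ x, f (x + 2 * Real.pi) = f x + 2 * Real.pi
  mono : StrictMono f

lemma IsA.one : IsA 1 := ⟨fun _ => analyticAt_id, fun _ => analyticAt_id, fun _ => rfl, strictMono_id⟩

lemma IsA.mul {f g : Equiv.Perm ℝ} (hf : IsA f) (hg : IsA g) : IsA (f * g) where
  an x := (hf.an (g x)).comp (hg.an x)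
  an' x := (hg.an' (f.symm x)).comp (hf.an' x)
  per x := by
    show f (g (x + 2 * Real.pi)) = f (g x) + 2 * Real.pi
    rw [hg.per, hf.per]
  mono := hf.mono.comp hg.mono

lemma IsA.inv {f : Equiv.Perm ℝ} (hf : IsA f) : IsA f⁻¹ where
  an := hf.an'
  an' := hf.an
  per x := by
    show f.symm (x + 2 * Real.pi) = f.symm x + 2 * Real.pi
    rw [Equiv.symm_apply_eq, hf.per, Equiv.apply_symm_apply]
  mono := by
    intro x y hxy
    show f.symm x < f.symm y
    rw [← hf.mono.lt_iff_lt, Equiv.apply_symm_apply, Equiv.apply_symm_apply]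
    exact hxy

/-- the group of all such lifts -/
def AA : Subgroup (Equiv.Perm ℝ) where
  carrier := {f | IsA f}
  mul_mem' := fun ha hb => IsA.mul ha hb
  one_mem' := IsA.one
  inv_mem' := fun ha => IsA.inv ha

lemma mem_AA {f : Equiv.Perm ℝ} : f ∈ AA ↔ IsA f := Iff.rfl

/-- small entire periodic functions -/
structure GoodW (ε : ℝ) (W : ℂ → ℂ) : Prop where
  diff : Differentiable ℂ W
  per : ∀ z, W (z + 2 * Real.pi) = W z
  bd : ∀ z, ‖W z‖ ≤ ε * Real.exp (z.im ^ 2)

lemma GoodW.deriv_le {ε : ℝ} {W : ℂ → ℂ} (h : GoodW ε W) (hε : 0 ≤ ε) (t : ℝ) :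
    ‖deriv W t‖ ≤ ε * Real.exp 1 := by
  have h1 := Complex.norm_deriv_le_of_forall_mem_sphere_norm_le (c := (t : ℂ)) (R := 1)
    (C := ε * Real.exp 1) (f := W) one_pos h.diff.diffContOnCl (by
      intro z hz
      refine (h.bd z).trans ?_
      apply mul_le_mul_of_nonneg_left _ hε
      apply Real.exp_le_exp.2
      have h2 : |z.im| ≤ 1 := by
        have h3 : ‖z - t‖ = 1 := by simpa using hz
        have h4 := Complex.abs_im_le_norm (z - t)
        rw [h3, Complex.sub_im, Complex.ofReal_im, sub_zero] at h4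
        exact h4
      nlinarith [abs_nonneg z.im, sq_abs z.im])
  simpa using h1

/-- a base function -/
structure Base (h : ℝ → ℝ) (c ε : ℝ) : Prop where
  an : ∀ x, AnalyticAt ℝ h x
  per : ∀ x, h (x + 2 * Real.pi) = h x + 2 * Real.pi
  cpos : 0 < c
  der : ∀ x, c ≤ deriv h x
  eps : 0 < ε
  small : ε * Real.exp 1 ≤ c / 2

lemma analyticAt_re_of_diff {W : ℂ → ℂ} (hW : Differentiable ℂ W) (x : ℝ) :
    AnalyticAt ℝ (fun t : ℝ => (W t).re) x := by
  have h1 : AnalyticAt ℂ W (x : ℂ) := hW.analyticAt _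
  have h2 : AnalyticAt ℝ W (x : ℂ) := h1.restrictScalars
  have h3 : AnalyticAt ℝ (fun t : ℝ => (t : ℂ)) x := Complex.ofRealCLM.analyticAt x
  have h4 : AnalyticAt ℝ (fun t : ℝ => W (t : ℂ)) x := h2.comp h3
  exact (Complex.reCLM.analyticAt _).comp h4

lemma Base.deriv_add {h : ℝ → ℝ} {c ε : ℝ} (B : Base h c ε) {W : ℂ → ℂ} (hW : GoodW ε W) (x : ℝ) :
    c / 2 ≤ deriv (fun t : ℝ => h t + (W t).re) x := by
  have h1 : HasDerivAt (fun t : ℝ => (W t).re) (deriv W x).re x :=
    ((hW.diff (x : ℂ)).hasDerivAt).real_of_complex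
  have h2 : HasDerivAt h (deriv h x) x := (B.an x).differentiableAt.hasDerivAt
  have h2' : HasDerivAt (fun t : ℝ => h t + (W t).re) (deriv h x + (deriv W x).re) x := h2.add h1
  rw [h2'.deriv]
  have h3 := hW.deriv_le B.eps.le x
  have h4 := (abs_le.1 ((Complex.abs_re_le_norm (deriv W x)).trans h3)).1
  have h5 := B.der x
  have h6 := B.small
  linarith

lemma Base.perm {h : ℝ → ℝ} {c ε : ℝ} (B : Base h c ε) {W : ℂ → ℂ} (hW : GoodW ε W) :
    ∃ f : Equiv.Perm ℝ, IsA f ∧ ∀ t : ℝ, f t = h t + (W t).re := by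
  have hc2 : 0 < c / 2 := by have := B.cpos; linarith
  obtain ⟨g, hg1, hg2, hg3⟩ := family_inverse (fun _ t => h t + (W t).re) (by
    intro p
    have h1 : AnalyticAt ℝ (fun t : ℝ => h t + (W t).re) p.2 := (B.an p.2).add (analyticAt_re_of_diff hW.diff p.2)
    exact h1.comp analyticAt_snd) (c / 2) hc2 (fun _ z => B.deriv_add hW z)
  refine ⟨g 0, ⟨?_, ?_, ?_, hg2 0⟩, fun t => hg1 0 t⟩
  · intro x
    have h1 : AnalyticAt ℝ (fun t : ℝ => h t + (W t).re) x := (B.an x).add (analyticAt_re_of_diff hW.diff x)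
    have h2 : (g 0 : ℝ → ℝ) = fun t : ℝ => h t + (W t).re := funext fun t => hg1 0 t
    rw [h2]; exact h1
  · intro x
    have h1 : AnalyticAt ℝ (fun v : ℝ => (((0 : ℝ), v) : ℝ × ℝ)) x := analyticAt_const.prod analyticAt_id
    exact (hg3 (0, x)).comp h1
  · intro x
    rw [hg1, hg1, B.per]
    have : W ((x + 2 * Real.pi : ℝ) : ℂ) = W x := by
      rw [← hW.per x]; congr 1; push_cast; ring
    rw [this]; ring

/-- products of 1 - cos (z - a) -/
noncomputable def phi (A : Finset ℝ) (z : ℂ) : ℂ := ∏ a ∈ A, (1 - Complex.cos (z - a))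

lemma phi_diff (A : Finset ℝ) : Differentiable ℂ (phi A) := by
  unfold phi
  apply Differentiable.fun_finsetProd
  intro a _
  exact (differentiable_const _).sub (Complex.differentiable_cos.comp (differentiable_id.sub (differentiable_const _)))

lemma phi_per (A : Finset ℝ) (z : ℂ) : phi A (z + 2 * Real.pi) = phi A z := by
  unfold phi
  apply Finset.prod_congr rfl
  intro a _
  rw [show z + 2 * (Real.pi : ℂ) - a = (z - a) + 2 * Real.pi by ring, Complex.cos_add_two_pi]

lemma norm_cos_le (w : ℂ) : ‖Complex.cos w‖ ≤ Real.exp |w.im| := by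
  rw [Complex.cos, norm_div]
  have h1 : ‖Complex.exp (w * Complex.I)‖ ≤ Real.exp |w.im| := by
    rw [Complex.norm_exp]
    apply Real.exp_le_exp.2
    simp only [Complex.mul_re, Complex.I_re, mul_zero, Complex.I_im, mul_one, zero_sub]
    exact neg_le_abs _
  have h2 : ‖Complex.exp (-w * Complex.I)‖ ≤ Real.exp |w.im| := by
    rw [Complex.norm_exp]
    apply Real.exp_le_exp.2
    simp only [Complex.mul_re, Complex.neg_re, Complex.I_re, mul_zero, Complex.neg_im, Complex.I_im, mul_one, zero_sub, neg_neg]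
    exact le_abs_self _
  have h3 : ‖(2 : ℂ)‖ = 2 := by simp
  rw [h3, div_le_iff₀ two_pos]
  calc _ ≤ ‖Complex.exp (w * Complex.I)‖ + ‖Complex.exp (-w * Complex.I)‖ := norm_add_le _ _
    _ ≤ Real.exp |w.im| * 2 := by linarith

lemma phi_bound (A : Finset ℝ) : ∃ K : ℝ, 0 < K ∧ ∀ z, ‖phi A z‖ ≤ K * Real.exp (z.im ^ 2) := by
  refine ⟨2 ^ A.card * Real.exp ((A.card : ℝ) ^ 2 / 4), by positivity, ?_⟩
  intro z
  have h1 : ‖phi A z‖ ≤ (2 * Real.exp |z.im|) ^ A.card := by
    unfold phi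
    rw [norm_prod, ← Finset.prod_const]
    apply Finset.prod_le_prod (fun _ _ => norm_nonneg _)
    intro a _
    calc ‖1 - Complex.cos (z - a)‖ ≤ ‖(1 : ℂ)‖ + ‖Complex.cos (z - a)‖ := norm_sub_le _ _
      _ ≤ 1 + Real.exp |z.im| := by
        have := norm_cos_le (z - a)
        simp only [Complex.sub_im, Complex.ofReal_im, sub_zero] at this
        rw [norm_one]; linarith
      _ ≤ 2 * Real.exp |z.im| := by
        have := Real.one_le_exp (abs_nonneg z.im)
        linarith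
  refine h1.trans ?_
  rw [mul_pow, ← Real.exp_nat_mul, mul_assoc, ← Real.exp_add]
  apply mul_le_mul_of_nonneg_left _ (by positivity)
  apply Real.exp_le_exp.2
  have h2 := sq_abs z.im
  nlinarith [sq_nonneg ((A.card : ℝ) / 2 - |z.im|)]

lemma phi_real (A : Finset ℝ) (t : ℝ) : phi A t = ((∏ a ∈ A, (1 - Real.cos (t - a)) : ℝ) : ℂ) := by
  unfold phi
  push_cast
  rfl

lemma phi_zero {A : Finset ℝ} {a : ℝ} (ha : a ∈ A) : phi A a = 0 := by
  unfold phi
  apply Finset.prod_eq_zero ha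
  simp

lemma phi_ne {A : Finset ℝ} {t : ℝ} (ht : ∀ a ∈ A, ∀ m : ℤ, t ≠ a + m * (2 * Real.pi)) : (phi A t).re ≠ 0 := by
  rw [phi_real, Complex.ofReal_re, Finset.prod_ne_zero_iff]
  intro a ha h0
  have h1 : Real.cos (t - a) = 1 := by linarith
  rw [Real.cos_eq_one_iff] at h1
  obtain ⟨m, hm⟩ := h1
  exact ht a ha m (by linarith)


lemma IsA.deriv_pos {f : Equiv.Perm ℝ} (hf : IsA f) (x : ℝ) : 0 < deriv f x := by
  have h1 : HasDerivAt f (deriv f x) x := (hf.an x).differentiableAt.hasDerivAt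
  have h2 : HasDerivAt f.symm (deriv f.symm (f x)) (f x) := (hf.an' (f x)).differentiableAt.hasDerivAt
  have h3 : HasDerivAt (f.symm ∘ f) (deriv f.symm (f x) * deriv f x) x := h2.comp x h1
  have h4 : (f.symm ∘ f : ℝ → ℝ) = id := by funext y; simp
  rw [h4] at h3
  have h5 := h3.unique (hasDerivAt_id x)
  have h6 : 0 ≤ deriv f x := hf.mono.monotone.deriv_nonneg
  rcases h6.eq_or_lt with h7 | h7
  · rw [← h7, mul_zero] at h5
    exact absurd h5 zero_ne_one
  · exact h7

lemma IsA.base {f : Equiv.Perm ℝ} (hf : IsA f) : ∃ c ε, Base f c ε := by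
  have hcont : Continuous (deriv f) := by
    rw [continuous_iff_continuousAt]
    intro x
    exact (hf.an x).deriv.continuousAt
  obtain ⟨x0, hx0, hmin⟩ := isCompact_Icc.exists_isMinOn (s := Icc 0 (2 * Real.pi))
    (nonempty_Icc.2 (by positivity)) hcont.continuousOn
  have hper : Function.Periodic (deriv f) (2 * Real.pi) := by
    intro x
    have h1 : (fun y => f (y + 2 * Real.pi)) = fun y => f y + 2 * Real.pi := funext hf.per
    have h2 := congrArg (fun g => deriv g x) h1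
    simp only [deriv_comp_add_const, deriv_add_const] at h2
    exact h2
  refine ⟨deriv f x0, deriv f x0 / 2 * Real.exp (-1), hf.an, hf.per, hf.deriv_pos x0, ?_, ?_, ?_⟩
  · intro x
    obtain ⟨y, hy, hxy⟩ := hper.exists_mem_Ico₀ (by positivity) x
    rw [hxy]
    exact hmin ⟨hy.1, hy.2.le⟩
  · have := hf.deriv_pos x0
    positivity
  · rw [mul_assoc, ← Real.exp_add]
    simp

/-- cyclically ordered tuples, as lifts to the line -/
def Cfg (n : ℕ) : Set (Fin n → ℝ) := {t | StrictMono t ∧ ∀ i j, t j < t i + 2 * Real.pi}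

lemma cfg_convex (n : ℕ) : Convex ℝ (Cfg n) := by
  intro t ht t' ht' a b ha hb hab
  refine ⟨?_, ?_⟩
  · intro i j hij
    have h1 := ht.1 hij
    have h2 := ht'.1 hij
    simp only [Pi.add_apply, Pi.smul_apply, smul_eq_mul]
    rcases ha.eq_or_lt with h3 | h3
    · have hb1 : b = 1 := by linarith
      rw [← h3, hb1]; linarith
    · nlinarith
  · intro i j
    have h1 := ht.2 i j
    have h2 := ht'.2 i j
    simp only [Pi.add_apply, Pi.smul_apply, smul_eq_mul]
    rcases ha.eq_or_lt with h3 | h3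
    · have hb1 : b = 1 := by linarith
      rw [← h3, hb1]; linarith
    · have h4 : b = 1 - a := by linarith
      subst h4
      nlinarith

lemma cfg_ne {n : ℕ} {t : Fin n → ℝ} (ht : t ∈ Cfg n) {i j : Fin n} (hij : i ≠ j) (m : ℤ) :
    t j ≠ t i + m * (2 * Real.pi) := by
  intro h
  have hpi := Real.pi_pos
  rcases lt_trichotomy m 0 with hm | hm | hm
  · have h1 := ht.2 j i
    have h2 : (m : ℝ) ≤ -1 := by exact_mod_cast (by omega : m ≤ -1)
    nlinarith
  · rw [hm] at h
    simp only [Int.cast_zero, zero_mul, add_zero] at h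
    exact hij (ht.1.injective h.symm)
  · have h1 := ht.2 i j
    have h2 : (1 : ℝ) ≤ m := by exact_mod_cast (by omega : 1 ≤ m)
    nlinarith

lemma goodW_zero {ε : ℝ} (hε : 0 ≤ ε) : GoodW ε (fun _ => 0) where
  diff := differentiable_const _
  per := fun _ => rfl
  bd := fun z => by rw [norm_zero]; positivity

lemma local_trans {n : ℕ} {a : Fin n → ℝ} (ha : a ∈ Cfg n) :
    ∀ᶠ b in 𝓝[Cfg n] a, ∃ f : Equiv.Perm ℝ, IsA f ∧ ∀ i, f (a i) = b i := by
  classical
  let A : Fin n → Finset ℝ := fun j => (Finset.univ.erase j).image a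
  have hne : ∀ j, phi (A j) (a j) ≠ 0 := by
    intro j h0
    refine phi_ne (A := A j) (t := a j) ?_ (by rw [h0]; rfl)
    intro a' ha' m
    obtain ⟨i, hi, rfl⟩ := Finset.mem_image.1 ha'
    exact cfg_ne ha (Finset.ne_of_mem_erase hi) m
  choose K hK0 hK using fun j => phi_bound (A j)
  have hB : Base (fun t : ℝ => t) 1 (1 / 2 * Real.exp (-1)) := by
    refine ⟨fun _ => analyticAt_id, fun _ => rfl, one_pos, ?_, by positivity, ?_⟩
    · intro x
      have : deriv (fun t : ℝ => t) x = 1 := deriv_id x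
      rw [this]
    · rw [mul_assoc, ← Real.exp_add]
      simp
  have hcont : Continuous (fun b : Fin n → ℝ => ∑ j, |b j - a j| * (K j / ‖phi (A j) (a j)‖)) := by
    fun_prop
  have hev : ∀ᶠ b in 𝓝 a, (∑ j, |b j - a j| * (K j / ‖phi (A j) (a j)‖)) < 1 / 2 * Real.exp (-1) := by
    apply (hcont.tendsto a).eventually_lt_const
    simp only [sub_self, abs_zero, zero_mul, Finset.sum_const_zero]
    positivity
  filter_upwards [mem_nhdsWithin_of_mem_nhds hev] with b hb
  let W : ℂ → ℂ := fun z => ∑ j, (((b j - a j : ℝ) : ℂ) / phi (A j) (a j)) * phi (A j) z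
  have hW : GoodW (1 / 2 * Real.exp (-1)) W := by
    refine ⟨?_, ?_, ?_⟩
    · apply Differentiable.fun_sum
      intro j _
      exact (differentiable_const _).mul (phi_diff _)
    · intro z
      show ∑ j, _ = ∑ j, _
      apply Finset.sum_congr rfl
      intro j _
      rw [phi_per]
    · intro z
      calc ‖W z‖ ≤ ∑ j, ‖(((b j - a j : ℝ) : ℂ) / phi (A j) (a j)) * phi (A j) z‖ := norm_sum_le _ _
        _ ≤ ∑ j, (|b j - a j| * (K j / ‖phi (A j) (a j)‖)) * Real.exp (z.im ^ 2) := by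
          apply Finset.sum_le_sum
          intro j _
          rw [norm_mul, norm_div, Complex.norm_real, Real.norm_eq_abs]
          have h1 := hK j z
          have h2 : 0 < ‖phi (A j) (a j)‖ := norm_pos_iff.2 (hne j)
          calc |b j - a j| / ‖phi (A j) (a j)‖ * ‖phi (A j) z‖ ≤
              |b j - a j| / ‖phi (A j) (a j)‖ * (K j * Real.exp (z.im ^ 2)) := by
                apply mul_le_mul_of_nonneg_left h1 (by positivity)
            _ = (|b j - a j| * (K j / ‖phi (A j) (a j)‖)) * Real.exp (z.im ^ 2) := by ring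
        _ = (∑ j, (|b j - a j| * (K j / ‖phi (A j) (a j)‖))) * Real.exp (z.im ^ 2) := by
          rw [Finset.sum_mul]
        _ ≤ (1 / 2 * Real.exp (-1)) * Real.exp (z.im ^ 2) := by
          apply mul_le_mul_of_nonneg_right hb.le (Real.exp_pos _).le
  obtain ⟨f, hf, hfv⟩ := hB.perm hW
  refine ⟨f, hf, fun i => ?_⟩
  rw [hfv]
  have h1 : W (a i) = ((b i - a i : ℝ) : ℂ) := by
    show ∑ j, (((b j - a j : ℝ) : ℂ) / phi (A j) (a j)) * phi (A j) (a i) = _
    rw [Finset.sum_eq_single i]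
    · rw [div_mul_cancel₀ _ (hne i)]
    · intro j _ hj
      have : a i ∈ A j := Finset.mem_image.2 ⟨i, Finset.mem_erase.2 ⟨hj.symm, Finset.mem_univ _⟩, rfl⟩
      rw [phi_zero this, mul_zero]
    · intro h; exact absurd (Finset.mem_univ _) h
  rw [h1, Complex.ofReal_re]
  ring

theorem trans_cfg {n : ℕ} {x y : Fin n → ℝ} (hx : x ∈ Cfg n) (hy : y ∈ Cfg n) :
    ∃ f : Equiv.Perm ℝ, IsA f ∧ ∀ i, f (x i) = y i := by
  refine (cfg_convex n).isPreconnected.induction₂
    (fun x y => ∃ f : Equiv.Perm ℝ, IsA f ∧ ∀ i, f (x i) = y i) (fun a ha => local_trans ha) ?_ ?_ hx hy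
  · rintro x y z _ _ _ ⟨f, hf, hfx⟩ ⟨g, hg, hgy⟩
    refine ⟨g * f, hg.mul hf, fun i => ?_⟩
    show g (f (x i)) = z i
    rw [hfx, hgy]
  · rintro x y _ _ ⟨f, hf, hfx⟩
    refine ⟨f⁻¹, hf.inv, fun i => ?_⟩
    show f.symm (y i) = x i
    rw [Equiv.symm_apply_eq, hfx]


end Pool.Agent.Helper356.Circ
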