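import Mathlib
import Pool.Agent.Helper356.Circ1

set_option autoImplicit false

open Set Filter Topology

namespace Pool.Agent.Helper356.Circ

/-- perturbations vanishing at the constrained points -/
def VV {n : ℕ} (x : Fin n → ℝ) (ε : ℝ) : Set (ℂ → ℂ) :=
  {V | Differentiable ℂ V ∧ (∀ z, V (z + 2 * Real.pi) = V z) ∧ (∀ i, V (x i) = 0) ∧
    ∃ r < ε, ∀ z, ‖V z‖ ≤ r * Real.exp (z.im ^ 2)}

lemma VV.good {n : ℕ} {x : Fin n → ℝ} {ε : ℝ} {V : ℂ → ℂ} (hV : V ∈ VV x ε) : GoodW ε V := by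
  obtain ⟨h1, h2, -, r, hr, h3⟩ := hV
  refine ⟨h1, h2, fun z => (h3 z).trans ?_⟩
  exact mul_le_mul_of_nonneg_right hr.le (Real.exp_pos _).le

lemma VV.zero {n : ℕ} (x : Fin n → ℝ) {ε : ℝ} (hε : 0 < ε) : (fun _ => 0) ∈ VV x ε := by
  refine ⟨differentiable_const _, fun _ => rfl, fun _ => rfl, 0, hε, fun z => ?_⟩
  simp

open Classical in
/-- the homeomorphism of the line with formula h + re V -/
noncomputable def PP (h : ℝ → ℝ) (V : ℂ → ℂ) : Equiv.Perm ℝ :=
  if hyp : ∃ f : Equiv.Perm ℝ, IsA f ∧ ∀ t : ℝ, f t = h t + (V t).re then hyp.choose else 1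

lemma PP_spec {h : ℝ → ℝ} {c ε : ℝ} (B : Base h c ε) {V : ℂ → ℂ} (hV : GoodW ε V) :
    IsA (PP h V) ∧ ∀ t : ℝ, PP h V t = h t + (V t).re := by
  have hyp := B.perm hV
  unfold PP
  rw [dif_pos hyp]
  exact hyp.choose_spec

lemma local_pert {h : ℝ → ℝ} {c ε : ℝ} (_B : Base h c ε) {n : ℕ} {x : Fin n → ℝ} {V0 : ℂ → ℂ}
    (hV0 : V0 ∈ VV x ε) {A : Finset ℝ} (hA : ∀ i, x i ∈ A) {t0 : ℝ}
    (ht0 : ∀ a ∈ A, ∀ m : ℤ, t0 ≠ a + m * (2 * Real.pi)) :
    ∃ δ > 0, ∀ t w : ℝ, |t - t0| < δ → |w - (h t + (V0 t).re)| < δ →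
      ∃ V ∈ VV x ε, (∀ a ∈ A, V a = V0 a) ∧ h t + (V t).re = w := by
  obtain ⟨h1, h2, h3, r, hr, h4⟩ := hV0
  obtain ⟨K, hK0, hK⟩ := phi_bound A
  have hne := phi_ne ht0
  set η := |(phi A t0).re| / 2 with hη
  have hη0 : 0 < η := by
    have := abs_pos.2 hne
    rw [hη]; linarith
  have hcont : Continuous (fun t : ℝ => (phi A t).re) :=
    Complex.continuous_re.comp ((phi_diff A).continuous.comp Complex.continuous_ofReal)
  have hev : ∀ᶠ t : ℝ in 𝓝 t0, η < |(phi A t).re| := by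
    have hc2 : Continuous (fun t : ℝ => |(phi A t).re|) := hcont.abs
    apply (hc2.tendsto t0).eventually_const_lt
    have := abs_pos.2 hne
    rw [hη]; linarith
  obtain ⟨δ1, hδ1, hball⟩ := Metric.eventually_nhds_iff.1 hev
  refine ⟨min δ1 (η * (ε - r) / (2 * K)), lt_min hδ1 (by
    have : 0 < ε - r := by linarith
    positivity), ?_⟩
  intro t w ht hw
  have ht1 : η < |(phi A t).re| := hball (by
    rw [Real.dist_eq]; exact lt_of_lt_of_le ht (min_le_left _ _))
  have hw1 : |w - (h t + (V0 t).re)| < η * (ε - r) / (2 * K) := lt_of_lt_of_le hw (min_le_right _ _)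
  have hφ0 : (phi A t).re ≠ 0 := by
    intro h0
    rw [h0, abs_zero] at ht1
    linarith
  set τ : ℝ := (w - (h t + (V0 t).re)) / (phi A t).re with hτ
  have hτabs : |τ| ≤ (ε - r) / (2 * K) := by
    rw [hτ, abs_div, div_le_iff₀ (lt_trans hη0 ht1)]
    calc |w - (h t + (V0 t).re)| ≤ η * (ε - r) / (2 * K) := hw1.le
      _ = (ε - r) / (2 * K) * η := by ring
      _ ≤ (ε - r) / (2 * K) * |(phi A t).re| := by
        apply mul_le_mul_of_nonneg_left ht1.le
        have : 0 < ε - r := by linarith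
        positivity
  refine ⟨fun z => V0 z + (τ : ℂ) * phi A z, ⟨?_, ?_, ?_, r + (ε - r) / 2, by linarith, ?_⟩, ?_, ?_⟩
  · exact h1.add ((differentiable_const _).mul (phi_diff A))
  · intro z
    show V0 (z + 2 * Real.pi) + τ * phi A (z + 2 * Real.pi) = _
    rw [h2, phi_per]
  · intro i
    show V0 (x i) + τ * phi A (x i) = 0
    rw [h3, phi_zero (hA i), mul_zero, add_zero]
  · intro z
    calc ‖V0 z + (τ : ℂ) * phi A z‖ ≤ ‖V0 z‖ + ‖(τ : ℂ) * phi A z‖ := norm_add_le _ _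
      _ ≤ r * Real.exp (z.im ^ 2) + (ε - r) / (2 * K) * (K * Real.exp (z.im ^ 2)) := by
        apply add_le_add (h4 z)
        rw [norm_mul, Complex.norm_real, Real.norm_eq_abs]
        exact mul_le_mul hτabs (hK z) (norm_nonneg _) (le_trans (abs_nonneg _) hτabs)
      _ = (r + (ε - r) / 2) * Real.exp (z.im ^ 2) := by
        field_simp
  · intro a ha
    show V0 a + τ * phi A a = V0 a
    rw [phi_zero ha, mul_zero, add_zero]
  · show h t + (V0 t + (τ : ℂ) * phi A t).re = w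
    rw [Complex.add_re, Complex.re_ofReal_mul, hτ, div_mul_cancel₀ _ hφ0]
    ring

/-- translation by a full turn -/
noncomputable def Tr : Equiv.Perm ℝ := Equiv.addRight (2 * Real.pi)

lemma Tr_apply (t : ℝ) : Tr t = t + 2 * Real.pi := rfl

lemma Tr_pow (m : ℤ) (t : ℝ) : (Tr ^ m) t = t + m * (2 * Real.pi) := by
  have hnat : ∀ k : ℕ, ∀ t : ℝ, (Tr ^ k) t = t + k * (2 * Real.pi) := by
    intro k
    induction k with
    | zero => intro t; simp
    | succ k ih =>
      intro t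
      rw [pow_succ', Equiv.Perm.mul_apply, ih, Tr_apply]
      push_cast
      ring
  rcases m with m | m
  · simpa using hnat m t
  · rw [zpow_negSucc]
    have h1 : (Tr ^ (m + 1)) (t + (Int.negSucc m : ℝ) * (2 * Real.pi)) = t := by
      rw [hnat, Int.cast_negSucc]; push_cast; ring
    show (Tr ^ (m + 1)).symm t = _
    rw [Equiv.symm_apply_eq]
    exact h1.symm

lemma isA_Tr : IsA Tr where
  an x := analyticAt_id.add analyticAt_const
  an' x := by
    have : (Tr.symm : ℝ → ℝ) = fun t => t + (-(2 * Real.pi)) := by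
      funext t
      rw [Equiv.symm_apply_eq, Tr_apply]; ring
    rw [this]
    exact analyticAt_id.add analyticAt_const
  per x := rfl
  mono := fun x y hxy => by rw [Tr_apply, Tr_apply]; linarith

lemma IsA.per_int {f : Equiv.Perm ℝ} (hf : IsA f) (m : ℤ) (t : ℝ) :
    f (t + m * (2 * Real.pi)) = f t + m * (2 * Real.pi) := by
  have hnat : ∀ k : ℕ, ∀ t : ℝ, f (t + k * (2 * Real.pi)) = f t + k * (2 * Real.pi) := by
    intro k
    induction k with
    | zero => intro t; simp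
    | succ k ih =>
      intro t
      have : t + ((k + 1 : ℕ) : ℝ) * (2 * Real.pi) = (t + k * (2 * Real.pi)) + 2 * Real.pi := by push_cast; ring
      rw [this, hf.per, ih]
      push_cast
      ring
  rcases m with m | m
  · simpa using hnat m t
  · have h1 := hnat (m + 1) (t + (Int.negSucc m : ℝ) * (2 * Real.pi))
    have h2 : t + (Int.negSucc m : ℝ) * (2 * Real.pi) + ((m + 1 : ℕ) : ℝ) * (2 * Real.pi) = t := by
      rw [Int.cast_negSucc]; push_cast; ring
    rw [h2] at h1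
    rw [h1, Int.cast_negSucc]
    push_cast
    ring

/-- power with exponent plus or minus one -/
def pw (g : Equiv.Perm ℝ) (b : Bool) : Equiv.Perm ℝ := bif b then g else g⁻¹

/-- action of a word; the head of the list is applied first -/
def act (g : Equiv.Perm ℝ) : List (Bool × Equiv.Perm ℝ) → ℝ → ℝ
  | [], u => u
  | (b, γ) :: w, u => act g w (γ (pw g b u))

/-- reducedness condition for two adjacent letters -/
def RR (l l' : Bool × Equiv.Perm ℝ) : Prop := l.1 ≠ l'.1 → l.2 ∉ Subgroup.zpowers Tr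

lemma countable_fix {γ : Equiv.Perm ℝ} (hγ : IsA γ) (hZ : γ ∉ Subgroup.zpowers Tr) :
    {v : ℝ | ∃ m : ℤ, γ v = v + m * (2 * Real.pi)}.Countable := by
  have h1 : {v : ℝ | ∃ m : ℤ, γ v = v + m * (2 * Real.pi)} =
      ⋃ m : ℤ, {v : ℝ | γ v - (v + m * (2 * Real.pi)) = 0} := by
    ext v
    simp only [mem_iUnion, mem_ofPred_eq, sub_eq_zero]
  rw [h1]
  apply countable_iUnion
  intro m
  apply countable_zeros (f := fun v => γ v - (v + m * (2 * Real.pi)))
  · intro v
    exact (hγ.an v).sub (analyticAt_id.add analyticAt_const)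
  · by_contra hcon
    push Not at hcon
    apply hZ
    refine ⟨m, ?_⟩
    ext v
    have := hcon v
    rw [show (fun x : ℤ => Tr ^ x) m = Tr ^ m from rfl, Tr_pow]
    linarith

lemma countable_hit (γ : Equiv.Perm ℝ) (a : ℝ) :
    {v : ℝ | ∃ m : ℤ, γ v = a + m * (2 * Real.pi)}.Countable := by
  have h1 : {v : ℝ | ∃ m : ℤ, γ v = a + m * (2 * Real.pi)} =
      ⋃ m : ℤ, {γ.symm (a + m * (2 * Real.pi))} := by
    ext v
    simp only [mem_iUnion, mem_ofPred_eq, mem_singleton_iff, Equiv.eq_symm_apply]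
  rw [h1]
  exact countable_iUnion fun m => countable_singleton _


lemma exists_near {S : Set ℝ} (hS : S.Countable) (v0 : ℝ) {δ : ℝ} (hδ : 0 < δ) :
    ∃ v, v ∉ S ∧ |v - v0| < δ := by
  obtain ⟨v, hv, hd⟩ := (hS.dense_compl ℝ).exists_dist_lt v0 hδ
  refine ⟨v, hv, ?_⟩
  rwa [Real.dist_eq, abs_sub_comm] at hd

/-- one step perturbation: the value of the first letter can be prescribed freely near its value -/
lemma step_pert {h : ℝ → ℝ} {c ε : ℝ} (B : Base h c ε) {n : ℕ} {x : Fin n → ℝ} {V0 : ℂ → ℂ}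
    (hV0 : V0 ∈ VV x ε) {A : Finset ℝ} (hA : ∀ i, x i ∈ A) (b : Bool) (u : ℝ)
    (hu : ∀ a ∈ A, ∀ m : ℤ, (if b then u else (PP h V0)⁻¹ u) ≠ a + m * (2 * Real.pi)) :
    ∃ δ > 0, ∀ v : ℝ, |v - pw (PP h V0) b u| < δ →
      ∃ V ∈ VV x ε, (∀ a ∈ A, V a = V0 a) ∧ pw (PP h V) b u = v := by
  obtain ⟨hf0, hf0v⟩ := PP_spec B (VV.good hV0)
  obtain ⟨δ, hδ, hpert⟩ := local_pert B hV0 hA hu
  cases b with
  | true =>
    refine ⟨δ, hδ, fun v hv => ?_⟩
    have h1 : pw (PP h V0) true u = PP h V0 u := rfl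
    rw [h1, hf0v] at hv
    obtain ⟨V, hV, hVA, hVu⟩ := hpert u v (by simpa using hδ) hv
    refine ⟨V, hV, hVA, ?_⟩
    show PP h V u = v
    rw [(PP_spec B (VV.good hV)).2, hVu]
  | false =>
    have h1 : pw (PP h V0) false u = (PP h V0).symm u := rfl
    set v0 := (PP h V0).symm u with hv0
    have hcont : Continuous (fun v : ℝ => u - (h v + (V0 v).re)) := by
      have h2 : (fun v : ℝ => u - (h v + (V0 v).re)) = fun v => u - PP h V0 v := by
        funext v; rw [hf0v]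
      rw [h2]
      have h3 : Continuous (PP h V0) := continuous_iff_continuousAt.2 fun y => (hf0.an y).continuousAt
      exact continuous_const.sub h3
    have hev : ∀ᶠ v in 𝓝 v0, |u - (h v + (V0 v).re)| < δ := by
      apply (hcont.abs.tendsto v0).eventually_lt_const
      rw [← hf0v, hv0, Equiv.apply_symm_apply, sub_self, abs_zero]
      exact hδ
    obtain ⟨δ1, hδ1, hball⟩ := Metric.eventually_nhds_iff.1 hev
    refine ⟨min δ δ1, lt_min hδ hδ1, fun v hv => ?_⟩
    rw [h1] at hv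
    obtain ⟨V, hV, hVA, hVu⟩ := hpert v u (lt_of_lt_of_le hv (min_le_left _ _))
      (hball (by rw [Real.dist_eq]; exact lt_of_lt_of_le hv (min_le_right _ _)))
    refine ⟨V, hV, hVA, ?_⟩
    show (PP h V).symm u = v
    rw [Equiv.symm_apply_eq, (PP_spec B (VV.good hV)).2, hVu]

theorem exists_move {h : ℝ → ℝ} {c ε : ℝ} (B : Base h c ε) {n : ℕ} {x : Fin n → ℝ} :
    ∀ (w : List (Bool × Equiv.Perm ℝ)) (b : Bool) (γ : Equiv.Perm ℝ),
      (∀ l ∈ (b, γ) :: w, IsA l.2) → List.IsChain RR ((b, γ) :: w) →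
      ∀ V0 ∈ VV x ε, ∀ A : Finset ℝ, (∀ i, x i ∈ A) → ∀ u : ℝ,
      (∀ a ∈ A, ∀ m : ℤ, (if b then u else (PP h V0)⁻¹ u) ≠ a + m * (2 * Real.pi)) → ∀ q : ℝ,
      ∃ V ∈ VV x ε, (∀ a ∈ A, V a = V0 a) ∧ act (PP h V) ((b, γ) :: w) u ≠ q := by
  intro w
  induction w with
  | nil =>
    intro b γ _ _ V0 hV0 A hA u hu q
    obtain ⟨δ, hδ, hpert⟩ := step_pert B hV0 hA b u hu
    obtain ⟨v, hv, hvd⟩ := exists_near (countable_singleton (γ.symm q)) (pw (PP h V0) b u) hδ
    obtain ⟨V, hV, hVA, hVu⟩ := hpert v hvd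
    refine ⟨V, hV, hVA, ?_⟩
    show γ (pw (PP h V) b u) ≠ q
    rw [hVu]
    intro h1
    apply hv
    rw [mem_singleton_iff, Equiv.eq_symm_apply, h1]
  | cons l w ih =>
    obtain ⟨b', γ'⟩ := l
    intro b γ hall hchain V0 hV0 A hA u hu q
    classical
    obtain ⟨hf0, hf0v⟩ := PP_spec B (VV.good hV0)
    have hγ : IsA γ := hall (b, γ) List.mem_cons_self
    obtain ⟨δ, hδ, hpert⟩ := step_pert B hV0 hA b u hu
    have hRR : RR (b, γ) (b', γ') := (List.isChain_cons_cons.1 hchain).1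
    set Bad : Set ℝ := (⋃ a ∈ A, {v : ℝ | ∃ m : ℤ, γ v = a + m * (2 * Real.pi)}) ∪
      (⋃ a ∈ A, {v : ℝ | ∃ m : ℤ, γ v = PP h V0 a + m * (2 * Real.pi)}) ∪
      {v : ℝ | ∃ m : ℤ, γ v = u + m * (2 * Real.pi)} ∪
      (if b ≠ b' then {v : ℝ | ∃ m : ℤ, γ v = v + m * (2 * Real.pi)} else ∅) with hBad
    have hBadc : Bad.Countable := by
      refine ((Set.Countable.union ?_ ?_).union (countable_hit γ u)).union ?_
      · exact A.countable_toSet.biUnion fun a _ => countable_hit γ a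
      · exact A.countable_toSet.biUnion fun a _ => countable_hit γ _
      · split_ifs with h1
        · exact countable_fix hγ (hRR h1)
        · exact countable_empty
    obtain ⟨v, hv, hvd⟩ := exists_near hBadc (pw (PP h V0) b u) hδ
    obtain ⟨V1, hV1, hV1A, hV1u⟩ := hpert v hvd
    obtain ⟨hf1, hf1v⟩ := PP_spec B (VV.good hV1)
    simp only [hBad, mem_union, not_or] at hv
    obtain ⟨⟨⟨hv1, hv2⟩, hv3⟩, hv4⟩ := hv
    simp only [mem_iUnion, not_exists] at hv1 hv2
    have hv1' : ∀ a ∈ A, ∀ m : ℤ, γ v ≠ a + m * (2 * Real.pi) := fun a ha m h1 => hv1 a ha ⟨m, h1⟩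
    have hv2' : ∀ a ∈ A, ∀ m : ℤ, γ v ≠ PP h V0 a + m * (2 * Real.pi) := fun a ha m h1 => hv2 a ha ⟨m, h1⟩
    have hv3' : ∀ m : ℤ, γ v ≠ u + m * (2 * Real.pi) := fun m h1 => hv3 ⟨m, h1⟩
    have hv4' : b ≠ b' → ∀ m : ℤ, γ v ≠ v + m * (2 * Real.pi) := by
      intro hb m h1
      rw [if_pos hb] at hv4
      exact hv4 ⟨m, h1⟩
    -- domain and range point of the new constraint
    set D : ℝ := if b then u else v with hD
    set Rn : ℝ := if b then v else u with hRn
    have hDR : PP h V1 D = Rn := by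
      cases b with
      | true => exact hV1u
      | false =>
        have h1 : (PP h V1).symm u = v := hV1u
        rw [Equiv.symm_apply_eq] at h1
        exact h1.symm
    have hA' : ∀ i, x i ∈ insert D A := fun i => Finset.mem_insert_of_mem (hA i)
    have hcond : ∀ a ∈ insert D A, ∀ m : ℤ,
        (if b' then γ v else (PP h V1)⁻¹ (γ v)) ≠ a + m * (2 * Real.pi) := by
      intro a ha m
      cases b' with
      | true =>
        simp only [if_true]
        rcases Finset.mem_insert.1 ha with rfl | ha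
        · cases b with
          | true => exact hv3' m
          | false => exact hv4' (by simp) m
        · exact hv1' a ha m
      | false =>
        simp only [Bool.false_eq_true, if_false]
        intro h1
        have h2 : γ v = PP h V1 (a + m * (2 * Real.pi)) := by
          rw [← h1]
          exact (Equiv.apply_symm_apply (PP h V1) (γ v)).symm
        rw [hf1.per_int] at h2
        rcases Finset.mem_insert.1 ha with h3 | ha
        · rw [h3, hDR] at h2
          cases b with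
          | true => exact hv4' (by simp) m h2
          | false => exact hv3' m h2
        · have h3 : PP h V1 a = PP h V0 a := by rw [hf1v, hf0v, hV1A a ha]
          rw [h3] at h2
          exact hv2' a ha m h2
    obtain ⟨V, hV, hVA, hVq⟩ := ih b' γ' (fun l hl => hall l (List.mem_cons_of_mem _ hl))
      (List.isChain_cons_cons.1 hchain).2 V1 hV1 (insert D A) hA' (γ v) hcond q
    obtain ⟨hf, hfv⟩ := PP_spec B (VV.good hV)
    refine ⟨V, hV, fun a ha => by rw [hVA a (Finset.mem_insert_of_mem ha), hV1A a ha], ?_⟩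
    have h1 : PP h V D = Rn := by
      rw [hfv, hVA D (Finset.mem_insert_self _ _), ← hf1v, hDR]
    have h2 : pw (PP h V) b u = v := by
      cases b with
      | true => exact h1
      | false =>
        show (PP h V).symm u = v
        rw [Equiv.symm_apply_eq]
        exact h1.symm
    show act (PP h V) ((b', γ') :: w) (γ (pw (PP h V) b u)) ≠ q
    rw [h2]
    exact hVq


/-- weights -/
noncomputable def psi (n : ℕ) (s : ℂ) : ℂ := s ^ (2 * n) / 2 ^ (n ^ 3)

lemma fact_le (n : ℕ) : n.factorial ≤ 2 ^ (n ^ 3) := by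
  calc n.factorial ≤ n ^ n := Nat.factorial_le_pow n
    _ ≤ (2 ^ n) ^ n := Nat.pow_le_pow_left (Nat.lt_two_pow_self).le n
    _ = 2 ^ (n * n) := by rw [pow_mul]
    _ ≤ 2 ^ (n ^ 3) := by
      apply Nat.pow_le_pow_right (by norm_num)
      rcases Nat.eq_zero_or_pos n with rfl | hn
      · simp
      · calc n * n = n * n * 1 := by ring
          _ ≤ n * n * n := Nat.mul_le_mul_left _ hn
          _ = n ^ 3 := by ring

lemma psi_bound (n : ℕ) (s : ℂ) : ‖psi n s‖ ≤ (‖s‖ ^ 2) ^ n / n.factorial := by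
  unfold psi
  rw [norm_div, norm_pow, norm_pow, pow_mul]
  have h1 : ((n.factorial : ℕ) : ℝ) ≤ (2 : ℝ) ^ (n ^ 3) := by exact_mod_cast fact_le n
  have h2 : ‖(2 : ℂ)‖ = 2 := by simp
  rw [h2]
  apply div_le_div_of_nonneg_left (by positivity) _ h1
  exact_mod_cast n.factorial_pos

lemma diff_tsum {E : Type*} [NormedAddCommGroup E] [NormedSpace ℂ E] [CompleteSpace E]
    (f : ℕ → ℂ → E) (hd : ∀ n, Differentiable ℂ (f n))
    (hb : ∀ z0 : ℂ, ∃ u : ℕ → ℝ, Summable u ∧ ∀ n, ∀ z ∈ Metric.ball z0 1, ‖f n z‖ ≤ u n) :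
    Differentiable ℂ (fun z => ∑' n, f n z) := by
  intro z0
  obtain ⟨u, hu, hbu⟩ := hb z0
  have h1 := Complex.differentiableOn_tsum_of_summable_norm (F := f) hu
    (fun n => (hd n).differentiableOn) (Metric.isOpen_ball (x := z0) (ε := 1)) hbu
  exact h1.differentiableAt (Metric.isOpen_ball.mem_nhds (Metric.mem_ball_self one_pos))

abbrev HH := BoundedContinuousFunction ℕ ℂ

noncomputable def ee (n : ℕ) : HH :=
  BoundedContinuousFunction.ofNormedAddCommGroupDiscrete (fun m => if m = n then (1 : ℂ) else 0) 1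
    (fun m => by split_ifs <;> simp)

lemma ee_norm (n : ℕ) : ‖ee n‖ ≤ 1 := by
  unfold ee
  rw [BoundedContinuousFunction.norm_le zero_le_one]
  intro m
  show ‖(if m = n then (1 : ℂ) else 0)‖ ≤ 1
  split_ifs <;> simp

lemma ee_apply (n m : ℕ) : ee n m = if m = n then (1 : ℂ) else 0 := rfl

noncomputable def ev (n : ℕ) : HH →L[ℂ] ℂ := BoundedContinuousFunction.evalCLM ℂ n

lemma ev_apply (n : ℕ) (f : HH) : ev n f = f n := rfl

lemma ev_norm (n : ℕ) : ‖ev n‖ ≤ 1 := by
  apply ContinuousLinearMap.opNorm_le_bound _ zero_le_one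
  intro f
  rw [one_mul, ev_apply]
  exact f.norm_coe_le_norm n

set_option backward.isDefEq.respectTransparency false in
theorem analytic_series (V : ℕ → ℂ → ℂ) (hd : ∀ n, Differentiable ℂ (V n)) (C : ℝ) (hC : 0 ≤ C)
    (hb : ∀ n z, ‖V n z‖ ≤ C * Real.exp (z.im ^ 2)) (p : ℂ × ℂ) :
    AnalyticAt ℂ (fun p : ℂ × ℂ => ∑' n, psi n p.1 * V n p.2) p := by
  let a : ℂ → HH := fun s => ∑' n, ((2 : ℂ) ^ n * psi n s) • ee n
  let b : ℂ → (HH →L[ℂ] ℂ) := fun z => ∑' n, (((2 : ℂ) ^ n)⁻¹ * V n z) • ev n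
  have hpsid : ∀ n, Differentiable ℂ (psi n) := by
    intro n
    unfold psi
    fun_prop
  have hanorm : ∀ (n : ℕ) (s : ℂ), ‖((2 : ℂ) ^ n * psi n s) • ee n‖ ≤ (2 * ‖s‖ ^ 2) ^ n / n.factorial := by
    intro n s
    rw [norm_smul, norm_mul, norm_pow]
    have h2 : ‖(2 : ℂ)‖ = 2 := by simp
    rw [h2, mul_pow, mul_div_assoc]
    calc 2 ^ n * ‖psi n s‖ * ‖ee n‖ ≤ 2 ^ n * ‖psi n s‖ * 1 := by
          apply mul_le_mul_of_nonneg_left (ee_norm n) (by positivity)
      _ = 2 ^ n * ‖psi n s‖ := by ring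
      _ ≤ _ := mul_le_mul_of_nonneg_left (psi_bound n s) (by positivity)
  have hasum : ∀ s : ℂ, Summable (fun n => ((2 : ℂ) ^ n * psi n s) • ee n) := by
    intro s
    exact Summable.of_norm_bounded (Real.summable_pow_div_factorial _) (fun n => hanorm n s)
  have hbnorm : ∀ (n : ℕ) (z : ℂ), ‖(((2 : ℂ) ^ n)⁻¹ * V n z) • ev n‖ ≤ (1 / 2) ^ n * (C * Real.exp (z.im ^ 2)) := by
    intro n z
    rw [norm_smul, norm_mul, norm_inv, norm_pow]
    have h2 : ‖(2 : ℂ)‖ = 2 := by simp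
    rw [h2]
    calc ((2 : ℝ) ^ n)⁻¹ * ‖V n z‖ * ‖ev n‖ ≤ ((2 : ℝ) ^ n)⁻¹ * ‖V n z‖ * 1 := by
          apply mul_le_mul_of_nonneg_left (ev_norm n) (by positivity)
      _ = (1 / 2) ^ n * ‖V n z‖ := by rw [one_div, inv_pow]; ring
      _ ≤ _ := mul_le_mul_of_nonneg_left (hb n z) (by positivity)
  have hbsum : ∀ z : ℂ, Summable (fun n => (((2 : ℂ) ^ n)⁻¹ * V n z) • ev n) := by
    intro z
    exact Summable.of_norm_bounded ((summable_geometric_two).mul_right _) (fun n => hbnorm n z)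
  have hadiff : Differentiable ℂ a := by
    apply diff_tsum
    · intro n
      exact ((differentiable_const _).mul (hpsid n)).smul_const _
    · intro z0
      refine ⟨fun n => (2 * (‖z0‖ + 1) ^ 2) ^ n / n.factorial, Real.summable_pow_div_factorial _, ?_⟩
      intro n z hz
      refine (hanorm n z).trans ?_
      have h1 : ‖z‖ ≤ ‖z0‖ + 1 := by
        have h2 : ‖z - z0‖ < 1 := by rwa [← dist_eq_norm]
        calc ‖z‖ = ‖z0 + (z - z0)‖ := by congr 1; ring
          _ ≤ ‖z0‖ + ‖z - z0‖ := norm_add_le _ _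
          _ ≤ ‖z0‖ + 1 := by linarith
      apply div_le_div_of_nonneg_right _ (by positivity)
      apply pow_le_pow_left₀ (by positivity)
      apply mul_le_mul_of_nonneg_left _ (by norm_num)
      exact pow_le_pow_left₀ (norm_nonneg _) h1 2
  have hbdiff : Differentiable ℂ b := by
    refine diff_tsum (E := HH →L[ℂ] ℂ) (fun n z => (((2 : ℂ) ^ n)⁻¹ * V n z) • ev n) ?_ ?_
    · intro n
      exact ((differentiable_const _).mul (hd n)).smul_const _
    · intro z0
      refine ⟨fun n => (1 / 2) ^ n * (C * Real.exp ((|z0.im| + 1) ^ 2)), (summable_geometric_two).mul_right _, ?_⟩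
      intro n z hz
      refine (hbnorm n z).trans ?_
      have h1 : |z.im| ≤ |z0.im| + 1 := by
        have h2 : ‖z - z0‖ < 1 := by rwa [← dist_eq_norm]
        have h3 := Complex.abs_im_le_norm (z - z0)
        rw [Complex.sub_im] at h3
        have h4 := abs_sub_abs_le_abs_sub z.im z0.im
        linarith
      have h5 : z.im ^ 2 ≤ (|z0.im| + 1) ^ 2 := by
        rw [← sq_abs z.im]
        exact pow_le_pow_left₀ (abs_nonneg _) h1 2
      exact mul_le_mul_of_nonneg_left (mul_le_mul_of_nonneg_left (Real.exp_le_exp.2 h5) hC) (by positivity)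
  have hkey : (fun p : ℂ × ℂ => ∑' n, psi n p.1 * V n p.2) = fun p : ℂ × ℂ => (b p.2) (a p.1) := by
    funext p
    have ha : ∀ m, (a p.1) m = (2 : ℂ) ^ m * psi m p.1 := by
      intro m
      have h1 : (a p.1) m = ev m (a p.1) := rfl
      rw [h1, (ev m).map_tsum (hasum p.1), tsum_eq_single m]
      · rw [map_smul, ev_apply, ee_apply, if_pos rfl, smul_eq_mul, mul_one]
      · intro n hn
        rw [map_smul, ev_apply, ee_apply, if_neg hn.symm, smul_zero]
    have h2 : (b p.2) (a p.1) = ∑' n, ((((2 : ℂ) ^ n)⁻¹ * V n p.2) • ev n) (a p.1) := by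
      have h3 := (ContinuousLinearMap.apply ℂ ℂ (a p.1)).map_tsum (hbsum p.2)
      exact h3
    rw [h2]
    congr 1
    funext n
    rw [smul_apply, ev_apply, ha, smul_eq_mul]
    have : (2 : ℂ) ^ n ≠ 0 := pow_ne_zero _ two_ne_zero
    field_simp
  rw [hkey]
  have ha1 : AnalyticAt ℂ a p.1 := hadiff.analyticAt p.1
  have hb1 : AnalyticAt ℂ b p.2 := Differentiable.analyticAt (E := HH →L[ℂ] ℂ) hbdiff p.2
  have h1 : AnalyticAt ℂ (fun p : ℂ × ℂ => a p.1) p :=
    AnalyticAt.comp (g := a) (f := Prod.fst) ha1 analyticAt_fst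
  have h2 : AnalyticAt ℂ (fun p : ℂ × ℂ => b p.2) p :=
    AnalyticAt.comp (g := b) (f := Prod.snd) hb1 analyticAt_snd
  have h3 : AnalyticAt ℂ (fun q : (HH →L[ℂ] ℂ) × HH => q.1 q.2) (b p.2, a p.1) :=
    (ContinuousLinearMap.id ℂ (HH →L[ℂ] ℂ)).analyticAt_bilinear (b p.2, a p.1)
  exact AnalyticAt.comp (g := fun q : (HH →L[ℂ] ℂ) × HH => q.1 q.2) (f := fun p : ℂ × ℂ => (b p.2, a p.1))
    h3 (h2.prod h1)

end Pool.Agent.Helper356.Circ
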