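import Mathlib
import Pool.Agent.Helper356.Circ2

set_option autoImplicit false

open Set Filter Topology

namespace Pool.Agent.Helper356.Circ

noncomputable def psr (n : ℕ) (s : ℝ) : ℝ := (s ^ 2) ^ n / 2 ^ (n ^ 3)

lemma psr_nonneg (n : ℕ) (s : ℝ) : 0 ≤ psr n s := by unfold psr; positivity

lemma psi_real (n : ℕ) (s : ℝ) : psi n s = ((psr n s : ℝ) : ℂ) := by
  unfold psi psr
  push_cast
  rw [pow_mul]

lemma psr_summable (s : ℝ) : Summable (fun n => psr n s) := by
  refine Summable.of_norm_bounded (Real.summable_pow_div_factorial (s ^ 2)) (fun n => ?_)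
  have h := psi_bound n s
  rw [psi_real, Complex.norm_real, Complex.norm_real] at h
  rw [Real.norm_eq_abs s, sq_abs] at h
  exact h

noncomputable def Er (s : ℝ) : ℝ := ∑' n, psr n s

lemma psr_le_Er (n : ℕ) (s : ℝ) : psr n s ≤ Er s :=
  (psr_summable s).le_tsum n (fun m _ => psr_nonneg m s)

lemma Er_pos (s : ℝ) : 0 < Er s := by
  have h := psr_le_Er 0 s
  have : psr 0 s = 1 := by unfold psr; simp
  rw [this] at h
  linarith

noncomputable def NN (V : ℕ → ℂ → ℂ) (s z : ℂ) : ℂ := ∑' n, psi n s * V n z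

section
variable {V : ℕ → ℂ → ℂ} (hd : ∀ n, Differentiable ℂ (V n)) {C : ℝ} (hC : 0 ≤ C)
    (hb : ∀ n z, ‖V n z‖ ≤ C * Real.exp (z.im ^ 2))

include hb in
lemma NN_norm_bound (s : ℝ) (z : ℂ) (n : ℕ) : ‖psi n s * V n z‖ ≤ psr n s * (C * Real.exp (z.im ^ 2)) := by
  rw [norm_mul, psi_real, Complex.norm_real, Real.norm_eq_abs, abs_of_nonneg (psr_nonneg n s)]
  exact mul_le_mul_of_nonneg_left (hb n z) (psr_nonneg n s)

include hb in
lemma NN_summable (s : ℝ) (z : ℂ) : Summable (fun n => psi n s * V n z) :=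
  Summable.of_norm_bounded ((psr_summable s).mul_right _) (fun n => NN_norm_bound hb s z n)

include hb in
lemma NN_bound (s : ℝ) (z : ℂ) : ‖NN V s z‖ ≤ Er s * (C * Real.exp (z.im ^ 2)) := by
  have h1 : HasSum (fun n => psr n s * (C * Real.exp (z.im ^ 2))) (Er s * (C * Real.exp (z.im ^ 2))) :=
    (psr_summable s).hasSum.mul_right _
  exact tsum_of_norm_bounded h1 (fun n => NN_norm_bound hb s z n)

include hd hC hb in
lemma NN_real_analytic (p : ℝ × ℝ) : AnalyticAt ℝ (fun p : ℝ × ℝ => (NN V p.1 p.2).re) p := by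
  have h1 : AnalyticAt ℂ (fun q : ℂ × ℂ => NN V q.1 q.2) ((p.1 : ℂ), (p.2 : ℂ)) :=
    analytic_series V hd C hC hb _
  have h2 : AnalyticAt ℝ (fun q : ℂ × ℂ => NN V q.1 q.2) ((p.1 : ℂ), (p.2 : ℂ)) := h1.restrictScalars
  have h3 : AnalyticAt ℝ (fun p : ℝ × ℝ => (((p.1 : ℂ), (p.2 : ℂ)) : ℂ × ℂ)) p := by
    have h4 : AnalyticAt ℝ (fun p : ℝ × ℝ => (p.1 : ℂ)) p :=
      (Complex.ofRealCLM.analyticAt p.1).comp analyticAt_fst
    have h5 : AnalyticAt ℝ (fun p : ℝ × ℝ => (p.2 : ℂ)) p :=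
      (Complex.ofRealCLM.analyticAt p.2).comp analyticAt_snd
    exact h4.prod h5
  have h6 : AnalyticAt ℝ (fun p : ℝ × ℝ => NN V p.1 p.2) p :=
    AnalyticAt.comp (g := fun q : ℂ × ℂ => NN V q.1 q.2)
      (f := fun p : ℝ × ℝ => (((p.1 : ℂ), (p.2 : ℂ)) : ℂ × ℂ)) h2 h3
  exact (Complex.reCLM.analyticAt _).comp h6

include hd hC hb in
lemma NN_diff (s : ℂ) : Differentiable ℂ (fun z => NN V s z) := by
  intro z
  have h1 : AnalyticAt ℂ (fun q : ℂ × ℂ => NN V q.1 q.2) (s, z) := analytic_series V hd C hC hb _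
  have h2 : AnalyticAt ℂ (fun z : ℂ => (s, z)) z := analyticAt_const.prod analyticAt_id
  exact (AnalyticAt.comp (g := fun q : ℂ × ℂ => NN V q.1 q.2) h1 h2).differentiableAt

end

lemma Er_analytic (p : ℝ × ℝ) : AnalyticAt ℝ (fun p : ℝ × ℝ => Er p.1) p := by
  have h1 := NN_real_analytic (V := fun _ _ => 1) (fun _ => differentiable_const _) (C := 1) zero_le_one
    (by
      intro n z
      rw [norm_one, one_mul]
      exact Real.one_le_exp (sq_nonneg _)) p
  have h2 : (fun p : ℝ × ℝ => (NN (fun _ _ => 1) p.1 p.2).re) = fun p : ℝ × ℝ => Er p.1 := by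
    funext p
    unfold NN Er
    simp only [mul_one, psi_real]
    rw [← Complex.ofReal_tsum, Complex.ofReal_re]
  rwa [h2] at h1

/-- the special parameters -/
noncomputable def sm (m : ℕ) : ℝ := Real.sqrt (2 ^ (3 * m ^ 2))

lemma sm_sq (m : ℕ) : (sm m) ^ 2 = 2 ^ (3 * m ^ 2) := Real.sq_sqrt (by positivity)

lemma psr_sm {n m : ℕ} (h : n ≠ m) : psr n (sm m) ≤ psr m (sm m) * (1 / 4) ^ m * (1 / 2) ^ n := by
  unfold psr
  rw [sm_sq]
  have key : 3 * m ^ 2 * n + m ^ 3 + 2 * m + n ≤ 3 * m ^ 2 * m + n ^ 3 := by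
    zify
    have h1 : (1 : ℤ) ≤ ((n : ℤ) - m) ^ 2 := by
      have h2 : (n : ℤ) - m ≠ 0 := by omega
      have := sq_pos_of_ne_zero (a := (n : ℤ) - m) h2
      omega
    nlinarith [mul_nonneg (sub_nonneg.2 h1) (by positivity : (0 : ℤ) ≤ (n : ℤ) + 2 * m)]
  have h4 : ((1 : ℝ) / 4) ^ m = 1 / 2 ^ (2 * m) := by
    rw [pow_mul, one_div_pow]; norm_num
  have h2 : ((1 : ℝ) / 2) ^ n = 1 / 2 ^ n := by rw [one_div_pow]
  rw [h4, h2, ← pow_mul, ← pow_mul]
  rw [div_mul_div_comm, div_mul_div_comm, mul_one, mul_one, div_le_div_iff₀ (by positivity) (by positivity)]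
  rw [← pow_add, ← pow_add, ← pow_add, ← pow_add]
  apply pow_le_pow_right₀ (by norm_num)
  calc _ = 3 * m ^ 2 * n + m ^ 3 + 2 * m + n := by ring
    _ ≤ _ := key

lemma NN_sm {V : ℕ → ℂ → ℂ} {C : ℝ} (hC : 0 ≤ C)
    (hb : ∀ n z, ‖V n z‖ ≤ C * Real.exp (z.im ^ 2)) (m : ℕ) (z : ℝ) :
    ‖((Er (sm m))⁻¹ : ℂ) * NN V (sm m) z - V m z‖ ≤ 4 * C * (1 / 4) ^ m := by
  have hE := Er_pos (sm m)
  have hbz : ∀ n, ‖V n z‖ ≤ C := by
    intro n
    have := hb n z
    simpa using this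
  have h1 : NN V (sm m) z - (Er (sm m) : ℂ) * V m z = ∑' n, psi n (sm m) * (V n z - V m z) := by
    have h2 : (Er (sm m) : ℂ) * V m z = ∑' n, psi n (sm m) * V m z := by
      rw [tsum_mul_right]
      congr 1
      unfold Er
      rw [Complex.ofReal_tsum]
      congr 1
      funext n
      rw [psi_real]
    rw [h2]
    unfold NN
    rw [← (NN_summable hb (sm m) z).tsum_sub]
    · congr 1
      funext n
      ring
    · have := (psr_summable (sm m)).mul_right (C)
      refine Summable.of_norm_bounded this (fun n => ?_)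
      rw [norm_mul, psi_real, Complex.norm_real, Real.norm_eq_abs, abs_of_nonneg (psr_nonneg n _)]
      exact mul_le_mul_of_nonneg_left (hbz m) (psr_nonneg n _)
  have h3 : ‖∑' n, psi n (sm m) * (V n z - V m z)‖ ≤ psr m (sm m) * (1 / 4) ^ m * (2 * C) * 2 := by
    have hs : HasSum (fun n : ℕ => psr m (sm m) * (1 / 4) ^ m * (2 * C) * (1 / 2 : ℝ) ^ n)
        (psr m (sm m) * (1 / 4) ^ m * (2 * C) * 2) := hasSum_geometric_two.mul_left _
    refine tsum_of_norm_bounded hs (fun n => ?_)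
    rw [norm_mul, psi_real, Complex.norm_real, Real.norm_eq_abs, abs_of_nonneg (psr_nonneg n _)]
    by_cases hn : n = m
    · rw [hn, sub_self, norm_zero, mul_zero]
      have := psr_nonneg m (sm m)
      positivity
    · have h4 : ‖V n z - V m z‖ ≤ 2 * C := by
        calc ‖V n z - V m z‖ ≤ ‖V n z‖ + ‖V m z‖ := norm_sub_le _ _
          _ ≤ 2 * C := by linarith [hbz n, hbz m]
      calc psr n (sm m) * ‖V n z - V m z‖ ≤ (psr m (sm m) * (1 / 4) ^ m * (1 / 2) ^ n) * (2 * C) :=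
            mul_le_mul (psr_sm hn) h4 (norm_nonneg _) (by
              have := psr_nonneg m (sm m)
              positivity)
        _ = _ := by ring
  have h5 : ((Er (sm m))⁻¹ : ℂ) * NN V (sm m) z - V m z =
      ((Er (sm m))⁻¹ : ℂ) * (NN V (sm m) z - (Er (sm m) : ℂ) * V m z) := by
    have : (Er (sm m) : ℂ) ≠ 0 := by exact_mod_cast hE.ne'
    field_simp
  rw [h5, norm_mul, norm_inv, Complex.norm_real, Real.norm_eq_abs, abs_of_pos hE, h1]
  calc (Er (sm m))⁻¹ * ‖∑' n, psi n (sm m) * (V n z - V m z)‖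
      ≤ (Er (sm m))⁻¹ * (psr m (sm m) * (1 / 4) ^ m * (2 * C) * 2) :=
        mul_le_mul_of_nonneg_left h3 (inv_nonneg.2 hE.le)
    _ = ((Er (sm m))⁻¹ * psr m (sm m)) * (4 * C * (1 / 4) ^ m) := by ring
    _ ≤ 1 * (4 * C * (1 / 4) ^ m) := by
        apply mul_le_mul_of_nonneg_right _ (by positivity)
        rw [inv_mul_le_iff₀ hE, mul_one]
        exact psr_le_Er m _
    _ = _ := one_mul _


lemma exists_seq {n : ℕ} (x : Fin n → ℝ) {ε : ℝ} (hε : 0 < ε) :
    ∃ Vs : ℕ → ℂ → ℂ, (∀ k, Vs k ∈ VV x ε) ∧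
      ∀ V ∈ VV x ε, (fun r : ℚ => (V ((r : ℝ) : ℂ)).re) ∈
        closure (range (fun k : ℕ => (fun r : ℚ => (Vs k ((r : ℝ) : ℂ)).re))) := by
  let S : Set (ℚ → ℝ) := {f | ∃ V ∈ VV x ε, f = fun r : ℚ => (V ((r : ℝ) : ℂ)).re}
  have hne : Nonempty S := ⟨⟨_, ⟨_, VV.zero x hε, rfl⟩⟩⟩
  obtain ⟨u, hu⟩ := TopologicalSpace.exists_dense_seq S
  choose Vs hVs hVsu using fun k => (u k).2
  refine ⟨Vs, hVs, ?_⟩
  intro V hV
  have h1 : (⟨fun r : ℚ => (V ((r : ℝ) : ℂ)).re, ⟨V, hV, rfl⟩⟩ : S) ∈ closure (range u) := hu _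
  have h2 := image_closure_subset_closure_image (f := (Subtype.val : S → (ℚ → ℝ))) continuous_subtype_val
    (mem_image_of_mem _ h1)
  have h3 : (Subtype.val : S → (ℚ → ℝ)) '' range u = range (fun k : ℕ => (fun r : ℚ => (Vs k ((r : ℝ) : ℂ)).re)) := by
    rw [← range_comp]
    congr 1
    funext k
    exact hVsu k
  rw [h3] at h2
  exact h2

theorem dense_family {h : ℝ → ℝ} {c ε : ℝ} (B : Base h c ε) {n : ℕ} (x : Fin n → ℝ) :
    ∃ g : ℝ → Equiv.Perm ℝ, (∀ s, IsA (g s)) ∧ (∀ s i, g s (x i) = h (x i)) ∧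
      (∀ p : ℝ × ℝ, AnalyticAt ℝ (fun p : ℝ × ℝ => g p.1 p.2) p) ∧
      (∀ p : ℝ × ℝ, AnalyticAt ℝ (fun p : ℝ × ℝ => (g p.1).symm p.2) p) ∧
      ∀ V ∈ VV x ε, ∃ F : Filter ℝ, F.NeBot ∧ ∀ r : ℚ, Tendsto (fun s => g s r) F (𝓝 (PP h V r)) := by
  obtain ⟨Vs, hVs, hdense⟩ := exists_seq x B.eps
  let V' : ℕ → ℂ → ℂ := fun n => Vs n.unpair.1
  have hgood : ∀ n, GoodW ε (V' n) := fun n => VV.good (hVs _)
  have hd : ∀ n, Differentiable ℂ (V' n) := fun n => (hgood n).diff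
  have hb : ∀ n z, ‖V' n z‖ ≤ ε * Real.exp (z.im ^ 2) := fun n z => (hgood n).bd z
  have hε : 0 ≤ ε := B.eps.le
  let W : ℝ → ℂ → ℂ := fun s z => ((Er s)⁻¹ : ℂ) * NN V' s z
  have hW : ∀ s, GoodW ε (W s) := by
    intro s
    refine ⟨(differentiable_const _).mul (NN_diff hd hε hb s), ?_, ?_⟩
    · intro z
      show ((Er s)⁻¹ : ℂ) * NN V' s (z + 2 * Real.pi) = ((Er s)⁻¹ : ℂ) * NN V' s z
      congr 1
      unfold NN
      congr 1
      funext n
      rw [(hgood n).per]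
    · intro z
      have hE := Er_pos s
      show ‖((Er s)⁻¹ : ℂ) * NN V' s z‖ ≤ _
      rw [norm_mul, norm_inv, Complex.norm_real, Real.norm_eq_abs, abs_of_pos hE,
        inv_mul_le_iff₀ hE]
      exact NN_bound hb s z
  have hWre : ∀ s t : ℝ, (W s t).re = (Er s)⁻¹ * (NN V' s t).re := by
    intro s t
    show (((Er s)⁻¹ : ℂ) * NN V' s t).re = _
    rw [← Complex.ofReal_inv, Complex.re_ofReal_mul]
  have hG : ∀ p : ℝ × ℝ, AnalyticAt ℝ (fun p : ℝ × ℝ => h p.2 + (W p.1 p.2).re) p := by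
    intro p
    have h1 : AnalyticAt ℝ (fun p : ℝ × ℝ => h p.2) p :=
      AnalyticAt.comp (g := h) (f := Prod.snd) (B.an p.2) analyticAt_snd
    have h2 : AnalyticAt ℝ (fun p : ℝ × ℝ => (Er p.1)⁻¹ * (NN V' p.1 p.2).re) p :=
      ((Er_analytic p).inv (Er_pos p.1).ne').mul (NN_real_analytic hd hε hb p)
    have h3 : (fun p : ℝ × ℝ => h p.2 + (W p.1 p.2).re) = fun p : ℝ × ℝ => h p.2 + (Er p.1)⁻¹ * (NN V' p.1 p.2).re := by
      funext p
      rw [hWre]
    rw [h3]
    exact h1.add h2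
  have hc2 : 0 < c / 2 := by have := B.cpos; linarith
  obtain ⟨g, hg1, hg2, hg3⟩ := family_inverse (fun s t => h t + (W s t).re) hG (c / 2) hc2
    (fun s z => B.deriv_add (hW s) z)
  have hgA : ∀ s, IsA (g s) := by
    intro s
    obtain ⟨f, hf, hfv⟩ := B.perm (hW s)
    have : g s = f := by
      ext t
      rw [hg1, hfv]
    rw [this]; exact hf
  refine ⟨g, hgA, ?_, ?_, hg3, ?_⟩
  · intro s i
    rw [hg1, hWre]
    have : NN V' s (x i) = 0 := by
      unfold NN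
      have h1 : (fun n => psi n s * V' n (x i)) = fun _ => 0 := by
        funext n
        show psi n s * Vs n.unpair.1 (x i) = 0
        rw [(hVs n.unpair.1).2.2.1 i, mul_zero]
      rw [h1, tsum_zero]
    rw [this, Complex.zero_re, mul_zero, add_zero]
  · intro p
    have h1 : (fun p : ℝ × ℝ => g p.1 p.2) = fun p : ℝ × ℝ => h p.2 + (W p.1 p.2).re := by
      funext p; rw [hg1]
    rw [h1]; exact hG p
  · intro V hV
    -- the closure statement
    let Gm : ℝ → (ℚ → ℝ) := fun s r => g s r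
    have hk : ∀ k : ℕ, (fun r : ℚ => h r + (Vs k ((r : ℝ) : ℂ)).re) ∈ closure (range Gm) := by
      intro k
      apply mem_closure_of_tendsto (f := fun j : ℕ => Gm (sm (Nat.pair k j))) (b := atTop)
      · rw [tendsto_pi_nhds]
        intro r
        have h1 : ∀ j : ℕ, |Gm (sm (Nat.pair k j)) r - (h r + (Vs k ((r : ℝ) : ℂ)).re)| ≤ 4 * ε * (1 / 4) ^ j := by
          intro j
          have h2 := NN_sm hε hb (Nat.pair k j) (r : ℝ)
          have h3 : V' (Nat.pair k j) = Vs k := by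
            show Vs (Nat.pair k j).unpair.1 = Vs k
            rw [Nat.unpair_pair]
          rw [h3] at h2
          have h4 : Gm (sm (Nat.pair k j)) r - (h r + (Vs k ((r : ℝ) : ℂ)).re) =
              (((Er (sm (Nat.pair k j)))⁻¹ : ℂ) * NN V' (sm (Nat.pair k j)) (r : ℝ) - Vs k (r : ℝ)).re := by
            show g _ _ - _ = _
            rw [hg1, Complex.sub_re]
            show h r + (W (sm (Nat.pair k j)) (r : ℝ)).re - _ = (W (sm (Nat.pair k j)) (r : ℝ)).re - _
            ring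
          rw [h4]
          refine (Complex.abs_re_le_norm _).trans (h2.trans ?_)
          apply mul_le_mul_of_nonneg_left _ (by positivity)
          exact pow_le_pow_of_le_one (by norm_num) (by norm_num) (Nat.right_le_pair k j)
        rw [tendsto_iff_norm_sub_tendsto_zero]
        refine squeeze_zero (fun _ => norm_nonneg _) (fun j => ?_) (?_ : Tendsto (fun j : ℕ => 4 * ε * (1 / 4 : ℝ) ^ j) atTop (𝓝 0))
        · rw [Real.norm_eq_abs]
          exact h1 j
        · have := (tendsto_pow_atTop_nhds_zero_of_lt_one (r := (1 / 4 : ℝ)) (by norm_num) (by norm_num)).const_mul (4 * ε)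
          simpa using this
      · exact Eventually.of_forall fun j => mem_range_self _
    have hcl : (fun r : ℚ => PP h V r) ∈ closure (range Gm) := by
      have h1 := hdense V hV
      have hΘ : Continuous (fun f : ℚ → ℝ => fun r : ℚ => h r + f r) := by
        apply continuous_pi
        intro r
        exact continuous_const.add (continuous_apply r)
      have h2 := image_closure_subset_closure_image hΘ (mem_image_of_mem _ h1)
      have h3 : (fun r : ℚ => PP h V r) = (fun f : ℚ → ℝ => fun r : ℚ => h r + f r) (fun r : ℚ => (V ((r : ℝ) : ℂ)).re) := by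
        funext r
        rw [(PP_spec B (VV.good hV)).2]
      rw [h3]
      refine closure_minimal ?_ isClosed_closure h2
      rintro _ ⟨_, ⟨k, rfl⟩, rfl⟩
      exact hk k
    refine ⟨comap Gm (𝓝 (fun r : ℚ => PP h V r)), ?_, ?_⟩
    · rw [comap_neBot_iff]
      intro t ht
      obtain ⟨_, h1, ⟨s, rfl⟩⟩ := mem_closure_iff_nhds.1 hcl t ht
      exact ⟨s, h1⟩
    · intro r
      have h1 : Tendsto Gm (comap Gm (𝓝 (fun r : ℚ => PP h V r))) (𝓝 (fun r : ℚ => PP h V r)) := tendsto_comap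
      exact (tendsto_pi_nhds.1 h1) r


end Pool.Agent.Helper356.Circ
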