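import Mathlib
import Pool.Agent.Helper356.Circ3

set_option autoImplicit false

open Set Filter Topology

namespace Pool.Agent.Helper356.Circ

section conv
variable {G : ℝ → Equiv.Perm ℝ} (hG : ∀ s, StrictMono (G s)) {h0 : Equiv.Perm ℝ} (hm : StrictMono h0)
  {F : Filter ℝ} (hF : ∀ r : ℚ, Tendsto (fun s => G s r) F (𝓝 (h0 r)))

include hG hm hF

lemma conv_fwd {u : ℝ → ℝ} {u0 : ℝ} (hu : Tendsto u F (𝓝 u0)) :
    Tendsto (fun s => G s (u s)) F (𝓝 (h0 u0)) := by
  rw [tendsto_order]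
  constructor
  · intro a ha
    have h1 : h0.symm a < u0 := by
      rw [← hm.lt_iff_lt, Equiv.apply_symm_apply]; exact ha
    obtain ⟨r, hr1, hr2⟩ := exists_rat_btwn h1
    have h2 : a < h0 r := by
      rw [← hm.lt_iff_lt, Equiv.apply_symm_apply] at hr1; exact hr1
    filter_upwards [(hF r).eventually_const_lt h2, hu.eventually_const_lt hr2] with s hs1 hs2
    exact hs1.trans (hG s hs2)
  · intro a ha
    have h1 : u0 < h0.symm a := by
      rw [← hm.lt_iff_lt, Equiv.apply_symm_apply]; exact ha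
    obtain ⟨r, hr1, hr2⟩ := exists_rat_btwn h1
    have h2 : h0 r < a := by
      rw [← hm.lt_iff_lt, Equiv.apply_symm_apply] at hr2; exact hr2
    filter_upwards [(hF r).eventually_lt_const h2, hu.eventually_lt_const hr1] with s hs1 hs2
    exact (hG s hs2).trans hs1

lemma conv_bwd {u : ℝ → ℝ} {u0 : ℝ} (hu : Tendsto u F (𝓝 u0)) :
    Tendsto (fun s => (G s).symm (u s)) F (𝓝 (h0.symm u0)) := by
  rw [tendsto_order]
  constructor
  · intro a ha
    obtain ⟨r, hr1, hr2⟩ := exists_rat_btwn ha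
    have h2 : h0 r < u0 := by
      have := hm hr2
      rwa [Equiv.apply_symm_apply] at this
    have h3 : Tendsto (fun s => u s - G s r) F (𝓝 (u0 - h0 r)) := hu.sub (hF r)
    filter_upwards [h3.eventually_const_lt (sub_pos.2 h2)] with s hs
    refine hr1.trans ?_
    rw [← (hG s).lt_iff_lt, Equiv.apply_symm_apply]
    linarith
  · intro a ha
    obtain ⟨r, hr1, hr2⟩ := exists_rat_btwn ha
    have h2 : u0 < h0 r := by
      have := hm hr1
      rwa [Equiv.apply_symm_apply] at this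
    have h3 : Tendsto (fun s => G s r - u s) F (𝓝 (h0 r - u0)) := (hF r).sub hu
    filter_upwards [h3.eventually_const_lt (sub_pos.2 h2)] with s hs
    refine lt_trans ?_ hr2
    rw [← (hG s).lt_iff_lt, Equiv.apply_symm_apply]
    linarith

lemma conv_act : ∀ (w : List (Bool × Equiv.Perm ℝ)), (∀ l ∈ w, IsA l.2) →
    ∀ {u : ℝ → ℝ} {u0 : ℝ}, Tendsto u F (𝓝 u0) →
    Tendsto (fun s => act (G s) w (u s)) F (𝓝 (act h0 w u0)) := by
  intro w
  induction w with
  | nil => intro _ u u0 hu; exact hu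
  | cons l w ih =>
    obtain ⟨b, γ⟩ := l
    intro hall u u0 hu
    have hγ : IsA γ := hall (b, γ) List.mem_cons_self
    have h1 : Tendsto (fun s => pw (G s) b (u s)) F (𝓝 (pw h0 b u0)) := by
      cases b with
      | true => exact conv_fwd hG hm hF hu
      | false => exact conv_bwd hG hm hF hu
    have h2 : Tendsto (fun s => γ (pw (G s) b (u s))) F (𝓝 (γ (pw h0 b u0))) :=
      (hγ.an (pw h0 b u0)).continuousAt.tendsto.comp h1
    exact ih (fun l hl => hall l (List.mem_cons_of_mem _ hl)) h2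

end conv

section an
variable {g : ℝ → Equiv.Perm ℝ} (hg1 : ∀ p : ℝ × ℝ, AnalyticAt ℝ (fun p : ℝ × ℝ => g p.1 p.2) p)
  (hg2 : ∀ p : ℝ × ℝ, AnalyticAt ℝ (fun p : ℝ × ℝ => (g p.1).symm p.2) p)

include hg1 hg2

lemma an_act : ∀ (w : List (Bool × Equiv.Perm ℝ)), (∀ l ∈ w, IsA l.2) →
    ∀ {u : ℝ → ℝ}, (∀ s, AnalyticAt ℝ u s) → ∀ s, AnalyticAt ℝ (fun s => act (g s) w (u s)) s := by
  intro w
  induction w with
  | nil => intro _ u hu s; exact hu s
  | cons l w ih =>
    obtain ⟨b, γ⟩ := l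
    intro hall u hu
    have hγ : IsA γ := hall (b, γ) List.mem_cons_self
    have h0 : ∀ s, AnalyticAt ℝ (fun s => ((s, u s) : ℝ × ℝ)) s := fun s => analyticAt_id.prod (hu s)
    have h1 : ∀ s, AnalyticAt ℝ (fun s => pw (g s) b (u s)) s := by
      intro s
      cases b with
      | true => exact AnalyticAt.comp (g := fun p : ℝ × ℝ => g p.1 p.2) (f := fun s => (s, u s)) (hg1 (s, u s)) (h0 s)
      | false => exact AnalyticAt.comp (g := fun p : ℝ × ℝ => (g p.1).symm p.2) (f := fun s => (s, u s)) (hg2 (s, u s)) (h0 s)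
    have h2 : ∀ s, AnalyticAt ℝ (fun s => γ (pw (g s) b (u s))) s := by
      intro s
      exact (hγ.an _).comp (h1 s)
    exact ih (fun l hl => hall l (List.mem_cons_of_mem _ hl)) h2

end an

/-- a point not congruent to the constrained ones -/
lemma exists_index {n : ℕ} {p : Fin (n + 1) → ℝ} (hp : p ∈ Cfg (n + 1)) {γ : Equiv.Perm ℝ} (hγ : IsA γ)
    (x : Fin n → ℝ) : ∃ i, ∀ j, ∀ m : ℤ, γ (p i) ≠ x j + m * (2 * Real.pi) := by
  by_contra hcon
  push Not at hcon
  choose j m hjm using hcon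
  obtain ⟨i, i', hne, hjj⟩ := Fintype.exists_ne_map_eq_of_card_lt j (by simp)
  have h1 : γ (p i) = γ (p i') + ((m i - m i' : ℤ) : ℝ) * (2 * Real.pi) := by
    rw [hjm i, hjm i', hjj]
    push_cast
    ring
  rw [← hγ.per_int] at h1
  have h2 := γ.injective h1
  exact cfg_ne hp hne.symm _ h2

theorem bad_countable {h0 : Equiv.Perm ℝ} {c ε : ℝ} (B : Base h0 c ε) {n : ℕ} (x : Fin n → ℝ)
    {g : ℝ → Equiv.Perm ℝ} (hgA : ∀ s, IsA (g s)) 
    (hg1 : ∀ p : ℝ × ℝ, AnalyticAt ℝ (fun p : ℝ × ℝ => g p.1 p.2) p)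
    (hg2 : ∀ p : ℝ × ℝ, AnalyticAt ℝ (fun p : ℝ × ℝ => (g p.1).symm p.2) p)
    (hgd : ∀ V ∈ VV x ε, ∃ F : Filter ℝ, F.NeBot ∧ ∀ r : ℚ, Tendsto (fun s => g s r) F (𝓝 (PP h0 V r)))
    (b : Bool) (γ : Equiv.Perm ℝ) (w : List (Bool × Equiv.Perm ℝ))
    (hall : ∀ l ∈ (b, γ) :: w, IsA l.2) (hch : List.IsChain RR ((b, γ) :: w))
    {p : Fin (n + 1) → ℝ} (hp : p ∈ Cfg (n + 1)) (q : Fin (n + 1) → ℝ) {γ' : Equiv.Perm ℝ} (hγ' : IsA γ') :
    {s | ∀ i, act (g s) ((b, γ) :: w) (γ' (p i)) = q i}.Countable := by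
  classical
  have hzero : PP h0 (fun _ => 0) = h0 := by
    ext t
    rw [(PP_spec B (goodW_zero B.eps.le)).2]
    simp
  obtain ⟨i, hi⟩ := exists_index hp hγ' (fun j => if b then x j else h0 (x j))
  set u := γ' (p i) with hu
  have hcond : ∀ a ∈ Finset.univ.image x, ∀ m : ℤ,
      (if b then u else (PP h0 (fun _ => 0))⁻¹ u) ≠ a + m * (2 * Real.pi) := by
    intro a ha m
    obtain ⟨j, -, rfl⟩ := Finset.mem_image.1 ha
    have h1 := hi j m
    cases b with
    | true => simpa using h1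
    | false =>
      simp only [Bool.false_eq_true, if_false] at h1 ⊢
      intro h2
      apply h1
      have hIs : IsA h0 := by
        have := (PP_spec B (goodW_zero B.eps.le)).1
        rwa [hzero] at this
      rw [hzero] at h2
      have h3 : h0.symm u = x j + m * (2 * Real.pi) := h2
      rw [Equiv.symm_apply_eq, hIs.per_int] at h3
      exact h3
  obtain ⟨V, hV, -, hVq⟩ := exists_move B w b γ hall hch (fun _ => 0) (VV.zero x B.eps)
    (Finset.univ.image x) (fun i => Finset.mem_image_of_mem x (Finset.mem_univ i)) u hcond (q i)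
  have hsub : {s | ∀ i, act (g s) ((b, γ) :: w) (γ' (p i)) = q i} ⊆
      {s | act (g s) ((b, γ) :: w) u - q i = 0} := by
    intro s hs
    have := hs i
    show act (g s) ((b, γ) :: w) u - q i = 0
    rw [this, sub_self]
  refine Set.Countable.mono hsub ?_
  apply countable_zeros (f := fun s => act (g s) ((b, γ) :: w) u - q i)
  · intro s
    exact (an_act hg1 hg2 _ hall (u := fun _ => u) (fun _ => analyticAt_const) s).sub analyticAt_const
  · by_contra hcon
    push Not at hcon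
    apply hVq
    obtain ⟨F, hF, hFt⟩ := hgd V hV
    have h1 : Tendsto (fun s => act (g s) ((b, γ) :: w) u) F (𝓝 (act (PP h0 V) ((b, γ) :: w) u)) :=
      conv_act (fun s => (hgA s).mono) (PP_spec B (VV.good hV)).1.mono hFt _ hall tendsto_const_nhds
    have h2 : (fun s => act (g s) ((b, γ) :: w) u) = fun _ => q i := by
      funext s
      have := hcon s
      linarith
    rw [h2] at h1
    exact tendsto_nhds_unique h1 tendsto_const_nhds |>.symm ▸ rfl


/-- normal forms -/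
def NF (g : Equiv.Perm ℝ) (Γ : Subgroup (Equiv.Perm ℝ)) (f : Equiv.Perm ℝ) : Prop :=
  ∃ w : List (Bool × Equiv.Perm ℝ), (∀ l ∈ w, l.2 ∈ Γ) ∧ w.IsChain RR ∧
    ∃ γ' ∈ Γ, ∀ t, f t = act g w (γ' t)

lemma NF.step {g : Equiv.Perm ℝ} {Γ : Subgroup (Equiv.Perm ℝ)} (hg : IsA g)
    {f : Equiv.Perm ℝ} (h : NF g Γ f) (b : Bool) : NF g Γ (f * pw g b) := by
  obtain ⟨w, hw, hch, γ', hγ', hf⟩ := h
  have hf' : ∀ t, (f * pw g b) t = act g ((b, γ') :: w) ((1 : Equiv.Perm ℝ) t) := by
    intro t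
    rw [Equiv.Perm.mul_apply, hf]
    rfl
  by_cases hR : ((b, γ') :: w).IsChain RR
  · refine ⟨(b, γ') :: w, ?_, hR, 1, Γ.one_mem, hf'⟩
    intro l hl
    rcases List.mem_cons.1 hl with rfl | hl
    · exact hγ'
    · exact hw l hl
  · cases w with
    | nil => exact absurd (List.isChain_singleton _) hR
    | cons l w =>
      obtain ⟨b', γ2⟩ := l
      rw [List.isChain_cons_cons] at hR
      have hRR : ¬ RR (b, γ') (b', γ2) := fun h => hR ⟨h, hch⟩
      unfold RR at hRR
      push Not at hRR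
      obtain ⟨hbb, m, hm⟩ := hRR
      have hm' : Tr ^ m = γ' := hm
      have hcomm : ∀ t, pw g b' (γ' (pw g b t)) = γ' t := by
        intro t
        have h1 : ∀ (e : Bool) (t : ℝ), pw g e (γ' t) = γ' (pw g e t) := by
          intro e t
          rw [← hm', Tr_pow, Tr_pow]
          cases e with
          | true => exact hg.per_int m t
          | false => exact hg.inv.per_int m t
        rw [h1]
        congr 1
        simp only at hbb
        cases b with
        | true =>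
          have : b' = false := by simpa using hbb.symm
          subst this
          exact g.symm_apply_apply t
        | false =>
          have : b' = true := by simpa using hbb.symm
          subst this
          exact g.apply_symm_apply t
      refine ⟨w, fun l hl => hw l (List.mem_cons_of_mem _ hl), ?_, γ2 * γ', ?_, ?_⟩
      · exact hch.tail
      · exact Γ.mul_mem (hw (b', γ2) List.mem_cons_self) hγ'
      · intro t
        rw [hf']
        show act g w (γ2 (pw g b' (γ' (pw g b t)))) = _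
        rw [hcomm]
        rfl

lemma NF.mem {g : Equiv.Perm ℝ} {Γ : Subgroup (Equiv.Perm ℝ)} (hg : IsA g)
    {f : Equiv.Perm ℝ} (hf : f ∈ Subgroup.closure (insert g (Γ : Set (Equiv.Perm ℝ)))) : NF g Γ f := by
  have hright : ∀ x, NF g Γ x → ∀ γ ∈ Γ, NF g Γ (x * γ) := by
    rintro x ⟨w, hw, hch, γ', hγ', hx⟩ γ hγ
    refine ⟨w, hw, hch, γ' * γ, Γ.mul_mem hγ' hγ, fun t => ?_⟩
    rw [Equiv.Perm.mul_apply, hx]
    rfl
  induction hf using Subgroup.closure_induction_right with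
  | one => exact ⟨[], by simp, List.isChain_nil, 1, Γ.one_mem, fun t => rfl⟩
  | mul_right x hx y hy ih =>
    rcases hy with rfl | hy
    · exact NF.step hg ih true
    · exact hright x ih y hy
  | mul_inv_cancel x hx y hy ih =>
    rcases hy with rfl | hy
    · exact NF.step hg ih false
    · exact hright x ih y⁻¹ (Γ.inv_mem hy)

open Cardinal in
theorem one_step {Γ : Subgroup (Equiv.Perm ℝ)} (hΓ : Γ ≤ AA) (hcard : #Γ < 𝔠)
    {n : ℕ} {p : Fin (n + 1) → ℝ} (hp : p ∈ Cfg (n + 1)) {q : Fin (n + 1) → ℝ}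
    (hno : ∀ γ ∈ Γ, ¬ ∀ i, γ (p i) = q i) {x y : Fin n → ℝ} (hx : x ∈ Cfg n) (hy : y ∈ Cfg n) :
    ∃ g : Equiv.Perm ℝ, IsA g ∧ (∀ i, g (x i) = y i) ∧
      ∀ f ∈ Subgroup.closure (insert g (Γ : Set (Equiv.Perm ℝ))), ¬ ∀ i, f (p i) = q i := by
  obtain ⟨h0, hh0, hh0x⟩ := trans_cfg hx hy
  obtain ⟨c, ε, B⟩ := hh0.base
  obtain ⟨g, hgA, hgx, hg1, hg2, hgd⟩ := dense_family B x
  let ι := (Bool × Γ) × List (Bool × Γ) × Γ
  let cv : (Bool × Γ) → Bool × Equiv.Perm ℝ := fun l => (l.1, (l.2 : Equiv.Perm ℝ))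
  let Bad : ι → Set ℝ := fun k => {s | List.IsChain RR ((k.1 :: k.2.1).map cv) ∧
    ∀ i, act (g s) ((k.1 :: k.2.1).map cv) ((k.2.2 : Equiv.Perm ℝ) (p i)) = q i}
  have hBad : ∀ k, (Bad k).Countable := by
    intro k
    by_cases hch : List.IsChain RR ((k.1 :: k.2.1).map cv)
    · refine Set.Countable.mono (fun s hs => hs.2) (bad_countable B x hgA hg1 hg2 hgd k.1.1 (k.1.2 : Equiv.Perm ℝ)
        (k.2.1.map cv) ?_ hch hp q (hΓ k.2.2.2))
      intro l hl
      have hl' : l ∈ (k.1 :: k.2.1).map cv := hl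
      obtain ⟨l0, -, rfl⟩ := List.mem_map.1 hl'
      exact hΓ l0.2.2
    · have : Bad k = ∅ := by
        ext s
        simp only [Bad, mem_ofPred_eq, mem_empty_iff_false, iff_false]
        exact fun h => hch h.1
      rw [this]
      exact countable_empty
  have hι : #ι < 𝔠 := by
    have h1 : #(Bool × Γ) < 𝔠 := by
      rw [Cardinal.mk_prod, Cardinal.lift_id, Cardinal.lift_id]
      exact Cardinal.mul_lt_of_lt Cardinal.aleph0_le_continuum
        (lt_of_lt_of_le (Cardinal.lt_aleph0_of_finite Bool) Cardinal.aleph0_le_continuum) hcard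
    have h2 : #(List (Bool × Γ)) < 𝔠 :=
      lt_of_le_of_lt (Cardinal.mk_list_le_max _) (max_lt Cardinal.aleph0_lt_continuum h1)
    have h3 : #(List (Bool × Γ) × Γ) < 𝔠 := by
      rw [Cardinal.mk_prod, Cardinal.lift_id, Cardinal.lift_id]
      exact Cardinal.mul_lt_of_lt Cardinal.aleph0_le_continuum h2 hcard
    show #((Bool × Γ) × (List (Bool × Γ) × Γ)) < 𝔠
    rw [Cardinal.mk_prod, Cardinal.lift_id, Cardinal.lift_id]
    exact Cardinal.mul_lt_of_lt Cardinal.aleph0_le_continuum h1 h3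
  have hU : #(⋃ k, Bad k) < 𝔠 := by
    refine lt_of_le_of_lt (Cardinal.mk_iUnion_le _) ?_
    refine Cardinal.mul_lt_of_lt Cardinal.aleph0_le_continuum hι ?_
    refine lt_of_le_of_lt ?_ Cardinal.aleph0_lt_continuum
    exact ciSup_le' (fun k => (Cardinal.le_aleph0_iff_set_countable).2 (hBad k))
  have hex : ∃ s, s ∉ ⋃ k, Bad k := by
    by_contra hcon
    push Not at hcon
    have h1 : (⋃ k, Bad k) = Set.univ := eq_univ_of_forall hcon
    rw [h1, Cardinal.mk_univ, Cardinal.mk_real] at hU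
    exact lt_irrefl _ hU
  obtain ⟨s, hs⟩ := hex
  refine ⟨g s, hgA s, fun i => by rw [hgx, hh0x], ?_⟩
  intro f hf hfp
  obtain ⟨w, hw, hch, γ', hγ', hfa⟩ := NF.mem (hgA s) hf
  cases w with
  | nil =>
    refine hno γ' hγ' (fun i => ?_)
    rw [← hfp i, hfa]
    rfl
  | cons l w =>
    apply hs
    -- lift the list
    have hlift : ∀ w : List (Bool × Equiv.Perm ℝ), (∀ l ∈ w, l.2 ∈ Γ) → ∃ w' : List (Bool × Γ), w'.map cv = w := by
      intro w
      induction w with
      | nil => intro _; exact ⟨[], rfl⟩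
      | cons l w ih =>
        intro hw
        obtain ⟨w', hw'⟩ := ih (fun l hl => hw l (List.mem_cons_of_mem _ hl))
        refine ⟨(l.1, ⟨l.2, hw l List.mem_cons_self⟩) :: w', ?_⟩
        rw [List.map_cons, hw']
    obtain ⟨w', hw'⟩ := hlift w (fun l hl => hw l (List.mem_cons_of_mem _ hl))
    rw [mem_iUnion]
    refine ⟨((l.1, ⟨l.2, hw l List.mem_cons_self⟩), w', ⟨γ', hγ'⟩), ?_, ?_⟩
    · rw [List.map_cons, hw']
      exact hch
    · intro i
      rw [List.map_cons, hw']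
      rw [← hfp i, hfa]


open Cardinal in
lemma closure_card {s : Set (Equiv.Perm ℝ)} (hs : s.Nonempty) (h : #s < 𝔠) : #(Subgroup.closure s) < 𝔠 := by
  have : Nonempty s := hs.to_subtype
  have h1 : #(Subgroup.closure s) ≤ #(FreeGroup s) := by
    rw [FreeGroup.closure_eq_range]
    exact Cardinal.mk_le_of_surjective (FreeGroup.lift ((↑) : s → Equiv.Perm ℝ)).rangeRestrict_surjective
  refine lt_of_le_of_lt h1 ?_
  rw [Cardinal.mk_freeGroup]
  exact max_lt h Cardinal.aleph0_lt_continuum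

open Cardinal in
theorem exists_group {n : ℕ} {p q : Fin (n + 1) → ℝ} (hp : p ∈ Cfg (n + 1))
    (hpq : ∀ m : ℤ, ¬ ∀ i, (Tr ^ m) (p i) = q i) :
    ∃ Γ : Subgroup (Equiv.Perm ℝ), Γ ≤ AA ∧ Tr ∈ Γ ∧
      (∀ x ∈ Cfg n, ∀ y ∈ Cfg n, ∃ g ∈ Γ, ∀ i, g (x i) = y i) ∧ ∀ γ ∈ Γ, ¬ ∀ i, γ (p i) = q i := by
  classical
  let X := ↥(Cfg n) × ↥(Cfg n)
  let κ := #X
  have hκ : κ ≤ 𝔠 := by
    have h1 : #(Cfg n) ≤ 𝔠 := by
      refine (Cardinal.mk_set_le _).trans ?_
      rw [Cardinal.mk_arrow, Cardinal.lift_id, Cardinal.lift_id, Cardinal.mk_real, Cardinal.mk_fin]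
      exact Cardinal.power_nat_le Cardinal.aleph0_le_continuum
    show #(↥(Cfg n) × ↥(Cfg n)) ≤ 𝔠
    rw [← Cardinal.mul_def]
    exact (mul_le_mul' h1 h1).trans (Cardinal.continuum_mul_self).le
  let I := κ.ord.ToType
  have hI : #I = κ := by
    rw [Cardinal.mk_toType, Cardinal.card_ord]
  obtain ⟨e⟩ : Nonempty (I ≃ X) := Cardinal.eq.1 hI
  have hIio : ∀ i : I, #(Iio i) < 𝔠 := fun i =>
    lt_of_lt_of_le ((Cardinal.mk_Iio_lt i (by rw [hI, Ordinal.type_toType])).trans_eq hI) hκ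
  let cl : Set (Equiv.Perm ℝ) → Subgroup (Equiv.Perm ℝ) := fun s => Subgroup.closure ({Tr} ∪ s)
  let Good : I → Subgroup (Equiv.Perm ℝ) → Equiv.Perm ℝ → Prop := fun i Γ g =>
    IsA g ∧ (∀ k, g ((e i).1.1 k) = (e i).2.1 k) ∧
      ∀ f ∈ Subgroup.closure (insert g (Γ : Set (Equiv.Perm ℝ))), ¬ ∀ k, f (p k) = q k
  let step : ∀ i : I, (∀ j, j < i → Equiv.Perm ℝ) → Equiv.Perm ℝ := fun i prev =>
    if h : ∃ g, Good i (cl {f | ∃ j, ∃ hj : j < i, f = prev j hj}) g then h.choose else 1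
  let g : I → Equiv.Perm ℝ := WellFounded.fix (wellFounded_lt (α := I)) step
  have hg : ∀ i, g i = step i (fun j _ => g j) := fun i => WellFounded.fix_eq _ _ i
  let ΓL : I → Subgroup (Equiv.Perm ℝ) := fun i => cl {f | ∃ j, ∃ _ : j < i, f = g j}
  let ΓR : I → Subgroup (Equiv.Perm ℝ) := fun i => Subgroup.closure (insert (g i) (ΓL i : Set (Equiv.Perm ℝ)))
  have hLR : ∀ i, ΓL i ≤ ΓR i := fun i f hf => Subgroup.subset_closure (mem_insert_of_mem _ hf)
  have hRL : ∀ i j, i < j → ΓR i ≤ ΓL j := by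
    intro i j hij
    rw [Subgroup.closure_le]
    intro f hf
    rcases hf with rfl | hf
    · exact Subgroup.subset_closure (Or.inr ⟨i, hij, rfl⟩)
    · refine Subgroup.closure_mono ?_ hf
      rintro f (hf | ⟨k, hk, rfl⟩)
      · exact Or.inl hf
      · exact Or.inr ⟨k, hk.trans hij, rfl⟩
  have hRR : ∀ i j, i ≤ j → ΓR i ≤ ΓR j := by
    intro i j hij
    rcases hij.eq_or_lt with rfl | hij
    · exact le_rfl
    · exact (hRL i j hij).trans (hLR j)
  have hdir : ∀ (J : Set I) (f : Equiv.Perm ℝ), f ∈ cl {f | ∃ j ∈ J, f = g j} →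
      (∃ m : ℤ, f = Tr ^ m) ∨ ∃ j ∈ J, f ∈ ΓR j := by
    intro J f hf
    have hTrR : ∀ j, ∀ m : ℤ, Tr ^ m ∈ ΓR j := fun j m =>
      (ΓR j).zpow_mem (hLR j (Subgroup.subset_closure (Or.inl rfl))) m
    induction hf using Subgroup.closure_induction with
    | mem x hx =>
      rcases hx with hx | ⟨j, hj, rfl⟩
      · left
        exact ⟨1, by rw [zpow_one]; exact hx⟩
      · right
        exact ⟨j, hj, Subgroup.subset_closure (mem_insert _ _)⟩
    | one => left; exact ⟨0, by rw [zpow_zero]⟩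
    | mul x y hx hy ihx ihy =>
      rcases ihx with ⟨m, rfl⟩ | ⟨j, hj, hxj⟩ <;> rcases ihy with ⟨m', rfl⟩ | ⟨k, hk, hyk⟩
      · left; exact ⟨m + m', by rw [zpow_add]⟩
      · right; exact ⟨k, hk, (ΓR k).mul_mem (hTrR k m) hyk⟩
      · right; exact ⟨j, hj, (ΓR j).mul_mem hxj (hTrR j m')⟩
      · right
        rcases le_total j k with h | h
        · exact ⟨k, hk, (ΓR k).mul_mem (hRR j k h hxj) hyk⟩
        · exact ⟨j, hj, (ΓR j).mul_mem hxj (hRR k j h hyk)⟩
    | inv x hx ihx =>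
      rcases ihx with ⟨m, rfl⟩ | ⟨j, hj, hxj⟩
      · left; exact ⟨-m, by rw [zpow_neg]⟩
      · right; exact ⟨j, hj, (ΓR j).inv_mem hxj⟩
  have hgood : ∀ i, Good i (ΓL i) (g i) := by
    intro i
    induction i using WellFoundedLT.induction with
    | ind i ih =>
      have hex : ∃ g', Good i (ΓL i) g' := by
        have h1 : ΓL i ≤ AA := by
          show Subgroup.closure _ ≤ AA
          rw [Subgroup.closure_le]
          rintro f (hf | ⟨j, hj, rfl⟩)
          · have : f = Tr := hf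
            rw [this]
            exact isA_Tr
          · exact (ih j hj).1
        have h2 : #(ΓL i) < 𝔠 := by
          apply closure_card ⟨Tr, Or.inl rfl⟩
          have h3 : {f | ∃ j, ∃ _ : j < i, f = g j} = g '' (Iio i) := by
            ext f
            constructor
            · rintro ⟨j, hj, rfl⟩
              exact ⟨j, hj, rfl⟩
            · rintro ⟨j, hj, rfl⟩
              exact ⟨j, hj, rfl⟩
          rw [h3]
          refine lt_of_le_of_lt (Cardinal.mk_union_le _ _) ?_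
          refine Cardinal.add_lt_of_lt Cardinal.aleph0_le_continuum ?_ ?_
          · rw [Cardinal.mk_singleton]
            exact lt_of_lt_of_le Cardinal.one_lt_aleph0 Cardinal.aleph0_le_continuum
          · exact lt_of_le_of_lt Cardinal.mk_image_le (hIio i)
        have h3 : ∀ γ ∈ ΓL i, ¬ ∀ k, γ (p k) = q k := by
          intro γ hγ
          have h4 : γ ∈ cl {f | ∃ j ∈ Iio i, f = g j} := by
            refine Subgroup.closure_mono ?_ hγ
            rintro f (hf | ⟨k, hk, rfl⟩)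
            · exact Or.inl hf
            · exact Or.inr ⟨k, hk, rfl⟩
          rcases hdir (Iio i) γ h4 with ⟨m, rfl⟩ | ⟨j, hj, hγj⟩
          · exact hpq m
          · exact (ih j hj).2.2 γ hγj
        exact one_step h1 h2 hp h3 (e i).1.2 (e i).2.2
      rw [hg i]
      show Good i (ΓL i) (if h : ∃ g', Good i (ΓL i) g' then h.choose else 1)
      rw [dif_pos hex]
      exact hex.choose_spec
  refine ⟨cl {f | ∃ j ∈ (Set.univ : Set I), f = g j}, ?_, Subgroup.subset_closure (Or.inl rfl), ?_, ?_⟩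
  · show Subgroup.closure _ ≤ AA
    rw [Subgroup.closure_le]
    rintro f (hf | ⟨j, hj, rfl⟩)
    · have : f = Tr := hf
      rw [this]
      exact isA_Tr
    · exact (hgood j).1
  · intro x hx y hy
    refine ⟨g (e.symm (⟨x, hx⟩, ⟨y, hy⟩)), Subgroup.subset_closure (Or.inr ⟨_, Set.mem_univ _, rfl⟩), ?_⟩
    have h1 := (hgood (e.symm (⟨x, hx⟩, ⟨y, hy⟩))).2.1
    rw [Equiv.apply_symm_apply] at h1
    exact h1
  · intro γ hγ
    rcases hdir Set.univ γ hγ with ⟨m, rfl⟩ | ⟨j, -, hγj⟩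
    · exact hpq m
    · exact (hgood j).2.2 γ hγj

end Pool.Agent.Helper356.Circ
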