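import Mathlib
import Pool.Agent.Helper356.Circ3

set_option autoImplicit false

open Set Filter Topology

namespace Pool.Agent.Helper356.Circ

/-- the homeomorphism of the circle induced by a lift -/
lemma exists_homeo {f : Equiv.Perm ℝ} (hf : IsA f) :
    ∃ F : Circle ≃ₜ Circle, ∀ t, F (Circle.exp t) = Circle.exp (f t) := by
  have hsurj : ∀ z : Circle, ∃ t : ℝ, Circle.exp t = z := fun z => ⟨_, Circle.exp_arg z⟩
  have hper : ∀ {f : Equiv.Perm ℝ}, IsA f → ∀ s t : ℝ, Circle.exp s = Circle.exp t →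
      Circle.exp (f s) = Circle.exp (f t) := by
    intro f hf s t hst
    obtain ⟨m, hm⟩ := Circle.exp_eq_exp.1 hst
    rw [Circle.exp_eq_exp]
    exact ⟨m, by rw [hm, hf.per_int]⟩
  have hquot : Topology.IsQuotientMap (Circle.exp : ℝ → Circle) :=
    isLocalHomeomorph_circleExp.isOpenMap.isQuotientMap isLocalHomeomorph_circleExp.continuous
      (fun z => hsurj z)
  have key : ∀ {f : Equiv.Perm ℝ}, IsA f → ∃ F : Circle → Circle, Continuous F ∧
      ∀ t, F (Circle.exp t) = Circle.exp (f t) := by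
    intro f hf
    have h1 : ∀ t, Circle.exp (f (hsurj (Circle.exp t)).choose) = Circle.exp (f t) := fun t =>
      hper hf _ _ (hsurj (Circle.exp t)).choose_spec
    refine ⟨fun z => Circle.exp (f (hsurj z).choose), ?_, h1⟩
    rw [hquot.continuous_iff]
    have h2 : ((fun z => Circle.exp (f (hsurj z).choose)) ∘ (Circle.exp : ℝ → Circle)) =
        fun t => Circle.exp (f t) := funext h1
    rw [h2]
    have h3 : Continuous f := continuous_iff_continuousAt.2 fun y => (hf.an y).continuousAt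
    exact isLocalHomeomorph_circleExp.continuous.comp h3
  obtain ⟨F, hF, hFt⟩ := key hf
  obtain ⟨F', hF', hF't⟩ := key hf.inv
  refine ⟨{ toFun := F, invFun := F', left_inv := ?_, right_inv := ?_, continuous_toFun := hF,
            continuous_invFun := hF' }, hFt⟩
  · intro z
    obtain ⟨t, rfl⟩ := hsurj z
    rw [hFt, hF't]
    congr 1
    exact f.symm_apply_apply t
  · intro z
    obtain ⟨t, rfl⟩ := hsurj z
    rw [hF't, hFt]
    congr 1
    exact f.apply_symm_apply t

/-- the group of circle homeomorphisms with a lift in a given group -/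
def circGroup (Γ : Subgroup (Equiv.Perm ℝ)) : Subgroup (Circle ≃ₜ Circle) where
  carrier := {F | ∃ f ∈ Γ, ∀ t, F (Circle.exp t) = Circle.exp (f t)}
  mul_mem' := by
    rintro F G ⟨f, hf, hF⟩ ⟨g, hg, hG⟩
    refine ⟨f * g, Γ.mul_mem hf hg, fun t => ?_⟩
    show F (G (Circle.exp t)) = Circle.exp (f (g t))
    rw [hG, hF]
  one_mem' := ⟨1, Γ.one_mem, fun t => rfl⟩
  inv_mem' := by
    rintro F ⟨f, hf, hF⟩
    refine ⟨f⁻¹, Γ.inv_mem hf, fun t => ?_⟩
    show F.symm (Circle.exp t) = Circle.exp (f.symm t)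
    rw [Homeomorph.symm_apply_eq, hF, Equiv.apply_symm_apply]

lemma window {n : ℕ} {p q : Fin (n + 1) → ℝ} (hp : p ∈ Cfg (n + 1)) (hq : q ∈ Cfg (n + 1))
    {f : Equiv.Perm ℝ} (hf : IsA f) (h : ∀ i, Circle.exp (q i) = Circle.exp (f (p i))) :
    ∃ m : ℤ, ∀ i, (Tr ^ m * f) (p i) = q i := by
  choose m hm using fun i => Circle.exp_eq_exp.1 (h i)
  have hpi := Real.pi_pos
  have hall : ∀ i, m i = m 0 := by
    intro i
    have h1 : p 0 ≤ p i := hp.1.monotone (Fin.zero_le i)
    have h2 : p i < p 0 + 2 * Real.pi := hp.2 0 i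
    have h3 : q 0 ≤ q i := hq.1.monotone (Fin.zero_le i)
    have h4 : q i < q 0 + 2 * Real.pi := hq.2 0 i
    have h5 : f (p 0) ≤ f (p i) := hf.mono.monotone h1
    have h6 : f (p i) < f (p 0) + 2 * Real.pi := by
      rw [← hf.per]
      exact hf.mono h2
    rw [hm i, hm 0] at h3 h4
    have h7 : ((m i - m 0 : ℤ) : ℝ) * (2 * Real.pi) < 1 * (2 * Real.pi) := by
      push_cast; nlinarith
    have h8 : (-1 : ℝ) * (2 * Real.pi) < ((m i - m 0 : ℤ) : ℝ) * (2 * Real.pi) := by
      push_cast; nlinarith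
    have h9 : ((m i - m 0 : ℤ) : ℝ) < 1 := lt_of_mul_lt_mul_right h7 (by positivity)
    have h10 : (-1 : ℝ) < ((m i - m 0 : ℤ) : ℝ) := lt_of_mul_lt_mul_right h8 (by positivity)
    have h11 : m i - m 0 < 1 := by exact_mod_cast h9
    have h12 : -1 < m i - m 0 := by exact_mod_cast h10
    omega
  refine ⟨m 0, fun i => ?_⟩
  rw [Equiv.Perm.mul_apply, Tr_pow, hm i, hall i]

/-- the two configurations -/
noncomputable def pp : Fin 5 → ℝ := fun i => (i : ℕ)

noncomputable def qq : Fin 5 → ℝ := fun i => if i = 4 then 5 else (i : ℕ)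

lemma pp_mem : pp ∈ Cfg 5 := by
  have hpi := Real.pi_gt_three
  refine ⟨?_, ?_⟩
  · intro i j hij
    have : (i : ℕ) < (j : ℕ) := hij
    show ((i : ℕ) : ℝ) < ((j : ℕ) : ℝ)
    exact_mod_cast this
  · intro i j
    show ((j : ℕ) : ℝ) < ((i : ℕ) : ℝ) + 2 * Real.pi
    have h1 : ((j : ℕ) : ℝ) ≤ 4 := by exact_mod_cast (by omega : (j : ℕ) ≤ 4)
    have h2 : (0 : ℝ) ≤ ((i : ℕ) : ℝ) := by positivity
    linarith

lemma qq_mem : qq ∈ Cfg 5 := by
  have hpi := Real.pi_gt_three
  refine ⟨?_, ?_⟩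
  · intro i j hij
    fin_cases i <;> fin_cases j <;> simp [qq] at hij ⊢ <;> norm_num
  · intro i j
    have h1 : qq j ≤ 5 := by
      fin_cases j <;> simp [qq] <;> norm_num
    have h2 : 0 ≤ qq i := by
      fin_cases i <;> simp [qq]
    linarith

lemma ppqq (m : ℤ) : ¬ ∀ i, (Tr ^ m) (pp i) = qq i := by
  intro h
  have h0 := h 0
  have h4 := h 4
  rw [Tr_pow] at h0 h4
  have e0 : pp 0 = 0 := by simp [pp]
  have e0' : qq 0 = 0 := by simp [qq]
  have e4 : pp 4 = 4 := by simp [pp]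
  have e4' : qq 4 = 5 := by simp [qq]
  rw [e0, e0'] at h0
  rw [e4, e4'] at h4
  linarith

end Pool.Agent.Helper356.Circ
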